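import Pool.Agent.H910.Lp.Low

/-!
Points of an entire curve and places of the function field of its closure.
-/

set_option autoImplicit false
set_option linter.unusedSectionVars false
set_option linter.unusedVariables false
set_option linter.overlappingInstances false

open Filter Topology Set Metric

namespace Pool.Agent.H910.Lp

open FF Pool.Agent.W603.BP Pool.Agent.W601.PH Pool.Agent.Y216 Pool.Agent.Y190.BV
  Pool.Agent.Y190.AN Pool.Agent.Y216.LG
open Pool.Agent.W603.PV (pht pord exists_pord pord_le)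
open Pool.Agent.W602.GT
open Pool.Agent.W603.LV (canDeg)
open Pool.Agent.Q271.RC (Nonconst IsGeneric)
open Pool.Agent.H916 (InClosure Meets RMap)
open Pool.Agent.H910.Cf

variable {L : Type} [Field L] [Algebra ℂ L] {M : ℕ} {ι : Type}
  {Q : ι → MvPolynomial (Fin (M + 1)) ℂ}

/-- **Points of the boundary on an entire curve.** -/
theorem exists_meets [IsFF ℂ L] (hQ : ∀ i, IsForm (Q i)) {v : Fin (M + 1) → L}
    (hgen : coords ℂ v = ⊤) (hnc : Nonconst v) {f : ℂ → Fin (M + 1) → ℂ}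
    (hol : ∀ i, Differentiable ℂ fun t => f t i) (hne : ∀ t, f t ≠ 0)
    (hiff : ∀ G : MvPolynomial (Fin (M + 1)) ℂ, IsForm G →
      ((∀ t, MvPolynomial.eval (f t) G = 0) ↔ val v G = 0)) {t0 : ℂ}
    (h0 : ∀ i, MvPolynomial.eval (f t0) (Q i) = 0) : ∃ q : Place ℂ L, Meets Q v q := by
  classical
  have hv := ne_of_nonconst hnc
  obtain ⟨F, hF⟩ : ∃ F : Fin (M + 1) → ℂ → ℂ, ∀ i z, F i z = f (z + (t0 - 2)) i :=
    ⟨_, fun _ _ => rfl⟩
  have hFd : ∀ i, Differentiable ℂ (F i) := by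
    intro i
    have h1 : F i = (fun t => f t i) ∘ fun z => z + (t0 - 2) := by
      funext z
      exact hF i z
    rw [h1]
    exact (hol i).comp (by fun_prop)
  have hFan : ∀ i z, AnalyticAt ℂ (F i) z := fun i z => (hFd i).analyticAt z
  have hFM : ∀ s, MeromorphicOn (F s) (exD 1 one_pos).U := fun s z _ =>
    (hFan s z).meromorphicAt
  have hz : (2 : ℂ) ∈ (exD 1 one_pos).U := by
    change (1 : ℝ) < ‖(2 : ℂ)‖
    norm_num
  have hF2 : (fun i => F i 2) = f t0 := by
    funext i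
    rw [hF]
    congr 1
    ring
  obtain ⟨ξ, hξ⟩ : ∃ ξ : Fin (M + 1) → MK (exD 1 one_pos), ξ = fun j => cl (F j) (hFM _) :=
    ⟨_, rfl⟩
  have hGan : ∀ (G : MvPolynomial (Fin (M + 1)) ℂ) (z : ℂ),
      AnalyticAt ℂ (fun z => MvPolynomial.eval (fun i => F i z) G) z := by
    intro G z
    simp only [MvPolynomial.eval_eq']
    apply Finset.analyticAt_fun_sum
    intro α _
    apply AnalyticAt.fun_mul analyticAt_const
    apply Finset.analyticAt_fun_prod
    intro s _
    exact (hFan s z).fun_pow _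
  have hval : ∀ G : MvPolynomial (Fin (M + 1)) ℂ, MvPolynomial.aeval ξ G =
      cl (fun z => MvPolynomial.eval (fun i => F i z) G) (eval_mero' G hFM) := by
    intro G
    rw [hξ]
    exact aeval_cl G hFM _
  have hzero : ∀ G : MvPolynomial (Fin (M + 1)) ℂ, MvPolynomial.aeval ξ G = 0 ↔
      ∀ t, MvPolynomial.eval (f t) G = 0 := by
    intro G
    rw [hval, cl_eq_zero]
    constructor
    · intro h t
      have h1 := h 2 hz
      have h2 : AnalyticOnNhd ℂ (fun z => MvPolynomial.eval (fun i => F i z) G) univ :=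
        fun z _ => hGan G z
      have h3 := h2.eqOn_zero_of_preconnected_of_frequently_eq_zero isPreconnected_univ
        (mem_univ (2 : ℂ)) h1.frequently
      have h4 := h3 (mem_univ (t - (t0 - 2)))
      simp only [hF, sub_add_cancel] at h4
      exact h4
    · intro h z _
      refine Eventually.of_forall fun w => ?_
      simp only [hF]
      exact h _
  have hord0 : ∀ G : MvPolynomial (Fin (M + 1)) ℂ, MvPolynomial.eval (f t0) G ≠ 0 →
      (PL hz).ord (MvPolynomial.aeval ξ G) = 0 := by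
    intro G hG
    have h1 : analyticOrderAt (fun z => MvPolynomial.eval (fun i => F i z) G) 2 = ((0 : ℕ) : ℕ∞) := by
      rw [Nat.cast_zero, (hGan G 2).analyticOrderAt_eq_zero, hF2]
      exact hG
    rw [hval]
    have := ord_cl (hg := eval_mero' G hFM) hz (hGan G 2) h1
    exact_mod_cast this
  have hordp : ∀ G : MvPolynomial (Fin (M + 1)) ℂ, MvPolynomial.eval (f t0) G = 0 →
      MvPolynomial.aeval ξ G ≠ 0 → 0 < (PL hz).ord (MvPolynomial.aeval ξ G) := by
    intro G hG hG0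
    have h2 : analyticOrderAt (fun z => MvPolynomial.eval (fun i => F i z) G) 2 ≠ ⊤ := by
      rw [Ne, analyticOrderAt_eq_top]
      intro h
      apply hG0
      rw [hzero]
      intro t
      have h3 : AnalyticOnNhd ℂ (fun z => MvPolynomial.eval (fun i => F i z) G) univ :=
        fun z _ => hGan G z
      have h4 := h3.eqOn_zero_of_preconnected_of_eventuallyEq_zero isPreconnected_univ
        (mem_univ (2 : ℂ)) h
      have h5 := h4 (mem_univ (t - (t0 - 2)))
      simp only [hF, sub_add_cancel] at h5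
      exact h5
    obtain ⟨a, ha⟩ := ENat.ne_top_iff_exists.1 h2
    have h3 := ord_cl (hg := eval_mero' G hFM) hz (hGan G 2) ha.symm
    rw [hval, h3]
    have h4 : a ≠ 0 := by
      rintro rfl
      rw [Nat.cast_zero] at ha
      have h5 := ((hGan G 2).analyticOrderAt_eq_zero).1 ha.symm
      apply h5
      rw [hF2]
      exact hG
    have : 0 < a := Nat.pos_of_ne_zero h4
    exact_mod_cast this
  obtain ⟨j0, hj0⟩ := Function.ne_iff.1 (hne t0)
  have hj0 : f t0 j0 ≠ 0 := hj0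
  have hX : ∀ l, MvPolynomial.aeval ξ (MvPolynomial.X l : MvPolynomial (Fin (M + 1)) ℂ) = ξ l :=
    fun l => MvPolynomial.aeval_X _ _
  have hξj : ξ j0 ≠ 0 := by
    intro h1
    rw [← hX, hzero] at h1
    have h2 := h1 t0
    rw [MvPolynomial.eval_X] at h2
    exact hj0 h2
  have hξjo : (PL hz).ord (ξ j0) = 0 := by
    rw [← hX]
    apply hord0
    rw [MvPolynomial.eval_X]
    exact hj0
  have hpord : pord (PL hz) ξ = 0 := by
    apply le_antisymm
    · have := pord_le (PL hz) hξj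
      rwa [hξjo] at this
    · obtain ⟨l, hl, hlo⟩ := exists_pord (PL hz) (f := ξ) ⟨j0, hξj⟩
      rw [← hlo]
      by_cases h1 : f t0 l = 0
      · rw [← hX] at hl ⊢
        exact (hordp _ (by rw [MvPolynomial.eval_X]; exact h1) hl).le
      · rw [← hX, hord0 _ (by rw [MvPolynomial.eval_X]; exact h1)]
  -- the embedding of the function field
  obtain ⟨E, i1, i2, φ, v', hv1, hv2, hv3, hv4⟩ := exists_sub (k := ℂ) hξj
  have hvv : ∀ G : MvPolynomial (Fin (M + 1)) ℂ, IsForm G → (val v' G = 0 ↔ val v G = 0) := by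
    intro G hG
    rw [hv4 G hG, ← hiff G hG]
    exact hzero G
  obtain ⟨t, ht⟩ := Pool.Agent.Q103.SF.exists_trdeg_of_gen hv3
  have htL : Algebra.trdeg ℂ L = (1 : ℕ) := by
    rw [IsFF.trdeg (k := ℂ) (K := L)]
    simp
  have hg1 : IsGeneric v := ⟨hv, hgen⟩
  have hg2 : IsGeneric v' := ⟨⟨j0, hv2⟩, hv3⟩
  obtain ⟨ht1, hσ⟩ := Pool.Agent.Q96.OS.gen_point' hg1 htL E v' t
    (fun G D hG hGx => (hvv G ⟨D, hG⟩).2 hGx) hg2 ht
  obtain ⟨ht2, -⟩ := Pool.Agent.Q96.OS.gen_point' hg2 ht L v 1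
    (fun G D hG hGx => (hvv G ⟨D, hG⟩).1 hGx) hg1 htL
  obtain ⟨σ, l, hl, hvl, -⟩ := hσ (le_antisymm ht1 ht2)
  let _ : Algebra L (MK (exD 1 one_pos)) := (φ.comp σ).toRingHom.toAlgebra
  have htow : IsScalarTower ℂ L (MK (exD 1 one_pos)) :=
    IsScalarTower.of_algebraMap_eq' (φ.comp σ).comp_algebraMap.symm
  obtain ⟨c, hc⟩ : ∃ c : MK (exD 1 one_pos), c = (φ l)⁻¹ * (ξ j0)⁻¹ := ⟨_, rfl⟩
  have hφl : φ l ≠ 0 := (map_ne_zero _).2 hl
  have hc0 : c ≠ 0 := by
    rw [hc]
    exact mul_ne_zero (inv_ne_zero hφl) (inv_ne_zero hξj)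
  have hcv : ∀ i, algebraMap L (MK (exD 1 one_pos)) (v i) = c * ξ i := by
    intro i
    have h1 : algebraMap L (MK (exD 1 one_pos)) (v i) = φ (σ (v i)) := rfl
    have h2 := hv1 i
    rw [hvl i, map_mul] at h2
    rw [h1, hc]
    have h3 : φ (σ (v i)) = (φ l)⁻¹ * (ξ i / ξ j0) := by
      rw [← h2, inv_mul_cancel_left₀ hφl]
    rw [h3, div_eq_mul_inv]
    ring
  have hvj : v j0 ≠ 0 := by
    intro h1
    have h2 := (hiff (MvPolynomial.X j0) ⟨1, MvPolynomial.isHomogeneous_X _ _⟩).2 (by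
      unfold Pool.Agent.W602.GT.val
      rw [MvPolynomial.aeval_X, h1]) t0
    rw [MvPolynomial.eval_X] at h2
    exact hj0 h2
  obtain ⟨i, hi⟩ : ∃ i, Transcendental ℂ (v i / v j0) := by
    obtain ⟨i', j', hj', hij⟩ := hnc
    by_contra hcon
    push Not at hcon
    have h1 : ∀ i, IsAlgebraic ℂ (v i / v j0) := fun i => not_not.1 (hcon i)
    apply hij
    have h2 : v i' / v j' = (v i' / v j0) * (v j' / v j0)⁻¹ := by
      field_simp
    rw [h2]
    exact (h1 i').mul (h1 j').inv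
  obtain ⟨e, w0, hw⟩ := exists_over (K := L) (PL hz) (by
    refine ⟨v i / v j0 - algebraMap ℂ L (f t0 i / f t0 j0), ?_⟩
    have h1 : v i / v j0 - algebraMap ℂ L (f t0 i / f t0 j0) ≠ 0 :=
      fun h => hi (by
        rw [sub_eq_zero.1 h]
        exact isAlgebraic_algebraMap _)
    have h2 : algebraMap L (MK (exD 1 one_pos)) (v i / v j0 -
        algebraMap ℂ L (f t0 i / f t0 j0)) = MvPolynomial.aeval ξ (MvPolynomial.X i -
          MvPolynomial.C (f t0 i / f t0 j0) * MvPolynomial.X j0) * (ξ j0)⁻¹ := by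
      rw [map_sub, map_div₀, hcv, hcv, ← IsScalarTower.algebraMap_apply, map_sub, map_mul,
        MvPolynomial.aeval_C, hX, hX, mul_div_mul_left _ _ hc0]
      field_simp
    have h3 : MvPolynomial.aeval ξ (MvPolynomial.X i -
          MvPolynomial.C (f t0 i / f t0 j0) * MvPolynomial.X j0) ≠ 0 := by
      intro h4
      rw [h4, zero_mul] at h2
      exact h1 ((map_eq_zero _).1 h2)
    have h4 := hordp _ (by
      rw [map_sub, map_mul, MvPolynomial.eval_X, MvPolynomial.eval_C, MvPolynomial.eval_X,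
        div_mul_cancel₀ _ hj0, sub_self]) h3
    rw [h2, (PL hz).ord_mul h3 (inv_ne_zero hξj), (PL hz).ord_inv, hξjo]
    omega)
  refine ⟨w0, ?_⟩
  rw [← meets_over hQ hv hw]
  have h5 : (fun i => algebraMap L (MK (exD 1 one_pos)) (v i)) = fun i => c * ξ i := funext hcv
  rw [h5, meets_scale hQ ⟨j0, hξj⟩ hc0]
  intro i
  by_cases h6 : MvPolynomial.aeval ξ (Q i) = 0
  · exact Or.inl h6
  · right
    rw [hpord, mul_zero]
    exact hordp _ (h0 i) h6

/-- **Curves of genus one.** -/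
theorem ell_curve [IsFF ℂ L] (hQ : ∀ i, IsForm (Q i)) {v : Fin (M + 1) → L}
    (hgen : coords ℂ v = ⊤) (hnc : Nonconst v) (hoff : ∃ i, MvPolynomial.aeval v (Q i) ≠ 0)
    (hcan : canDeg ℂ L ≤ 0) (hN : {P : Place ℂ L | Meets Q v P}.ncard = 0) :
    ∃ f, Entire v Q f ∧ ∀ G : MvPolynomial (Fin (M + 1)) ℂ, IsForm G →
      ((∀ t, MvPolynomial.eval (f t) G = 0) ↔ val v G = 0) := by
  classical
  have hlow : Pool.Agent.Q103.SF.S_low :=
    Pool.Agent.Q24.SF.low_curve Pool.Agent.Q95.SF.wei Pool.Agent.Q111.SF.cls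
  have hv := ne_of_nonconst hnc
  obtain ⟨f, hf, hvan⟩ := Pool.Agent.Q103.SF.curve_of_low (x := v) hlow
    (V := Pool.Agent.Q103.SF.van v) ⟨L, inferInstance, inferInstance, inferInstance, v,
      ⟨hv, fun G _ h => h⟩, hgen, hcan, rfl⟩
  have hiff : ∀ G : MvPolynomial (Fin (M + 1)) ℂ, IsForm G →
      ((∀ t, MvPolynomial.eval (fun i => f i t) G = 0) ↔ val v G = 0) := by
    intro G hG
    have h1 : G ∈ Pool.Agent.Q103.SF.vanOn Set.univ (fun t i => f i t) ↔
        G ∈ Pool.Agent.Q103.SF.van v := by rw [hvan]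
    constructor
    · intro h
      exact (h1.1 ⟨hG, fun t _ => h t⟩).2
    · intro h t
      exact (h1.2 ⟨hG, h⟩).2 t (mem_univ t)
  have hE := entire_of hf
  have hfin := meets_fin hv hoff
  refine ⟨fun t i => f i t, ⟨hE.hol, hE.ne, hE.mem, fun t => ?_, hE.nonconst⟩, hiff⟩
  by_contra hcon
  push Not at hcon
  obtain ⟨q, hq⟩ := exists_meets hQ hgen hnc hE.hol hE.ne hiff (t0 := t) hcon
  rw [Set.ncard_eq_zero hfin] at hN
  have h1 : q ∈ {P : Place ℂ L | Meets Q v P} := hq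
  rw [hN] at h1
  exact h1

/-- **Curves which are not hyperbolic.** -/
theorem low_curve' [IsFF ℂ L] (hQ : ∀ i, IsForm (Q i)) {v : Fin (M + 1) → L}
    (hgen : coords ℂ v = ⊤) (hnc : Nonconst v) (hoff : ∃ i, MvPolynomial.aeval v (Q i) ≠ 0)
    (hlow : canDeg ℂ L + {P : Place ℂ L | Meets Q v P}.ncard ≤ 0) :
    ∃ f, Entire v Q f ∧ ∀ G : MvPolynomial (Fin (M + 1)) ℂ, IsForm G →
      ((∀ t, MvPolynomial.eval (f t) G = 0) ↔ val v G = 0) := by
  rcases lt_or_ge (canDeg ℂ L) 0 with h | h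
  · have hc2 : canDeg ℂ L = -2 := Pool.Agent.Q72.NA.canDeg_of_neg h
    exact rat_curve hQ (ne_of_nonconst hnc) hnc hoff h (by omega)
  · exact ell_curve hQ hgen hnc hoff (by omega) (by omega)

end Pool.Agent.H910.Lp
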