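import Pool.Agent.H910.Lp.Asc
import Pool.Agent.H910.Cf.Mul
import Pool.Graph.R_pool_sql_team_seeded_3997aac3.Q96.LS.Main

/-!
Quasi-projective varieties with ramified maps to the spaces of the binary forms.
-/

set_option autoImplicit false
set_option linter.unusedSectionVars false
set_option linter.unusedVariables false
set_option linter.overlappingInstances false

open Filter Topology Set Metric

namespace Pool.Agent.H910.Lp

open FF
open Pool.Agent.W602.GT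
open Pool.Agent.Y216 (OnVar)
open Pool.Agent.W603.LV (canDeg)
open Pool.Agent.W603.PV (pht)
open Pool.Agent.Q271.RC (Nonconst IsGeneric)
open Pool.Agent.H916
open Pool.Agent.H910.Cf

variable {M : ℕ} {K : Type} [Field K] [Algebra ℂ K] {x : Fin (M + 1) → K} {ι : Type}
  {Q : ι → MvPolynomial (Fin (M + 1)) ℂ}

theorem picard_mul {G H : MvPolynomial (Fin (M + 1)) ℂ} (h : PicardOff x Q G) :
    PicardOff x Q (G * H) := by
  rintro f hf ⟨t, ht, hne⟩
  rw [map_mul] at hne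
  exact h f hf ⟨t, ht, left_ne_zero_of_mul hne⟩

theorem brody_mul {G H : MvPolynomial (Fin (M + 1)) ℂ} (h : BrodyOff x Q G) :
    BrodyOff x Q (G * H) := by
  intro f hf t
  rw [map_mul, h f hf t, zero_mul]

theorem strong_mul {G H : MvPolynomial (Fin (M + 1)) ℂ} {A : ℕ} (h : StrongBound x Q H A) :
    StrongBound x Q (G * H) A := by
  intro E _ _ _ f hf hn hfG hoff
  rw [val_mul_ne0] at hfG
  exact h E f hf hn hfG.2 hoff

/-- **One generically finite ramified map.** -/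
theorem off_single (hp : Pair x Q) {n : ℕ} {y : Fin (n + 2) → K} (h : Ram ℂ x Q y)
    (halg : Algebra.IsAlgebraic (coords ℂ y) K) :
    ∃ (G : MvPolynomial (Fin (M + 1)) ℂ) (A : ℕ), IsForm G ∧ val x G ≠ 0 ∧ LogOff ℂ x Q G ∧
      PicardOff x Q G ∧ BrodyOff x Q G ∧ StrongBound x Q G A := by
  have h' := h
  obtain ⟨q, a, M', μ, c, cD, G1, hram⟩ := h'
  obtain ⟨G2, hG2, hG2x, hP⟩ := hram.picard hp.1 hp.2.1 halg
  obtain ⟨G, hG, hGx, hL, A, hA⟩ := degreesOff hp h halg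
  refine ⟨G2 * G, A, isForm_mul0 hG2 hG, ?_, ?_, picard_mul hP, (picard_mul hP).brody,
    strong_mul fun E _ _ _ f hf hn hfG hoff => ?_⟩
  · rw [val_mul_ne0]
    exact ⟨hG2x, hGx⟩
  · intro E _ _ f hf hfgen hoff hfG t ht htr
    rw [val_mul_ne0] at hfG
    exact hL E f hf hfgen hoff hfG.2 t ht htr
  · have h1 := hA E f hf hfG hoff
    have h2 := Pool.Agent.Q96.LS.pht_pos f hn
    rcases le_or_gt (canDeg ℂ E + {P : Place ℂ E | Meets Q f P}.ncard) 0 with h3 | h3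
    · rw [max_eq_right h3, mul_zero] at h1
      exact absurd h1 (not_le.2 h2)
    · rwa [max_eq_left h3.le] at h1

/-- **Several ramified maps.** -/
theorem off_multi (hp : Pair x Q) {r : ℕ} {n : Fin r → ℕ} {z : ∀ l, Fin (n l + 2) → K}
    (h : ∀ l, Ram ℂ x Q (z l)) (halg : Algebra.IsAlgebraic ↥(⨆ l, coords ℂ (z l)) K) :
    ∃ (G : MvPolynomial (Fin (M + 1)) ℂ) (A : ℕ), IsForm G ∧ val x G ≠ 0 ∧
      PicardOff x Q G ∧ BrodyOff x Q G ∧ StrongBound x Q G A := by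
  obtain ⟨hx, hgen, hfin, hQ, hQx⟩ := hp
  obtain ⟨G2, hG2, hG2x, hP⟩ := picard_multi hx hgen h halg
  obtain ⟨G, hG, hGx, -, A, hA⟩ := brody_fib (y := z) hx hgen hQ hQx (fun l => (h l).ne)
    (Or.inl halg) (fun l => (h l).hb hx hgen) fun l => ram_constOn (h l)
  refine ⟨G2 * G, A, isForm_mul0 hG2 hG, ?_, picard_mul hP, (picard_mul hP).brody,
    strong_mul fun E _ _ _ f hf hn hfG hoff => hA E f hf hn hfG hoff⟩
  rw [val_mul_ne0]
  exact ⟨hG2x, hGx⟩

/-- **Ascent.** -/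
theorem off_ascend (hp : Pair x Q) {r r' : ℕ} {B : Fin r → Type} [iB : ∀ l, Field (B l)]
    [iA : ∀ l, Algebra ℂ (B l)] {N : Fin r → ℕ} {y : ∀ l, Fin (N l + 1) → B l} {κ : Fin r → Type}
    {Q' : ∀ l, κ l → MvPolynomial (Fin (N l + 1)) ℂ} {n : Fin r' → ℕ}
    {z : ∀ l, Fin (n l + 2) → K} (hY : ∀ l, Pair (y l) (Q' l)) (φ : ∀ l, B l →ₐ[ℂ] K)
    (hmap : ∀ l, PairMap x Q (fun j => φ l (y l j)) (Q' l)) (hz : ∀ l, Ram ℂ x Q (z l))
    (h : ((∃ w, LogGeneralType ℂ K w fun P => Meets Q x P) ∧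
        Algebra.trdeg ℂ K ≤
          Algebra.trdeg ℂ ↥((⨆ l, (φ l).fieldRange) ⊔ ⨆ l, coords ℂ (z l)) + 1) ∨
      LogHypFibres ((⨆ l, (φ l).fieldRange) ⊔ ⨆ l, coords ℂ (z l)).toSubfield (cuspFun x Q))
    (hV : ∀ l, HypOff (y l) (Q' l)) : HypOff x Q := by
  obtain ⟨hx, hgen, hfin, hQ, hQx⟩ := hp
  have hfib : LogHypFibres ((⨆ l, (φ l).fieldRange) ⊔ ⨆ l, coords ℂ (z l)).toSubfield
      (cuspFun x Q) := by
    rcases h with ⟨⟨w, hw⟩, htr⟩ | h
    · exact logHyp_of_lgt' hx hgen hQx hw htr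
    · exact h
  exact ascend2 hx hgen hQ hQx (fun l => hY l) φ hmap hz hfib hV

end Pool.Agent.H910.Lp
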