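import Pool.Agent.H910.Lp.Ldf
import Pool.Agent.H910.Lp.Ell
import Pool.Agent.H910.Lp.Off

/-!
Quasi-projective varieties all of whose closed subvarieties of dimension at least two belong to the
class of the iterated fibrations.
-/

set_option autoImplicit false
set_option linter.unusedSectionVars false
set_option linter.unusedVariables false
set_option linter.overlappingInstances false

open Filter Topology Set Metric

namespace Pool.Agent.H910.Lp

open FF
open Pool.Agent.W602.GT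
open Pool.Agent.Y216 (OnVar)
open Pool.Agent.W603.LV (canDeg)
open Pool.Agent.W603.PV (pht pord exists_pord pord_le)
open Pool.Agent.Q271.RC (Nonconst IsGeneric)
open Pool.Agent.H916
open Pool.Agent.H910.Cf
open Pool.Agent.Q96.HE (IsMap eul vanForms)
open Pool.Agent.Q96.LS (CentreIn LiesIn nonconst_of Norm)
open Pool.Agent.Q103.SF (van vanOn)

variable {M : ℕ} {K : Type} [Field K] [Algebra ℂ K] {x : Fin (M + 1) → K} {ι : Type}
  {Q : ι → MvPolynomial (Fin (M + 1)) ℂ}

theorem lies_iff {L : Type} [Field L] [Algebra ℂ L] {v : Fin (M + 1) → L} :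
    LiesIn (Set.range Q) v ↔ ∀ i, MvPolynomial.aeval v (Q i) = 0 :=
  ⟨fun h i => h _ ⟨i, rfl⟩, fun h => by
    rintro _ ⟨i, rfl⟩
    exact h i⟩

theorem norm_iff {L : Type} [Field L] [Algebra ℂ L] {v : Fin (M + 1) → L} (hv : ∃ j, v j ≠ 0)
    (P : Place ℂ L) (c : ℤ) : Norm P v c ↔ c = pord P v := by
  constructor
  · rintro ⟨h1, j, hj, hjc⟩
    obtain ⟨l, hl, hlo⟩ := exists_pord P hv
    apply le_antisymm
    · rw [← hlo]
      exact h1 l hl
    · rw [← hjc]
      exact pord_le P hj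
  · rintro rfl
    exact ⟨fun j hj => pord_le P hj, exists_pord P hv⟩

theorem centre_iff (hQ : ∀ i, IsForm (Q i)) {L : Type} [Field L] [Algebra ℂ L]
    {v : Fin (M + 1) → L} (hv : ∃ j, v j ≠ 0) (P : Place ℂ L) :
    CentreIn (Set.range Q) v P ↔ Meets Q v P := by
  constructor
  · intro h i
    obtain ⟨d, hd⟩ := hQ i
    by_cases h0 : MvPolynomial.aeval v (Q i) = 0
    · exact Or.inl h0
    · right
      have hQ0 : Q i ≠ 0 := fun h => h0 (by rw [h, map_zero])
      rw [hd.totalDegree hQ0]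
      exact (h _ ((norm_iff hv P _).2 rfl) _ ⟨i, rfl⟩ d hd).resolve_left h0
  · rintro h c hc _ ⟨i, rfl⟩ E hE
    rw [(norm_iff hv P c).1 hc]
    by_cases h0 : MvPolynomial.aeval v (Q i) = 0
    · exact Or.inl h0
    · right
      have hQ0 : Q i ≠ 0 := fun h => h0 (by rw [h, map_zero])
      have h1 := (h i).resolve_left h0
      rwa [hE.totalDegree hQ0] at h1

theorem eul_eq (hQ : ∀ i, IsForm (Q i)) {L : Type} [Field L] [Algebra ℂ L] [IsFF ℂ L]
    {v : Fin (M + 1) → L} (hv : ∃ j, v j ≠ 0) :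
    eul (Set.range Q) v = canDeg ℂ L + {P : Place ℂ L | Meets Q v P}.ncard := by
  unfold eul
  have h1 : {P : Place ℂ L | CentreIn (Set.range Q) v P} = {P : Place ℂ L | Meets Q v P} := by
    ext P
    exact centre_iff hQ hv P
  rw [h1]

theorem vanForms_eq {L : Type} [Field L] [Algebra ℂ L] {v : Fin (M + 1) → L} :
    vanForms v = van v := rfl

theorem lowOff_eq (hQ : ∀ i, IsForm (Q i)) :
    LowOff x Q = Pool.Agent.Q96.HE.lowCurves x (Set.range Q) := by
  ext V
  constructor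
  · rintro ⟨L, i1, i2, i3, v, ⟨hv, hgen, hoff⟩, hlow, rfl⟩
    have htL : Algebra.trdeg ℂ L = (1 : ℕ) := by
      rw [IsFF.trdeg (k := ℂ) (K := L)]
      simp
    have hg : IsGeneric v := ⟨hv.1, hgen⟩
    refine ⟨L, i1, i2, i3, v, ⟨point_of_onVar hv, ?_, nonconst_of hg htL⟩, hg, ?_, rfl⟩
    · rw [lies_iff]
      push Not
      exact hoff
    · rw [eul_eq hQ hv.1]
      exact hlow
  · rintro ⟨L, i1, i2, i3, v, ⟨hv, hoff, hnc⟩, hg, hlow, rfl⟩
    rw [lies_iff] at hoff
    push Not at hoff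
    have hv0 := ne_of_nonconst hnc
    rw [eul_eq hQ hv0] at hlow
    exact ⟨L, i1, i2, i3, v, ⟨onVar_of_point hv hv0, hg.2, hoff⟩, hlow, rfl⟩

theorem exists_trdeg_nat {E : Type} [Field E] [Algebra ℂ E] {v : Fin (M + 1) → E}
    (hgen : coords ℂ v = ⊤) : ∃ t : ℕ, Algebra.trdeg ℂ E = t :=
  Pool.Agent.Q103.SF.exists_trdeg_of_gen hgen

theorem isFF_of {E : Type} [Field E] [Algebra ℂ E] {v : Fin (M + 1) → E}
    (hgen : coords ℂ v = ⊤) (ht : Algebra.trdeg ℂ E = (1 : ℕ)) : IsFF ℂ E :=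
  ⟨Pool.Agent.Q72.NA.ess_of_adjoin hgen, by rw [ht]; simp⟩

/-- **The abstract criterion.** -/
theorem curvesOff [Finite ι] (hx : x ≠ 0) (hgen : coords ℂ x = ⊤) (hQ : ∀ i, IsForm (Q i))
    (h : ∀ (E : Type) [Field E] [Algebra ℂ E] (z : Fin (M + 1) → E) (t : ℕ), SubOff x Q z →
      Algebra.trdeg ℂ E = t → 2 ≤ t →
      (LogGeneralType ℂ E t fun P => Meets Q z P) ∧ HypOff z Q) : CurvesOff x Q := by
  classical
  obtain ⟨d, hd⟩ := exists_trdeg_nat hgen
  obtain ⟨h1, A', h2⟩ := any_dim (D := Set.range Q) (by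
      rintro _ ⟨i, rfl⟩
      exact hQ i) d K x hx hgen hd (by
    intro E _ _ z t hz hzgen ht h2t hl
    rw [lies_iff] at hl
    push Not at hl
    obtain ⟨-, G, hG, hGz, -, A, hA⟩ := h E z t ⟨hz, hzgen, hl⟩ ht h2t
    refine ⟨G, hG, hGz, A, fun L _ _ _ v hv hvG => ?_⟩
    have hv0 := ne_of_nonconst hv.nonconst
    have hoff := hv.off
    rw [lies_iff] at hoff
    push Not at hoff
    rw [eul_eq hQ hv0]
    exact hA L v (onVar_of_point hv.point hv0) hv.nonconst hvG hoff)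
  refine ⟨by rw [lowOff_eq hQ]; exact h1, fun f hf => ?_, ?_, fun E _ _ t z hz ht1 ht => ?_, A',
    fun L _ _ _ v hv hnc hoff => ?_⟩
  · obtain ⟨E, i1, i2, z, t, hz, hzgen, hoff, ht, ht1, hiff, hlow⟩ := entire_sub' hQ hf
    rcases (by omega : t = 1 ∨ 2 ≤ t) with h1 | h2t
    · subst h1
      have hff : IsFF ℂ E := isFF_of hzgen ht
      refine ⟨E, i1, i2, hff, z, ⟨hz, hzgen, hoff⟩, hlow rfl hff, ?_⟩
      ext G
      constructor
      · rintro ⟨hG, h⟩
        exact ⟨hG, (hiff G hG).2 fun t => h t (Set.mem_univ t)⟩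
      · rintro ⟨hG, h⟩
        exact ⟨hG, fun t _ => (hiff G hG).1 h t⟩
    · exfalso
      obtain ⟨-, G, hG, hGz, hBr, -⟩ := h E z t ⟨hz, hzgen, hoff⟩ ht h2t
      apply hGz
      rw [hiff G hG]
      exact hBr f ⟨hf.hol, hf.ne, fun G hG hGz t => (hiff G hG).1 hGz t, hf.off, hf.nonconst⟩
  · rintro V ⟨L, i1, i2, i3, v, ⟨hv, hvgen, hoff⟩, hlow, rfl⟩
    have htL : Algebra.trdeg ℂ L = (1 : ℕ) := by
      rw [IsFF.trdeg (k := ℂ) (K := L)]
      simp
    have hnc : Nonconst v := nonconst_of ⟨hv.1, hvgen⟩ htL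
    obtain ⟨f, hf, hiff⟩ := low_curve' hQ hvgen hnc hoff hlow
    refine ⟨f, ⟨hf.hol, hf.ne, fun G hG hGx => hf.mem G hG (hv.2 G hG hGx), hf.off,
      hf.nonconst⟩, ?_⟩
    ext G
    constructor
    · rintro ⟨hG, h⟩
      exact ⟨hG, (hiff G hG).1 fun t => h t (Set.mem_univ t)⟩
    · rintro ⟨hG, h⟩
      exact ⟨hG, fun t _ => (hiff G hG).2 h t⟩
  · rcases (by omega : t = 1 ∨ 2 ≤ t) with h1 | h2t
    · subst h1
      obtain ⟨hzon, hzgen, hoff⟩ := hz
      have hff : IsFF ℂ E := isFF_of hzgen ht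
      rcases le_or_gt (canDeg ℂ E + {P : Place ℂ E | Meets Q z P}.ncard) 0 with h3 | h3
      · right
        exact ⟨E, inferInstance, inferInstance, hff, z, ⟨hzon, hzgen, hoff⟩, h3, rfl⟩
      · left
        have hfin := meets_fin hzon.1 hoff
        have h4 := Pool.Agent.Q96.LS.lgt_one hfin.toFinset (by
          rw [← Set.ncard_eq_toFinset_card _ hfin]
          exact h3)
        have h5 : (fun P => P ∈ hfin.toFinset) = fun P => Meets Q z P := by
          funext P
          rw [Set.Finite.mem_toFinset]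
          rfl
        rwa [h5] at h4
    · exact Or.inl (h E z t hz ht h2t).1
  · have h3 := h2 L v ⟨point_of_onVar hv, by
      rw [lies_iff]
      push Not
      exact hoff, hnc⟩
    rwa [eul_eq hQ hv.1, vanForms_eq, ← lowOff_eq hQ] at h3

theorem LogClass.curves [Finite ι] (h : LogClass x Q) (hx : x ≠ 0) (hgen : coords ℂ x = ⊤)
    (hQ : ∀ i, IsForm (Q i)) : CurvesOff x Q :=
  curvesOff hx hgen hQ fun E _ _ z t hz ht h2 =>
    ⟨(h E z t hz ht h2).1, tower_hypOff (h E z t hz ht h2).2⟩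

/-- **Equivalence.** -/
theorem CurvesOff.tfae (h : CurvesOff x Q) (hQ : ∀ i, IsForm (Q i)) :
    List.TFAE [BrodyHypOff x Q, AllLog x Q, AlgHypOff x Q, LowOff x Q = ∅] := by
  tfae_have 1 → 4 := by
    intro h0
    rw [Set.eq_empty_iff_forall_notMem]
    intro V hV
    obtain ⟨f, hf, -⟩ := h.curves V hV
    exact h0 f hf
  tfae_have 4 → 1 := by
    intro h0 f hf
    have := h.entire f hf
    rw [h0] at this
    exact this
  tfae_have 4 → 2 := by
    intro h0 E _ _ t z hz ht1 ht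
    have := h.sub E t z hz ht1 ht
    rw [h0] at this
    exact this.resolve_right (Set.notMem_empty _)
  tfae_have 4 → 3 := by
    intro h0
    obtain ⟨A, hA⟩ := h.degree
    refine ⟨A, fun L _ _ _ v hv hnc hoff => ?_⟩
    have := hA L v hv hnc hoff
    rw [h0] at this
    exact this.resolve_right (Set.notMem_empty _)
  tfae_have 3 → 4 := by
    rintro ⟨A, hA⟩
    rw [Set.eq_empty_iff_forall_notMem]
    rintro V ⟨L, i1, i2, i3, v, ⟨hv, hvgen, hoff⟩, hlow, rfl⟩
    have htL : Algebra.trdeg ℂ L = (1 : ℕ) := by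
      rw [IsFF.trdeg (k := ℂ) (K := L)]
      simp
    have hnc : Nonconst v := nonconst_of ⟨hv.1, hvgen⟩ htL
    have h1 := hA L v hv hnc hoff
    have h2 := Pool.Agent.Q96.LS.pht_pos v hnc
    have h3 := mul_nonpos_of_nonneg_of_nonpos (Int.natCast_nonneg A) hlow
    linarith
  tfae_have 2 → 4 := by
    intro h0
    rw [Set.eq_empty_iff_forall_notMem]
    rintro V ⟨L, i1, i2, i3, v, hv, hlow, rfl⟩
    have htL : Algebra.trdeg ℂ L = (1 : ℕ) := by
      rw [IsFF.trdeg (k := ℂ) (K := L)]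
      simp
    have h1 := h0 L 1 v hv le_rfl htL
    have hfin := meets_fin hv.1.1 hv.2.2
    have h2 := Pool.Agent.Q96.HE.pos_of_lgt hfin h1
    linarith
  tfae_finish

end Pool.Agent.H910.Lp
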