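import Pool.Agent.H910.Lp.Pt
import Pool.Graph.R_seed8.TH143.LG.Laur

/-!
Rational curves which meet the boundary in at most two points.
-/

set_option autoImplicit false
set_option linter.unusedSectionVars false
set_option linter.unusedVariables false
set_option linter.overlappingInstances false

namespace Pool.Agent.H910.Lp

open FF IntermediateField
open Pool.Agent.W602.GT
open Pool.Agent.Y216 (OnVar)
open Pool.Agent.W603.LV
open Pool.Agent.W603.PV (pht pord exists_pord pord_le under ram)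
open Pool.Agent.Q271.RC (Nonconst)
open Pool.Agent.H916 (InClosure Meets RMap LinearOff)
open Pool.Agent.H910.Cf
open Pool.Agent.Q96.HE (over_under sum_ram pht_ext finite_of_ff)
open Pool.Agent.W619.PQ

section gen

variable {k K : Type} [Field k] [CharZero k] [IsAlgClosed k] [Field K] [Algebra k K] [IsFF k K]

/-- a generator with its zero and its pole at two given places -/
theorem exists_gen2 (h : canDeg k K < 0) {S : Finset (Place k K)} (hc2 : S.card ≤ 2) :
    ∃ t : K, k⟮t⟯ = ⊤ ∧ ∀ P ∈ S, P.ord t ≠ 0 := by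
  classical
  obtain ⟨t0, ht0⟩ := Pool.Agent.TH143.GE.rational_of_neg (k := k) (K := K) h
  rcases S.eq_empty_or_nonempty with rfl | ⟨P0, hP0⟩
  · exact ⟨t0, ht0, fun P hP => absurd hP (Finset.notMem_empty P)⟩
  obtain ⟨t1, ht1, hp1, hp2⟩ : ∃ t1 : K, k⟮t1⟯ = ⊤ ∧ P0.ord t1 < 0 ∧
      ∀ Q : Place k K, Q.ord t1 < 0 → Q = P0 := by
    by_cases h1 : P0.ord t0 < 0
    · obtain ⟨P, hP, hP2⟩ := pole_unique ht0
      refine ⟨t0, ht0, h1, fun Q hQ => ?_⟩
      rw [hP2 Q hQ, hP2 P0 h1]
    · rw [not_lt] at h1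
      obtain ⟨D, hD, hDx⟩ := exists_ddx (transcendental_of_top ht0)
      obtain ⟨-, a, ha1, ha2⟩ := vo_finite_place ht0 hD hDx P0 h1
      refine ⟨(t0 - algebraMap k K a)⁻¹, ?_, ?_, fun Q hQ => ?_⟩
      · rw [adjoin_inv]
        exact top_sub ht0 a
      · rw [P0.ord_inv]
        omega
      · rw [Q.ord_inv] at hQ
        exact ha2 Q (by omega)
  by_cases h1 : ∃ P1 ∈ S, P1 ≠ P0
  · obtain ⟨P1, hP1, hne⟩ := h1
    have h2 : 0 ≤ P1.ord t1 := by
      by_contra hcon
      exact hne (hp2 P1 (by omega))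
    obtain ⟨D, hD, hDx⟩ := exists_ddx (transcendental_of_top ht1)
    obtain ⟨-, a, ha1, ha2⟩ := vo_finite_place ht1 hD hDx P1 h2
    have hsub : S = {P0, P1} := by
      symm
      apply Finset.eq_of_subset_of_card_le
      · intro P hP
        rcases Finset.mem_insert.1 hP with rfl | hP
        · exact hP0
        · rw [Finset.mem_singleton.1 hP]
          exact hP1
      · rw [Finset.card_pair hne.symm]
        exact hc2
    have hne1 : t1 - algebraMap k K a ≠ 0 := sub_const_ne (transcendental_of_top ht1) a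
    refine ⟨t1 - algebraMap k K a, top_sub ht1 a, fun P hP => ?_⟩
    rw [hsub] at hP
    rcases Finset.mem_insert.1 hP with rfl | hP
    · intro h0
      have h3 : Ge P 0 (t1 - algebraMap k K a) := Or.inr (by omega)
      have h4 := h3.add (Ge.const a)
      rw [sub_add_cancel] at h4
      rcases h4 with h4 | h4
      · rw [h4, P.ord_zero] at hp1
        omega
      · omega
    · rw [Finset.mem_singleton.1 hP, ha1]
      exact one_ne_zero
  · push Not at h1
    exact ⟨t1, ht1, fun P hP => by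
      rw [h1 P hP]
      omega⟩

/-- power maps -/
theorem exists_pow {t : K} (ht : k⟮t⟯ = ⊤) {m : ℕ} (hm : 0 < m) :
    ∃ φ : K →ₐ[k] RatFunc k, φ t = RatFunc.X ^ m := by
  classical
  have htr := transcendental_of_top ht
  have hinj : Function.Injective (Polynomial.aeval t : Polynomial k →ₐ[k] K) :=
    transcendental_iff_injective.1 htr
  have hle : nonZeroDivisors (Polynomial k) ≤
      (nonZeroDivisors K).comap (Polynomial.aeval t : Polynomial k →ₐ[k] K) :=
    nonZeroDivisors_le_comap_nonZeroDivisors_of_injective _ hinj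
  let e : RatFunc k →ₐ[k] K := RatFunc.liftAlgHom (Polynomial.aeval t) hle
  have he : e RatFunc.X = t := by
    change RatFunc.liftAlgHom (Polynomial.aeval t) hle RatFunc.X = t
    rw [← RatFunc.algebraMap_X]
    have := RatFunc.liftAlgHom_apply_div (φ := Polynomial.aeval t) (hφ := hle) Polynomial.X 1
    rw [map_one, map_one, div_one, div_one, Polynomial.aeval_X] at this
    exact this
  have hesurj : Function.Surjective e := by
    intro y
    have h1 : y ∈ k⟮t⟯ := by
      rw [ht]
      exact IntermediateField.mem_top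
    have h2 : k⟮t⟯ ≤ e.fieldRange := by
      rw [adjoin_simple_le_iff]
      exact ⟨RatFunc.X, he⟩
    exact h2 h1
  let e' : RatFunc k ≃ₐ[k] K := AlgEquiv.ofBijective e ⟨e.toRingHom.injective, hesurj⟩
  have htr2 : Transcendental k ((RatFunc.X : RatFunc k) ^ m) := by
    have h0 : Transcendental k (RatFunc.X : RatFunc k) := RatFunc.transcendental_X
    exact h0.pow hm
  have hinj2 : Function.Injective
      (Polynomial.aeval ((RatFunc.X : RatFunc k) ^ m) : Polynomial k →ₐ[k] RatFunc k) :=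
    transcendental_iff_injective.1 htr2
  have hle2 : nonZeroDivisors (Polynomial k) ≤ (nonZeroDivisors (RatFunc k)).comap
      (Polynomial.aeval ((RatFunc.X : RatFunc k) ^ m) : Polynomial k →ₐ[k] RatFunc k) :=
    nonZeroDivisors_le_comap_nonZeroDivisors_of_injective _ hinj2
  let ψ : RatFunc k →ₐ[k] RatFunc k :=
    RatFunc.liftAlgHom (Polynomial.aeval ((RatFunc.X : RatFunc k) ^ m)) hle2
  have hψ : ψ RatFunc.X = RatFunc.X ^ m := by
    change RatFunc.liftAlgHom (Polynomial.aeval ((RatFunc.X : RatFunc k) ^ m)) hle2 RatFunc.X = _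
    have := RatFunc.liftAlgHom_apply_div
      (φ := Polynomial.aeval ((RatFunc.X : RatFunc k) ^ m)) (hφ := hle2) Polynomial.X 1
    rw [map_one, map_one, div_one, div_one, Polynomial.aeval_X, RatFunc.algebraMap_X] at this
    exact this
  refine ⟨ψ.comp e'.symm.toAlgHom, ?_⟩
  have h3 : e'.symm t = RatFunc.X := by
    rw [AlgEquiv.symm_apply_eq]
    exact he.symm
  change ψ (e'.symm t) = _
  rw [h3, hψ]

end gen

variable {M : ℕ} {K : Type} [Field K] [Algebra ℂ K] {x : Fin (M + 1) → K} {ι : Type}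
  {Q : ι → MvPolynomial (Fin (M + 1)) ℂ}

/-- **Power maps of rational curves.** -/
theorem pow_map (hQ : ∀ i, IsForm (Q i)) {L : Type} [Field L] [Algebra ℂ L] [IsFF ℂ L]
    {v : Fin (M + 1) → L} (hv : ∃ j, v j ≠ 0) (hnc : Nonconst v)
    (hoff : ∃ i, MvPolynomial.aeval v (Q i) ≠ 0) (hcan : canDeg ℂ L < 0)
    (hN : {P : Place ℂ L | Meets Q v P}.ncard ≤ 2) {m : ℕ} (hm : 0 < m) :
    ∃ φ : L →ₐ[ℂ] RatFunc ℂ, (m : ℤ) ≤ pht ℂ (fun i => φ (v i)) ∧
      {P : Place ℂ (RatFunc ℂ) | Meets Q (fun i => φ (v i)) P}.ncard ≤ 2 := by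
  classical
  have hfin := meets_fin hv hoff
  obtain ⟨t, ht, htS⟩ := exists_gen2 (k := ℂ) (K := L) hcan (S := hfin.toFinset) (by
    rw [← Set.ncard_eq_toFinset_card _ hfin]
    exact hN)
  obtain ⟨φ, hφ⟩ := exists_pow ht hm
  refine ⟨φ, ?_⟩
  let _ : Algebra L (RatFunc ℂ) := φ.toRingHom.toAlgebra
  have htow : IsScalarTower ℂ L (RatFunc ℂ) :=
    IsScalarTower.of_algebraMap_eq' φ.comp_algebraMap.symm
  have hff : IsFF ℂ (RatFunc ℂ) := Pool.Agent.Y216.isFF_ratFunc
  have hfd : FiniteDimensional L (RatFunc ℂ) := finite_of_ff L (RatFunc ℂ)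
  have hal : ∀ f : L, algebraMap L (RatFunc ℂ) f = φ f := fun f => rfl
  have hs : ℂ⟮(RatFunc.X : RatFunc ℂ)⟯ = ⊤ := RatFunc.adjoin_X
  have ht0 : t ≠ 0 := by
    rintro rfl
    exact transcendental_of_top ht isAlgebraic_zero
  have hX : ∀ P : Place ℂ (RatFunc ℂ), (ram L P : ℤ) * (under L P).ord t =
      m * P.ord (RatFunc.X : RatFunc ℂ) := by
    intro P
    have h1 := (over_under (F := L) P).2 t
    rw [hal, hφ, P.ord_pow] at h1
    exact h1.symm
  have hram : ∀ P : Place ℂ (RatFunc ℂ), (0 : ℤ) < ram L P := fun P => by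
    exact_mod_cast (over_under (F := L) P).1
  constructor
  · have h1 := pht_ext (L := RatFunc ℂ) v hv (l := 1) one_ne_zero
    simp only [one_mul] at h1
    have h2 : (fun i => φ (v i)) = fun i => algebraMap L (RatFunc ℂ) (v i) := rfl
    rw [h2, h1]
    have h3 : (m : ℤ) ≤ Module.finrank L (RatFunc ℂ) := by
      obtain ⟨P0, hP0, -⟩ := zero_unique (k := ℂ) hs
      obtain ⟨p0, hp0, hp0'⟩ := zero_unique (k := ℂ) ht
      have h4 := hX P0
      rw [hP0, mul_one] at h4
      have hm' : (0 : ℤ) < m := by exact_mod_cast hm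
      have h5 : 0 < (under L P0).ord t := by
        by_contra hcon
        rw [not_lt] at hcon
        have h6 := mul_nonpos_of_nonneg_of_nonpos (hram P0).le hcon
        omega
      have h6 := hp0' _ h5
      rw [h6, hp0, mul_one] at h4
      obtain ⟨S, hS, hsum⟩ := sum_ram (F := L) (L := RatFunc ℂ) p0
      rw [← hsum, ← h4]
      exact Finset.single_le_sum (f := fun P => (ram L P : ℤ)) (fun P _ => (hram P).le)
        ((hS P0).2 h6)
    have h4 := Pool.Agent.Q96.LS.pht_pos v hnc
    nlinarith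
  · obtain ⟨P0, hP0, hP0'⟩ := zero_unique (k := ℂ) hs
    obtain ⟨P1, hP1, hP1'⟩ := pole_unique (k := ℂ) hs
    have hsub : {P : Place ℂ (RatFunc ℂ) | Meets Q (fun i => φ (v i)) P} ⊆ ({P0, P1} : Set _) := by
      intro P hP
      have h1 : Meets Q v (under L P) := (meets_over hQ hv (over_under (F := L) P)).1 hP
      have h2 := htS (under L P) (by
        rw [Set.Finite.mem_toFinset]
        exact h1)
      have h3 : P.ord (RatFunc.X : RatFunc ℂ) ≠ 0 := by
        intro h0
        have h4 := hX P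
        rw [h0, mul_zero] at h4
        rcases mul_eq_zero.1 h4 with h5 | h5
        · have := hram P
          omega
        · exact h2 h5
      rcases lt_or_gt_of_ne h3 with h4 | h4
      · exact Or.inr (hP1' P h4)
      · exact Or.inl (hP0' P h4)
    refine (Set.ncard_le_ncard hsub (Set.toFinite _)).trans ?_
    have h7 := Set.ncard_insert_le P0 ({P1} : Set (Place ℂ (RatFunc ℂ)))
    rw [Set.ncard_singleton] at h7
    exact h7

/-- **Strong linear bounds.** -/
theorem strong_of_linear (hQ : ∀ i, IsForm (Q i)) (h : LinearOff ℂ x Q) :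
    ∃ G : MvPolynomial (Fin (M + 1)) ℂ, IsForm G ∧ val x G ≠ 0 ∧ ∃ A : ℕ,
      ∀ (E : Type) [Field E] [Algebra ℂ E] [IsFF ℂ E] (f : Fin (M + 1) → E), OnVar ℂ x f →
        Nonconst f → val f G ≠ 0 → (∃ i, MvPolynomial.aeval f (Q i) ≠ 0) →
          pht ℂ f ≤ A * (canDeg ℂ E + {P : Place ℂ E | Meets Q f P}.ncard) := by
  obtain ⟨G, hG, hGx, A, hA⟩ := h
  refine ⟨G, hG, hGx, 3 * A, fun E _ _ _ f hf hnc hfG hoff => ?_⟩
  have h1 := hA E f hf hfG hoff
  rcases le_or_gt 0 (canDeg ℂ E) with hc | hc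
  · rw [max_eq_left hc] at h1
    have h2 : (0 : ℤ) ≤ A * (canDeg ℂ E + {P : Place ℂ E | Meets Q f P}.ncard) :=
      mul_nonneg (Int.natCast_nonneg _) (add_nonneg hc (Int.natCast_nonneg _))
    push_cast
    linarith
  · have hc2 : canDeg ℂ E = -2 := Pool.Agent.Q72.NA.canDeg_of_neg hc
    rw [max_eq_right hc.le, zero_add] at h1
    rcases le_or_gt {P : Place ℂ E | Meets Q f P}.ncard 2 with hN | hN
    · exfalso
      obtain ⟨φ, h2, h3⟩ := pow_map hQ hf.1 hnc hoff hc hN (m := 2 * A + 1) (by omega)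
      have hff : IsFF ℂ (RatFunc ℂ) := Pool.Agent.Y216.isFF_ratFunc
      have hval : ∀ H : MvPolynomial (Fin (M + 1)) ℂ, MvPolynomial.aeval (fun i => φ (f i)) H =
          φ (MvPolynomial.aeval f H) := by
        intro H
        rw [MvPolynomial.comp_aeval_apply]
      have h4 := hA (RatFunc ℂ) (fun i => φ (f i)) ⟨by
          obtain ⟨j, hj⟩ := hf.1
          exact ⟨j, (map_ne_zero _).2 hj⟩, fun H hH hHx => by
          have h5 := hf.2 H hH hHx
          unfold Pool.Agent.W602.GT.val at h5 ⊢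
          rw [hval, h5, map_zero]⟩ (by
          unfold Pool.Agent.W602.GT.val at hfG ⊢
          rw [hval]
          exact (map_ne_zero _).2 hfG) (by
          obtain ⟨i, hi⟩ := hoff
          exact ⟨i, by
            rw [hval]
            exact (map_ne_zero _).2 hi⟩)
      rw [Pool.Agent.Y216.canDeg_ratFunc, max_eq_right (by norm_num), zero_add] at h4
      have h5 : (A : ℤ) * {P : Place ℂ (RatFunc ℂ) | Meets Q (fun i => φ (f i)) P}.ncard ≤
          A * 2 := by
        refine mul_le_mul_of_nonneg_left ?_ (Int.natCast_nonneg _)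
        exact_mod_cast h3
      push_cast at h2
      linarith
    · have h2 : ({P : Place ℂ E | Meets Q f P}.ncard : ℤ) ≤
          3 * (canDeg ℂ E + {P : Place ℂ E | Meets Q f P}.ncard) := by
        rw [hc2]
        omega
      have h3 := mul_le_mul_of_nonneg_left h2 (Int.natCast_nonneg A)
      push_cast
      linarith

end Pool.Agent.H910.Lp
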