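import Pool.Agent.H910.Lp.Cfm

/-!
An open subset of the affine plane: it belongs to the class, and it has infinitely many pointed maps.
-/

set_option autoImplicit false
set_option linter.unusedSectionVars false
set_option linter.unusedVariables false
set_option linter.overlappingInstances false

open scoped LinearAlgebra.Projectivization

namespace Pool.Agent.H910.Lp

open FF MvPolynomial Pool.Agent.W603.LV
open Pool.Agent.W602.GT
open Pool.Agent.W602.RG (HasValue)
open Pool.Agent.W603.PV (pht pord exists_pord pord_le ge_form ge_pord)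
open Pool.Agent.Y216 (OnVar)
open Pool.Agent.H916
open Pool.Agent.H910.Cf
open Pool.Agent.Q271.RC (Nonconst)
open Pool.Agent.W619.PQ

section cls

variable {E : Type} [Field E] [Algebra ℂ E] {z : Fin 3 → E}

theorem gen_two (h0 : z 0 ≠ 0) (hgen : coords ℂ z = ⊤) :
    IntermediateField.adjoin ℂ (Set.range (![z 1 / z 0, z 2 / z 0] : Fin 2 → E)) = ⊤ := by
  rw [eq_top_iff, ← hgen, Pool.Agent.H916.coords_eq h0, IntermediateField.adjoin_le_iff]
  rintro _ ⟨i, rfl⟩
  fin_cases i
  · change z 0 / z 0 ∈ _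
    rw [div_self h0]
    exact one_mem _
  · exact IntermediateField.subset_adjoin _ _ ⟨0, rfl⟩
  · exact IntermediateField.subset_adjoin _ _ ⟨1, rfl⟩

theorem alg_two (h0 : z 0 ≠ 0) (hgen : coords ℂ z = ⊤) : Algebra.IsAlgebraic
    (IntermediateField.adjoin ℂ (Set.range (![z 1 / z 0, z 2 / z 0] : Fin 2 → E))) E :=
  ⟨fun y => by
    have hy : y ∈ IntermediateField.adjoin ℂ
        (Set.range (![z 1 / z 0, z 2 / z 0] : Fin 2 → E)) := by
      rw [gen_two h0 hgen]
      exact IntermediateField.mem_top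
    exact isAlgebraic_algebraMap (⟨y, hy⟩ : IntermediateField.adjoin ℂ
      (Set.range (![z 1 / z 0, z 2 / z 0] : Fin 2 → E)))⟩

theorem trdeg_le_two (h0 : z 0 ≠ 0) (hgen : coords ℂ z = ⊤) : Algebra.trdeg ℂ E ≤ (2 : ℕ) := by
  have h1 := alg_two h0 hgen
  have h2 := Pool.Agent.W602.GT.alg_adjoin h1
  have h3 := Algebra.IsAlgebraic.trdeg_le_cardinalMk ℂ
    (Set.range (![z 1 / z 0, z 2 / z 0] : Fin 2 → E))
  refine h3.trans ?_
  refine Cardinal.mk_range_le.trans ?_
  simp

/-- **The surface belongs to the class of the fibrations.** -/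
theorem surf_tower (hgen : coords ℂ z = ⊤) (hoff : ∃ i, aeval z (surf i) ≠ 0)
    (ht : Algebra.trdeg ℂ E = (2 : ℕ)) : Tower ℂ z surf := by
  classical
  obtain ⟨h0, h1, h2⟩ := surf_ne hoff
  have hz : z ≠ 0 := fun h => h0 (congrFun h 0)
  have hlgt := surf_lgt hgen hoff ht
  have hram := surf_ram hoff
  obtain ⟨y, hy⟩ : ∃ y : Fin 2 → E, y = ![z 0 ^ 3, z 1 * z 2 * (z 1 - z 2)] := ⟨_, rfl⟩
  rw [← hy] at hram
  have hy0 : y 0 ≠ 0 := by
    rw [hy]
    exact pow_ne_zero _ h0
  -- the function `q` is transcendental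
  have hbasis : IsTranscendenceBasis ℂ (![z 1 / z 0, z 2 / z 0] : Fin 2 → E) :=
    Pool.Agent.R885.basis_of_alg (alg_two h0 hgen) (by rw [ht]; simp)
  have hq : y 1 / y 0 = aeval (![z 1 / z 0, z 2 / z 0] : Fin 2 → E)
      (X 0 * X 1 * (X 0 - X 1) : MvPolynomial (Fin 2) ℂ) := by
    rw [hy]
    simp only [Matrix.cons_val_zero, Matrix.cons_val_one, Matrix.cons_val_fin_one, map_mul,
      map_sub, aeval_X]
    field_simp
  have htr : Transcendental ℂ (y 1 / y 0) := by
    rw [transcendental_iff]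
    intro p hp
    rw [hq, Polynomial.aeval_algHom_apply] at hp
    have h3 := hbasis.1.eq_zero_of_aeval_eq_zero _ hp
    have h4 : ∀ s : ℂ, p.eval s = 0 := by
      intro s
      obtain ⟨t, ht2⟩ := IsAlgClosed.exists_pow_nat_eq (s / 2) (n := 3) (by norm_num)
      have h5 := congrArg (aeval (![2 * t, t] : Fin 2 → ℂ)) h3
      rw [map_zero, ← Polynomial.aeval_algHom_apply] at h5
      have h6 : aeval (![2 * t, t] : Fin 2 → ℂ)
          (X 0 * X 1 * (X 0 - X 1) : MvPolynomial (Fin 2) ℂ) = s := by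
        simp only [Matrix.cons_val_zero, Matrix.cons_val_one, Matrix.cons_val_fin_one, map_mul,
          map_sub, aeval_X]
        linear_combination 2 * ht2
      rw [h6] at h5
      exact h5
    exact Polynomial.funext fun s => by rw [h4, Polynomial.eval_zero]
  refine Tower.step (r := 0) (r' := 1) (B := fun _ => ℂ) (N := fun _ => 0) (y := fun l => l.elim0)
    (κ := fun _ => Unit) (Q' := fun l => l.elim0) (n := fun _ => 0) (z := fun _ => y) hz hgen
    surf_form hoff (fun l => l.elim0) (fun l => l.elim0) (fun l => l.elim0) (fun _ => hram) ?_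
  refine logHyp_of_lgt' hz hgen hoff hlgt ?_
  rw [ht]
  obtain ⟨C, hC⟩ : ∃ C : IntermediateField ℂ E, C = (⨆ l : Fin 0,
    (l.elim0 : ℂ →ₐ[ℂ] E).fieldRange) ⊔ ⨆ _ : Fin 1, coords ℂ y := ⟨_, rfl⟩
  have hmem : y 1 / y 0 ∈ C := by
    rw [hC]
    have h3 : coords ℂ y ≤ (⨆ l : Fin 0, (l.elim0 : ℂ →ₐ[ℂ] E).fieldRange) ⊔
        ⨆ _ : Fin 1, coords ℂ y := le_sup_of_le_right (le_iSup (fun _ : Fin 1 => coords ℂ y) 0)
    exact h3 (IntermediateField.subset_adjoin _ _ ⟨1, 0, hy0, rfl⟩)
  have h1 : (1 : Cardinal) ≤ Algebra.trdeg ℂ C := by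
    rw [Cardinal.one_le_iff_ne_zero, Ne, trdeg_eq_zero_iff]
    intro halg
    have h3 := halg.isAlgebraic (⟨_, hmem⟩ : C)
    exact htr (h3.algHom C.val)
  have h2 : ((2 : ℕ) : Cardinal) = 1 + 1 := by norm_num
  rw [h2]
  rw [hC] at h1
  exact add_le_add_left h1 1

/-- **The surface belongs to the class.** -/
theorem surf_class {K : Type} [Field K] [Algebra ℂ K] (x : Fin 3 → K) : LogClass x surf := by
  intro E _ _ z t hz ht h2
  obtain ⟨-, hgen, hoff⟩ := hz
  have h0 := (surf_ne hoff).1
  have h3 := trdeg_le_two h0 hgen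
  rw [ht] at h3
  have h4 : t ≤ 2 := by exact_mod_cast h3
  obtain rfl : t = 2 := le_antisymm h4 h2
  exact ⟨surf_lgt hgen hoff ht, surf_tower hgen hoff ht⟩

end cls

/-- **Infinitely many pointed maps.** -/
theorem surf_pointed {K : Type} [Field K] [Algebra ℂ K] {x : Fin 3 → K}
    (hx : ∀ H : MvPolynomial (Fin 3) ℂ, IsForm H → val x H = 0 → H = 0) :
    ¬ PointedFiniteOff x surf 1 := by
  classical
  intro hfin
  have hff : IsFF ℂ (RatFunc ℂ) := Pool.Agent.Y216.isFF_ratFunc
  obtain ⟨s, hs⟩ : ∃ s : RatFunc ℂ, s = RatFunc.X := ⟨_, rfl⟩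
  have htop : IntermediateField.adjoin ℂ {s} = ⊤ := by
    rw [hs]
    exact RatFunc.adjoin_X
  have htr := transcendental_of_top htop
  have hne : ∀ p : Polynomial ℂ, p ≠ 0 → Polynomial.aeval s p ≠ 0 :=
    fun p hp h => hp ((transcendental_iff.1 htr) p h)
  have hs0 : s ≠ 0 := by
    rw [hs]
    exact RatFunc.X_ne_zero
  have hd1 : s ^ 3 - 1 ≠ 0 := by
    have := hne (Polynomial.X ^ 3 - 1) (by
      intro h
      have := congrArg (Polynomial.eval 0) h
      simp at this)
    simpa using this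
  have hd2 : s ^ 3 - 2 ≠ 0 := by
    have := hne (Polynomial.X ^ 3 - Polynomial.C 2) (by
      intro h
      have := congrArg (Polynomial.eval 0) h
      simp at this)
    rwa [map_sub, map_pow, Polynomial.aeval_X, Polynomial.aeval_C, map_ofNat] at this
  obtain ⟨c, hc, hc'⟩ := zero_unique (k := ℂ) htop
  -- values at a zero of `s`
  have hval : ∀ p : Polynomial ℂ, p.eval 0 ≠ 0 → Polynomial.aeval s p ≠ 0 ∧
      c.ord (Polynomial.aeval s p) = 0 := by
    intro p hp
    have h1 : Ge c 1 (Polynomial.aeval s p - algebraMap ℂ _ (p.eval 0)) := by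
      obtain ⟨r, hr⟩ := Polynomial.dvd_iff_isRoot.2 (show (p - Polynomial.C (p.eval 0)).IsRoot 0 by
        simp)
      have e : Polynomial.aeval s p - algebraMap ℂ _ (p.eval 0) =
          Polynomial.aeval s (p - Polynomial.C (p.eval 0)) := by
        rw [map_sub, Polynomial.aeval_C]
      rw [e, hr, map_mul, map_sub, Polynomial.aeval_X, Polynomial.aeval_C, map_zero, sub_zero]
      have h2 : Ge c 1 s := Or.inr hc.ge
      have := h2.mul (ge_aeval (P := c) (t := s) (Or.inr (by rw [hc]; norm_num)) r)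
      rwa [add_zero] at this
    have h0 : Polynomial.aeval s p ≠ 0 := by
      intro h0
      rw [h0, zero_sub] at h1
      rcases h1 with h1 | h1
      · rw [neg_eq_zero, map_eq_zero] at h1
        exact hp h1
      · rw [c.ord_neg, c.ord_const hp] at h1
        omega
    refine ⟨h0, ?_⟩
    rcases ge_aeval (P := c) (t := s) (Or.inr (by rw [hc]; norm_num)) p with h2 | h2
    · exact absurd h2 h0
    · by_contra hcon
      have h3 : Ge c 1 (Polynomial.aeval s p) := Or.inr (by omega)
      have h4 := h3.sub h1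
      rw [sub_sub_cancel] at h4
      rcases h4 with h4 | h4
      · rw [map_eq_zero] at h4
        exact hp h4
      · rw [c.ord_const hp] at h4
        omega
  obtain ⟨g, hg⟩ : ∃ g : RatFunc ℂ, g = (s ^ 3 - 1) * (s ^ 3 - 2) := ⟨_, rfl⟩
  have hg0 : g ≠ 0 := by
    rw [hg]
    exact mul_ne_zero hd1 hd2
  have hfinS : {P : Place ℂ (RatFunc ℂ) | P.ord g ≠ 0}.Finite := by
    obtain ⟨T, hT⟩ := exists_supp (k := ℂ) (Finset.univ : Finset Unit) fun _ => g
    exact T.finite_toSet.subset fun P hP => hT () (Finset.mem_univ _) P hP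
  obtain ⟨S, hS⟩ : ∃ S : Finset (Place ℂ (RatFunc ℂ)), ∀ P, P ∈ S ↔ P.ord g ≠ 0 :=
    ⟨hfinS.toFinset, fun P => by rw [Set.Finite.mem_toFinset]; rfl⟩
  have hcg1 := hval (Polynomial.X ^ 3 - 1) (by simp)
  have hcg2 := hval (Polynomial.X ^ 3 - Polynomial.C 2) (by simp)
  simp only [map_sub, map_pow, Polynomial.aeval_X, map_one, Polynomial.aeval_C, map_ofNat]
    at hcg1 hcg2
  have hcS : c ∉ S := by
    rw [hS, not_not, hg, c.ord_mul hd1 hd2, hcg1.2, hcg2.2, add_zero]
  -- the maps
  have hpt : ∀ n : ℕ, ∃ b : ℂ, ((n : ℂ) + 2) * ((n : ℂ) + 1) * b ^ 3 = 1 := by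
    intro n
    have h : ((n : ℂ) + 2) * ((n : ℂ) + 1) ≠ 0 := by
      have h1 : ((n : ℂ) + 2) ≠ 0 := by exact_mod_cast (by omega : n + 2 ≠ 0)
      have h2 : ((n : ℂ) + 1) ≠ 0 := by exact_mod_cast (by omega : n + 1 ≠ 0)
      exact mul_ne_zero h1 h2
    obtain ⟨b, hb⟩ := IsAlgClosed.exists_pow_nat_eq (((n : ℂ) + 2) * ((n : ℂ) + 1))⁻¹ (n := 3)
      (by norm_num)
    exact ⟨b, by rw [hb, mul_inv_cancel₀ h]⟩
  choose b hb using hpt
  have hb0 : ∀ n, b n ≠ 0 := by
    intro n h
    have := hb n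
    rw [h] at this
    simp at this
  let F : ℕ → Fin 3 → RatFunc ℂ := fun n =>
    ![1, algebraMap ℂ _ ((n + 2) * b n) * s, algebraMap ℂ _ (b n) * s]
  have hF0 : ∀ n, F n 0 = 1 := fun n => rfl
  have hF1 : ∀ n, F n 1 = algebraMap ℂ _ ((n + 2) * b n) * s := fun n => rfl
  have hF2 : ∀ n, F n 2 = algebraMap ℂ _ (b n) * s := fun n => rfl
  have hFne : ∀ n, F n ≠ 0 := by
    intro n h
    have := congrFun h 0
    rw [hF0] at this
    exact one_ne_zero this
  have hFq : ∀ n, F n 1 * F n 2 * (F n 1 - F n 2) = s ^ 3 := by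
    intro n
    rw [hF1, hF2]
    have h1 := congrArg (algebraMap ℂ (RatFunc ℂ)) (hb n)
    simp only [map_mul, map_add, map_pow, map_one, map_ofNat, map_natCast] at h1 ⊢
    linear_combination s ^ 3 * h1
  have hFl : ∀ n, F n 1 + F n 2 = algebraMap ℂ _ ((n + 3) * b n) * s := by
    intro n
    rw [hF1, hF2]
    simp only [map_mul, map_add, map_ofNat, map_natCast]
    ring
  have hv0 : ∀ n, aeval (F n) (surf 0) = (s ^ 3 - 1) * (s ^ 3 - 2) * s ^ 3 := by
    intro n
    rw [surf0_val, hFq, hF0]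
    ring
  have hv1 : ∀ n, aeval (F n) (surf 1) = (s ^ 3 - 1) * (s ^ 3 - 2) *
      ((algebraMap ℂ _ ((n + 3) * b n) * s - 1) * (algebraMap ℂ _ ((n + 3) * b n) * s - 2)) := by
    intro n
    rw [surf1_val, hFq, hF0, hFl]
    ring
  have hmeets : ∀ n P, Meets surf (F n) P → P ∈ S := by
    intro n P hM
    rw [hS]
    intro hPg
    have h1 := hM 0
    rw [hv0] at h1
    have hsge : 0 ≤ P.ord s := by
      by_contra hcon
      have hn3 : P.ord (s ^ 3) < 0 := by
        rw [P.ord_pow]
        push_cast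
        omega
      have hc1 : ∀ r : ℂ, s ^ 3 - algebraMap ℂ _ r ≠ 0 → P.ord (s ^ 3 - algebraMap ℂ _ r) < 0 := by
        intro r hr
        by_contra hcon2
        have h2 : Ge P 0 (s ^ 3 - algebraMap ℂ _ r) := Or.inr (by omega)
        have h3 := h2.add (Ge.const r)
        rw [sub_add_cancel] at h3
        rcases h3 with h3 | h3
        · exact pow_ne_zero _ hs0 h3
        · omega
      have e1 := hc1 1 (by rw [map_one]; exact hd1)
      have e2 := hc1 2 (by rw [map_ofNat]; exact hd2)
      rw [map_one] at e1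
      rw [map_ofNat] at e2
      rw [hg, P.ord_mul hd1 hd2] at hPg
      omega
    have hp0 : pord P (F n) = 0 := by
      apply le_antisymm
      · have h10 : F n 0 ≠ 0 := by rw [hF0]; exact one_ne_zero
        have := pord_le P (f := F n) h10
        rwa [hF0, P.ord_one] at this
      · obtain ⟨l, hl, hlo⟩ := exists_pord P (f := F n) ⟨0, by rw [hF0]; exact one_ne_zero⟩
        rw [← hlo]
        have hsG : Ge P 0 s := Or.inr hsge
        have : Ge P 0 (F n l) := by
          fin_cases l
          · change Ge P 0 (F n 0)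
            rw [hF0]
            exact Or.inr (by rw [P.ord_one])
          · change Ge P 0 (F n 1)
            rw [hF1]
            exact ge_const_mul hsG _
          · change Ge P 0 (F n 2)
            rw [hF2]
            exact ge_const_mul hsG _
        exact this.resolve_left hl
    rw [hp0, mul_zero] at h1
    rw [← hg] at h1
    have h2 := h1.resolve_left (mul_ne_zero hg0 (pow_ne_zero _ hs0))
    rw [P.ord_mul hg0 (pow_ne_zero _ hs0), hPg, P.ord_pow] at h2
    have hspos : 0 < P.ord s := by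
      by_contra hcon
      have : P.ord s = 0 := by omega
      rw [this] at h2
      simp at h2
    have hPc := hc' P hspos
    subst hPc
    have h3 := hM 1
    rw [hv1, hp0, mul_zero, ← hg] at h3
    obtain ⟨w, hw⟩ : ∃ w : ℂ, w = (n + 3) * b n := ⟨_, rfl⟩
    rw [← hw] at h3
    have hw1 := hval (Polynomial.C w * Polynomial.X - 1) (by simp)
    have hw2 := hval (Polynomial.C w * Polynomial.X - Polynomial.C 2) (by simp)
    simp only [map_sub, map_mul, Polynomial.aeval_X, map_one, Polynomial.aeval_C, map_ofNat]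
      at hw1 hw2
    have h4 := h3.resolve_left (mul_ne_zero hg0 (mul_ne_zero hw1.1 hw2.1))
    rw [P.ord_mul hg0 (mul_ne_zero hw1.1 hw2.1), P.ord_mul hw1.1 hw2.1, hPg, hw1.2, hw2.2] at h4
    omega
  refine (Set.infinite_of_injective_forall_mem (f := fun n : ℕ => Projectivization.mk (RatFunc ℂ)
    (F n) (hFne n)) ?_ ?_) (hfin (RatFunc ℂ) S c hcS ![1, 0, 0] (fun h => one_ne_zero
      (congrFun h 0)) ⟨1, ?_⟩ (by
      rw [map_one]
      exact one_ne_zero))
  · intro n m hnm
    rw [Projectivization.mk_eq_mk_iff'] at hnm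
    obtain ⟨r, hr⟩ := hnm
    have h0 := congrFun hr 0
    have h1 := congrFun hr 1
    have h2 := congrFun hr 2
    simp only [Pi.smul_apply, smul_eq_mul, hF0, hF1, hF2, mul_one] at h0 h1 h2
    rw [h0, one_mul] at h1 h2
    have h3 := (algebraMap ℂ (RatFunc ℂ)).injective (mul_right_cancel₀ hs0 h1)
    have h4 := (algebraMap ℂ (RatFunc ℂ)).injective (mul_right_cancel₀ hs0 h2)
    rw [h4] at h3
    have h5 := mul_right_cancel₀ (hb0 n) h3
    have h6 : (m : ℂ) = n := add_right_cancel h5
    exact_mod_cast h6.symm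
  · intro n
    refine ⟨F n, hFne n, fun H hH hHx => ?_, ⟨0, ?_⟩, hmeets n, fun i j => ?_, rfl⟩
    · rw [hx H hH hHx]
      exact map_zero _
    · rw [hv0, ← hg]
      exact mul_ne_zero hg0 (pow_ne_zero _ hs0)
    · have hp0 : pord c (F n) ≤ 0 := by
        have h10 : F n 0 ≠ 0 := by rw [hF0]; exact one_ne_zero
        have := pord_le c (f := F n) h10
        rwa [hF0, c.ord_one] at this
      have hsG : Ge c 1 s := Or.inr hc.ge
      have hall : Ge c 1 (algebraMap ℂ _ ((![1, 0, 0] : Fin 3 → ℂ) i) * F n j -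
          algebraMap ℂ _ ((![1, 0, 0] : Fin 3 → ℂ) j) * F n i) := by
        have hc1 : ∀ w : ℂ, Ge c 1 (algebraMap ℂ _ w * s) := by
          intro w
          have := (Ge.const (P := c) w).mul hsG
          rwa [zero_add] at this
        have e1 := hc1 ((n + 2) * b n)
        have e2 := hc1 (b n)
        rw [← hF1] at e1
        rw [← hF2] at e2
        fin_cases i <;> fin_cases j <;>
          simp only [Fin.zero_eta, Fin.mk_one, Fin.reduceFinMk, Matrix.cons_val_zero,
            Matrix.cons_val_one, Matrix.cons_val, map_one, map_zero, one_mul, zero_mul, sub_zero,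
            zero_sub, hF0, sub_self, neg_zero] <;>
          first
            | exact Or.inl rfl
            | exact e1
            | exact e2
            | exact e1.neg
            | exact e2.neg
      rcases hall with h | h
      · exact Or.inl h
      · right
        omega
  · have h1 : eval (![1, 0, 0] : Fin 3 → ℂ) (surf 1) = _ :=
      (ae_eval _ (surf 1)).symm.trans (surf1_val _)
    rw [h1]
    simp only [Matrix.cons_val_zero, Matrix.cons_val_one, Matrix.cons_val]
    norm_num

end Pool.Agent.H910.Lp
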