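import Pool.Agent.H910.Cf.Pic
import Pool.Agent.H910.Cf.Cls
import Pool.Graph.R_pool_sql_team_seeded_3997aac3.Q271.RC.Defs

/-!
Definitions: quasi-projective varieties over the complex numbers.
-/

set_option autoImplicit false
set_option linter.overlappingInstances false

namespace Pool.Agent.H910.Lp

open FF
open Pool.Agent.W602.GT (val IsForm)
open Pool.Agent.Y216 (OnVar)
open Pool.Agent.W603.LV (canDeg)
open Pool.Agent.W603.PV (pht)
open Pool.Agent.Q271.RC (Nonconst)
open Pool.Agent.H916 (Meets)
open Pool.Agent.H910.Cf (BrodyOff)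

/-- `deg f ≤ A (2 g - 2 + N)` for all nonconstant maps `f` from smooth projective curves of genus `g`
to `X`, with the image not contained in `D` or in `G = 0`, where `N` is the number of the points of
`f ⁻¹ (D)`. Here `X` is the projective variety with the generic point `x`, and `D` is given by the
forms `Q i`. -/
def StrongBound {M : ℕ} {K : Type} [Field K] [Algebra ℂ K] (x : Fin (M + 1) → K) {ι : Type}
    (Q : ι → MvPolynomial (Fin (M + 1)) ℂ) (G : MvPolynomial (Fin (M + 1)) ℂ) (A : ℕ) : Prop :=
  ∀ (E : Type) [Field E] [Algebra ℂ E] [IsFF ℂ E] (f : Fin (M + 1) → E), OnVar ℂ x f →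
    Nonconst f → val f G ≠ 0 → (∃ i, MvPolynomial.aeval f (Q i) ≠ 0) →
      pht ℂ f ≤ A * (canDeg ℂ E + {P : Place ℂ E | Meets Q f P}.ncard)

/-- There is a proper closed subset `G = 0` of `X` which contains all nonconstant entire curves in
`X ∖ D`, such that `deg f ≤ A (2 g - 2 + N)` for all nonconstant maps `f` from curves of genus `g` to
`X` whose image is not contained in `D` or in `G = 0`, with `N` points over `D`, for some `A`. In
particular all curves in `X ∖ D` not contained in `G = 0` are hyperbolic. -/
def HypOff {M : ℕ} {K : Type} [Field K] [Algebra ℂ K] (x : Fin (M + 1) → K) {ι : Type}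
    (Q : ι → MvPolynomial (Fin (M + 1)) ℂ) : Prop :=
  ∃ G : MvPolynomial (Fin (M + 1)) ℂ, IsForm G ∧ val x G ≠ 0 ∧ BrodyOff x Q G ∧
    ∃ A : ℕ, StrongBound x Q G A

end Pool.Agent.H910.Lp
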