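import Pool.Agent.H910.Lp.Pmap
import Pool.Agent.H910.Lp.Adf
import Pool.Agent.H910.Cf.Stm

/-!
Entire curves and linear bounds: ascent.
-/

set_option autoImplicit false
set_option linter.unusedSectionVars false
set_option linter.unusedVariables false
set_option linter.overlappingInstances false

open Filter Topology Set Metric

namespace Pool.Agent.H910.Lp

open FF
open Pool.Agent.W602.GT
open Pool.Agent.Y216 (OnVar)
open Pool.Agent.W603.LV (canDeg)
open Pool.Agent.W603.PV (pht)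
open Pool.Agent.Q103.SF
open Pool.Agent.Q271.RC (Nonconst IsGeneric)
open Pool.Agent.H916 (InClosure Meets RMap LinearOff LogHypFibres FibreField cuspFun PairMap
  val_hom_eq linear_homL coords_map logHyp_of_lgt')
open Pool.Agent.H910.Cf

variable {M : ℕ} {K : Type} [Field K] [Algebra ℂ K] {x : Fin (M + 1) → K} {ι : Type}
  {Q : ι → MvPolynomial (Fin (M + 1)) ℂ}

theorem HypOff.linear (h : HypOff x Q) : LinearOff ℂ x Q := by
  obtain ⟨G, hG, hGx, -, A, hA⟩ := h
  refine ⟨G, hG, hGx, A, fun E _ _ _ f hf hfG hoff => ?_⟩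
  by_cases hn : Nonconst f
  · refine (hA E f hf hn hfG hoff).trans (mul_le_mul_of_nonneg_left ?_ (Int.natCast_nonneg _))
    have := le_max_left (canDeg ℂ E) 0
    linarith
  · have h1 : pht ℂ f ≤ 0 := by
      have hc : ∀ i j, f j ≠ 0 → ∃ c : ℂ, f i / f j = algebraMap ℂ E c := by
        intro i j hj
        by_contra hcon
        apply hn
        refine ⟨i, j, hj, fun halg => hcon ?_⟩
        have h2 := IsAlgClosed.degree_eq_one_of_irreducible ℂ (minpoly.irreducible
          halg.isIntegral)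
        obtain ⟨c, hc⟩ := minpoly.mem_range_of_degree_eq_one ℂ _ h2
        exact ⟨c, hc.symm⟩
      obtain ⟨j, hj⟩ := hf.1
      choose c hc using fun i => hc i j hj
      have h3 : f = fun i => f j * algebraMap ℂ E (c i) := by
        funext i
        rw [← hc i]
        field_simp
      have h4 : pht ℂ (fun i => f j * algebraMap ℂ E (c i)) =
          pht ℂ fun i => algebraMap ℂ E (c i) := by
        refine Pool.Agent.W603.PV.pht_scale ⟨j, fun h0 => hj ?_⟩ hj
        rw [h3]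
        change f j * algebraMap ℂ E (c j) = 0
        rw [h0, mul_zero]
      rw [h3, h4]
      have h5 : ∀ P : Place ℂ E, Pool.Agent.W603.PV.pord P (fun i => algebraMap ℂ E (c i)) = 0 := by
        intro P
        have hcj : algebraMap ℂ E (c j) ≠ 0 := by
          rw [← hc j, div_self hj]
          exact one_ne_zero
        obtain ⟨l, hl, hlo⟩ := Pool.Agent.W603.PV.exists_pord P (f := fun i =>
          algebraMap ℂ E (c i)) ⟨j, hcj⟩
        rw [← hlo]
        exact P.ord_const ((map_ne_zero _).1 hl)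
      unfold Pool.Agent.W603.PV.pht
      rw [finsum_congr h5]
      simp
    refine h1.trans (mul_nonneg (Int.natCast_nonneg _) (add_nonneg (le_max_right _ _)
      (Int.natCast_nonneg _)))

/-- **Ascent.** -/
theorem ascend2 [Finite ι] (hx : x ≠ 0) (hgen : coords ℂ x = ⊤) (hQ : ∀ i, IsForm (Q i))
    (hQx : ∃ i, MvPolynomial.aeval x (Q i) ≠ 0) {r r' : ℕ} {B : Fin r → Type}
    [iB : ∀ l, Field (B l)] [iA : ∀ l, Algebra ℂ (B l)] {N : Fin r → ℕ}
    {y : ∀ l, Fin (N l + 1) → B l} {κ : Fin r → Type}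
    {Q' : ∀ l, κ l → MvPolynomial (Fin (N l + 1)) ℂ} {n : Fin r' → ℕ}
    {z : ∀ l, Fin (n l + 2) → K}
    (hY : ∀ l, y l ≠ 0 ∧ coords ℂ (y l) = ⊤ ∧ Finite (κ l) ∧ (∀ c, IsForm (Q' l c)) ∧
        ∃ c, MvPolynomial.aeval (y l) (Q' l c) ≠ 0) (φ : ∀ l, B l →ₐ[ℂ] K)
    (hmap : ∀ l, PairMap x Q (fun j => φ l (y l j)) (Q' l))
    (hz : ∀ l, Ram ℂ x Q (z l))
    (h : LogHypFibres ((⨆ l, (φ l).fieldRange) ⊔ ⨆ l, coords ℂ (z l)).toSubfield
        (cuspFun x Q)) (hV : ∀ l, HypOff (y l) (Q' l)) : HypOff x Q := by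
  classical
  have hy : ∀ l, (fun i => φ l (y l i)) ≠ 0 := by
    intro l h0
    apply (hY l).1
    funext i
    have h1 := congrFun h0 i
    exact (φ l).injective (by rw [Pi.zero_apply, map_zero]; exact h1)
  have hB1 : ∀ l, HB ℂ x Q fun i => φ l (y l i) := by
    intro l
    have hκ := (hY l).2.2.1
    obtain ⟨c, hc⟩ := (hY l).2.2.2.2
    exact PairMap.hb hx hgen (hy l) hQ (hY l).2.2.2.1
      ⟨c, fun h0 => hc ((val_hom_eq (φ l) (y l) (Q' l c)).1 h0)⟩ (hmap l)
      (linear_homL (φ l) (hV l).linear)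
  have hB2 : ∀ l, HB ℂ x Q (z l) := fun l => (hz l).hb hx hgen
  have hC1 : ∀ l, ConstOn x Q fun i => φ l (y l i) := by
    intro l
    have hκ := (hY l).2.2.1
    obtain ⟨G', hG', hGy', hBr, -⟩ := hV l
    refine pair_constOn (hmap l) hQ (hY l).2.2.2.1 hG' ?_ (brody_hom (φ l) hBr)
    rw [val_hom0]
    exact (map_ne_zero _).2 hGy'
  have hzn : ∀ l, z l ≠ 0 := fun l => (hz l).ne
  -- the two families together
  let NN : Fin r ⊕ Fin r' → ℕ := Sum.elim N fun l => n l + 1
  let YY : ∀ s : Fin r ⊕ Fin r', Fin (NN s + 1) → K :=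
    fun s => Sum.rec (motive := fun s => Fin (NN s + 1) → K) (fun l i => φ l (y l i))
      (fun l => z l) s
  let e : Fin (Fintype.card (Fin r ⊕ Fin r')) ≃ Fin r ⊕ Fin r' := (Fintype.equivFin _).symm
  have hYY : ∀ s, YY s ≠ 0 ∧ HB ℂ x Q (YY s) ∧ ConstOn x Q (YY s) := by
    rintro (l | l)
    · exact ⟨hy l, hB1 l, hC1 l⟩
    · exact ⟨hzn l, hB2 l, ram_constOn (hz l)⟩
  have hsup : (⨆ s, coords ℂ (YY (e s))) = (⨆ l, (φ l).fieldRange) ⊔ ⨆ l, coords ℂ (z l) := by
    rw [Equiv.iSup_comp (g := fun s => coords ℂ (YY s)) e, iSup_sum]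
    congr 1
    congr 1
    funext l
    change coords ℂ (fun i => φ l (y l i)) = _
    rw [coords_map, (hY l).2.1, ← AlgHom.fieldRange_eq_map]
  exact brody_fib (y := fun s => YY (e s)) hx hgen hQ hQx (fun s => (hYY (e s)).1)
    (by rw [hsup]; exact h) (fun s => (hYY (e s)).2.1) fun s => (hYY (e s)).2.2

/-- **All members of the class.** -/
theorem tower_hypOff {K : Type} [Field K] [Algebra ℂ K] {M : ℕ} {x : Fin (M + 1) → K}
    {ι : Type} {Q : ι → MvPolynomial (Fin (M + 1)) ℂ} (h : Tower ℂ x Q) : HypOff x Q := by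
  induction h with
  | @step K _ _ M x ι _ Q r r' B iB iA N y κ Q' n z hx hgen hQ hQx hY φ hmap hz h ih =>
    exact ascend2 hx hgen hQ hQx (fun l => (hY l).facts) φ hmap hz h ih

end Pool.Agent.H910.Lp
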