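import Pool.Graph.R_seed8.TH443.J4280
import Pool.Graph.R_seed8.TH443.J4281
import Pool.Graph.R_seed8.TH541.BB.One

/-!
Bend and break for maps to affine varieties: infinitely many pointed maps from a curve without
finitely many points, of bounded degree, give a polynomial curve through the point.
-/

set_option autoImplicit false
set_option linter.unusedSectionVars false
set_option linter.unusedVariables false
set_option linter.overlappingInstances false

namespace Pool.Agent.H910.Lp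

open FF Pool.Agent.W603.LV
open Pool.Agent.TH152.BB (S_SPEC S_COMP)

/-- weights -/
theorem exists_weights (S : Set (ℕ × ℤ)) (C : ℕ) (hC : ∀ p ∈ S, -(C : ℤ) ≤ p.2)
    (hi : ∀ p ∈ S, 1 ≤ p.1) (hneg : ∃ p ∈ S, p.2 < 0) :
    ∃ a b : ℕ, 0 < a ∧ 0 < b ∧ (∀ p ∈ S, 0 ≤ (a : ℤ) * p.1 + b * p.2) ∧
      ∃ p ∈ S, (a : ℤ) * p.1 + b * p.2 = 0 := by
  classical
  obtain ⟨p0, hp0, hp0n⟩ := hneg
  have hp0i : (1 : ℤ) ≤ p0.1 := by exact_mod_cast hi p0 hp0
  let S' : Set (ℕ × ℤ) := {p | p ∈ S ∧ p.2 < 0 ∧ p.2 * p0.1 ≤ p0.2 * p.1}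
  have hfin : S'.Finite := by
    refine Set.Finite.subset ((Set.finite_Iic (C * p0.1)).prod
      (Set.finite_Icc (-(C : ℤ)) 0)) ?_
    rintro ⟨i, γ⟩ ⟨h1, h2, h3⟩
    have h4 := hC _ h1
    refine ⟨?_, h4, h2.le⟩
    rw [Set.mem_Iic]
    have h5 : (i : ℤ) ≤ C * p0.1 := by nlinarith
    exact_mod_cast h5
  obtain ⟨p, hp, hmax⟩ := Set.exists_max_image S' (fun p => (-p.2 : ℚ) / p.1) hfin
    ⟨p0, hp0, hp0n, le_rfl⟩
  obtain ⟨hpS, hpn, hp3⟩ := hp
  have hpi : 1 ≤ p.1 := hi p hpS
  have hpi' : (0 : ℚ) < p.1 := by exact_mod_cast hpi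
  have ha : ((-p.2).toNat : ℤ) = -p.2 := Int.toNat_of_nonneg (by omega)
  refine ⟨(-p.2).toNat, p.1, by omega, by omega, fun q hq => ?_, p, hpS, by rw [ha]; ring⟩
  rw [ha]
  have hqi : (1 : ℤ) ≤ q.1 := by exact_mod_cast hi q hq
  have hqi' : (0 : ℚ) < q.1 := by exact_mod_cast hi q hq
  by_cases h1 : q.2 < 0
  · by_cases h2 : q.2 * p0.1 ≤ p0.2 * q.1
    · have h3 := hmax q ⟨hq, h1, h2⟩
      rw [div_le_div_iff₀ hqi' hpi'] at h3
      have h4 : -q.2 * (p.1 : ℤ) ≤ -p.2 * q.1 := by exact_mod_cast h3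
      linarith
    · rw [not_le] at h2
      nlinarith
  · have h5 : (0 : ℤ) ≤ p.1 * q.2 := mul_nonneg (Int.natCast_nonneg _) (by omega)
    nlinarith

open Pool.Agent.TH541.BB (ev ev_apply ev_algebraMap gA map_ev_gA ext_A ext_PA oP oP_coeff_nat
  oP_coeff_neg oP_inj exists_oP coeff_zero)

section embed

variable {k : Type} [Field k]

/-- the substitution `s ↦ s ^ b` -/
noncomputable def emb (b : ℕ) (hb : 0 < b) : LaurentSeries k →+* LaurentSeries k :=
  HahnSeries.embDomainRingHom (AddMonoidHom.mulLeft (b : ℤ))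
    (fun x y h => by
      have hb' : (b : ℤ) ≠ 0 := by exact_mod_cast hb.ne'
      exact mul_left_cancel₀ hb' h)
    fun x y => by
      have hb' : (0 : ℤ) < b := by exact_mod_cast hb
      exact ⟨fun h => le_of_mul_le_mul_left h hb', fun h => mul_le_mul_of_nonneg_left h hb'.le⟩

theorem emb_C (b : ℕ) (hb : 0 < b) (a : k) :
    emb b hb (HahnSeries.C a : LaurentSeries k) = HahnSeries.C a :=
  HahnSeries.embDomainRingHom_C

theorem emb_coeff (b : ℕ) (hb : 0 < b) (x : LaurentSeries k) (γ : ℤ) :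
    (emb b hb x).coeff (b * γ) = x.coeff γ :=
  HahnSeries.embDomain_mk_coeff _ _

theorem emb_ne {b : ℕ} {hb : 0 < b} {x : LaurentSeries k} {δ : ℤ}
    (h : (emb b hb x).coeff δ ≠ 0) : ∃ γ, δ = b * γ ∧ x.coeff γ ≠ 0 := by
  by_contra hcon
  push Not at hcon
  apply h
  refine HahnSeries.embDomain_notin_image_support ?_
  rintro ⟨γ, hγ, hγ2⟩
  exact hγ (hcon γ hγ2.symm)

end embed

variable {k L : Type} [Field k] [IsAlgClosed k] [CharZero k] [Field L] [Algebra k L] [IsFF k L]

/-- **Bend and break for affine varieties.** -/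
theorem poly_curve (c : Place k L) (V : Submodule k L) [FiniteDimensional k V]
    (hV : ∀ v ∈ V, Ge c 1 v) {N : ℕ} (h : ℕ → Fin N → L) (hinj : Function.Injective h)
    (hhV : ∀ m j, h m j ∈ V) : ∃ P : Fin N → Polynomial k, (∀ j, (P j).coeff 0 = 0) ∧
      (∃ j, P j ≠ 0) ∧ ∀ F : MvPolynomial (Fin N) k,
        (∀ m, MvPolynomial.aeval (h m) F = 0) → MvPolynomial.aeval P F = 0 := by
  classical
  obtain ⟨φ, hφC, hφo⟩ := Pool.Agent.TH443.J4280.comp_all k L c
  -- the basis
  obtain ⟨d, bs⟩ : ∃ d : ℕ, Nonempty (Module.Basis (Fin d) k V) :=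
    ⟨_, ⟨Module.finBasis k V⟩⟩
  obtain ⟨bs⟩ := bs
  obtain ⟨e, he⟩ : ∃ e : Fin d → L, e = fun l => (bs l : L) := ⟨_, rfl⟩
  have heV : ∀ l, e l ∈ V := fun l => by rw [he]; exact (bs l).2
  have hE : ∀ l, ∃ p : PowerSeries k, oP k p = φ (e l) := fun l =>
    exists_oP fun i hi => coeff_zero hφo (hV _ (heV l)) (by omega)
  choose E hE using hE
  have hE0 : ∀ l, PowerSeries.coeff 0 (E l) = 0 := fun l => by
    rw [← oP_coeff_nat, hE]
    exact coeff_zero hφo (hV _ (heV l)) (by norm_num)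
  obtain ⟨bf, hbf⟩ : ∃ bf : Fin N → Fin d → (ℕ → k),
    bf = fun j l m => bs.repr ⟨h m j, hhV m j⟩ l := ⟨_, rfl⟩
  have hsum : ∀ m j, ∑ l, algebraMap k L (bf j l m) * e l = h m j := by
    intro m j
    have a1 := bs.sum_repr ⟨h m j, hhV m j⟩
    have a2 := congrArg (fun v : V => (v : L)) a1
    simp only [Submodule.coe_sum, Submodule.coe_smul, Algebra.smul_def] at a2
    rw [hbf, he]
    exact a2
  have hind : ∀ g : Fin d → k, ∑ l, algebraMap k L (g l) * e l = 0 → ∀ l, g l = 0 := by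
    intro g hg
    have h1 : ∑ l, g l • bs l = 0 := by
      apply Subtype.ext
      rw [Submodule.coe_sum, Submodule.coe_zero, ← hg]
      refine Finset.sum_congr rfl fun l _ => ?_
      rw [Submodule.coe_smul, Algebra.smul_def, he]
    exact Fintype.linearIndependent_iff.1 bs.linearIndependent g h1
  obtain ⟨A, hA⟩ : ∃ A : Subalgebra k (ℕ → k),
    A = Algebra.adjoin k (Set.range fun p : Fin N × Fin d => bf p.1 p.2) := ⟨_, rfl⟩
  have hAfg : A.FG := by
    refine ⟨(Set.finite_range fun p : Fin N × Fin d => bf p.1 p.2).toFinset, ?_⟩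
    rw [Set.Finite.coe_toFinset, hA]
  have hbm : ∀ j l, bf j l ∈ A := fun j l => by
    rw [hA]
    exact Algebra.subset_adjoin ⟨(j, l), rfl⟩
  obtain ⟨bA, hbA⟩ : ∃ bA : Fin N → Fin d → A, ∀ j l, (bA j l : ℕ → k) = bf j l :=
    ⟨fun j l => ⟨bf j l, hbm j l⟩, fun _ _ => rfl⟩
  have key : ∀ m j, oP k (PowerSeries.map (ev A m) (gA (bA j) E)) = φ (h m j) := by
    intro m j
    rw [map_ev_gA, map_sum, ← hsum m j, map_sum]
    refine Finset.sum_congr rfl fun l _ => ?_
    rw [map_mul, map_mul, hE l, hφC, hbA]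
    congr 1
    exact HahnSeries.ofPowerSeries_C _
  obtain ⟨H, hH⟩ : ∃ H : Fin N → PowerSeries A, H = fun j => gA (bA j) E := ⟨_, rfl⟩
  -- the relations
  have hrel : ∀ F : MvPolynomial (Fin N) k, (∀ m, MvPolynomial.aeval (h m) F = 0) →
      MvPolynomial.eval₂ (PowerSeries.C.comp (algebraMap k A)) H F = 0 := by
    intro F hF
    refine ext_PA fun m => ?_
    rw [map_zero]
    apply oP_inj
    rw [map_zero, MvPolynomial.eval₂_comp_left, MvPolynomial.eval₂_comp_left]
    have h1 := congrArg φ (hF m)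
    rw [map_zero, MvPolynomial.aeval_def, MvPolynomial.eval₂_comp_left] at h1
    rw [← h1]
    congr 1
    · ext a
      change (oP k (PowerSeries.map (ev A m) (PowerSeries.C (algebraMap k A a)))).coeff _ =
        (φ (algebraMap k L a)).coeff _
      rw [PowerSeries.map_C, ev_algebraMap, hφC]
      congr 1
      exact HahnSeries.ofPowerSeries_C _
    · funext j
      change oP k (PowerSeries.map (ev A m) (H j)) = φ (h m j)
      rw [hH]
      exact key m j
  -- an infinite coefficient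
  obtain ⟨j0, l0, hinf⟩ : ∃ j l, (Set.range (bf j l)).Infinite := by
    by_contra hcon
    push Not at hcon
    have hfin : (Set.pi Set.univ fun p : Fin N × Fin d => Set.range (bf p.1 p.2)).Finite :=
      Set.Finite.pi fun p => hcon p.1 p.2
    have h1 : Function.Injective fun (m : ℕ) (p : Fin N × Fin d) => bf p.1 p.2 m := by
      intro m m' hm
      apply hinj
      funext j
      rw [← hsum m j, ← hsum m' j]
      refine Finset.sum_congr rfl fun l _ => ?_
      have := congrFun hm (j, l)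
      simp only at this
      rw [this]
    refine Set.infinite_range_of_injective h1 (hfin.subset ?_)
    rintro _ ⟨m, rfl⟩ p _
    exact ⟨m, rfl⟩
  obtain ⟨K, _, _, _, χ, hχ⟩ := Pool.Agent.TH443.J4281.spec_all k A hAfg (bA j0 l0) (by
    rw [hbA]
    exact hinf)
  obtain ⟨P, hP⟩ := Pool.Agent.TH541.BB.exists_pole (k := k) hχ
  obtain ⟨φP, hC, ho⟩ := Pool.Agent.TH443.J4280.comp_all k K P
  obtain ⟨lam, hlam'⟩ : ∃ lam : A →+* LaurentSeries k, ∀ x, lam x = φP (χ x) :=
    ⟨φP.comp χ.toRingHom, fun _ => rfl⟩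
  have hlam : ∀ a, lam (algebraMap k A a) = HahnSeries.C a := by
    intro a
    rw [hlam', AlgHom.commutes, hC]
  have hcoef : ∀ i j γ, (lam (PowerSeries.coeff i (H j))).coeff γ =
      ∑ l, PowerSeries.coeff i (E l) * (lam (bA j l)).coeff γ := by
    intro i j γ
    have h1 : PowerSeries.coeff i (H j) = ∑ l, algebraMap k A (PowerSeries.coeff i (E l)) *
        bA j l := by
      rw [hH]
      unfold gA
      rw [map_sum]
      refine Finset.sum_congr rfl fun l _ => ?_
      rw [PowerSeries.coeff_C_mul, PowerSeries.coeff_map, mul_comm]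
    rw [h1, map_sum, HahnSeries.coeff_sum]
    refine Finset.sum_congr rfl fun l _ => ?_
    rw [map_mul, hlam, HahnSeries.C_mul_eq_smul, HahnSeries.coeff_smul, smul_eq_mul]
  -- the support
  obtain ⟨S, hS⟩ : ∃ S : Set (ℕ × ℤ),
    S = {p | ∃ j, (lam (PowerSeries.coeff p.1 (H j))).coeff p.2 ≠ 0} := ⟨_, rfl⟩
  obtain ⟨C, hCdef⟩ : ∃ C : ℕ, C = ∑ p : Fin N × Fin d, (-(lam (bA p.1 p.2)).order).toNat :=
    ⟨_, rfl⟩
  have hSC : ∀ p ∈ S, -(C : ℤ) ≤ p.2 := by
    rintro ⟨i, γ⟩ hp
    rw [hS] at hp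
    obtain ⟨j, hj⟩ := hp
    by_contra hcon
    rw [not_le] at hcon
    apply hj
    rw [hcoef]
    refine Finset.sum_eq_zero fun l _ => ?_
    have h1 : (-(lam (bA j l)).order).toNat ≤ C := by
      rw [hCdef]
      exact Finset.single_le_sum (f := fun p : Fin N × Fin d =>
        (-(lam (bA p.1 p.2)).order).toNat) (fun _ _ => Nat.zero_le _) (Finset.mem_univ (j, l))
    rw [HahnSeries.coeff_eq_zero_of_lt_order (by
      simp only at hcon
      omega), mul_zero]
  have hS1 : ∀ p ∈ S, 1 ≤ p.1 := by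
    rintro ⟨i, γ⟩ hp
    rw [hS] at hp
    obtain ⟨j, hj⟩ := hp
    by_contra hcon
    have hi : i = 0 := by
      simp only at hcon
      omega
    apply hj
    rw [hcoef]
    refine Finset.sum_eq_zero fun l _ => ?_
    rw [hi, hE0, zero_mul]
  have hSn : ∃ p ∈ S, p.2 < 0 := by
    have hχ0 : χ (bA j0 l0) ≠ 0 := by
      intro h0
      rw [h0, P.ord_zero] at hP
      exact lt_irrefl _ hP
    have h1 : (lam (bA j0 l0)).coeff (P.ord (χ (bA j0 l0))) ≠ 0 := by
      rw [hlam', ← ho _ hχ0]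
      apply HahnSeries.coeff_order_eq_zero.not.2
      intro h0
      exact hχ0 (φP.injective (by rw [h0, map_zero]))
    by_contra hcon
    push Not at hcon
    have h2 : ∀ i, ∑ l, PowerSeries.coeff i (E l) *
        (lam (bA j0 l)).coeff (P.ord (χ (bA j0 l0))) = 0 := by
      intro i
      by_contra h3
      rw [← hcoef] at h3
      have h4 := hcon (i, P.ord (χ (bA j0 l0))) (by
        rw [hS]
        exact ⟨j0, h3⟩)
      simp only at h4
      omega
    apply h1
    refine hind (fun l => (lam (bA j0 l)).coeff (P.ord (χ (bA j0 l0)))) ?_ l0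
    apply φ.injective
    rw [map_zero, map_sum]
    have h3 : ∑ l, φ (algebraMap k L ((lam (bA j0 l)).coeff (P.ord (χ (bA j0 l0)))) * e l) =
        oP k (∑ l, PowerSeries.C ((lam (bA j0 l)).coeff (P.ord (χ (bA j0 l0)))) * E l) := by
      rw [map_sum]
      refine Finset.sum_congr rfl fun l _ => ?_
      rw [map_mul, map_mul, hE l, hφC]
      congr 1
      exact (HahnSeries.ofPowerSeries_C _).symm
    rw [h3]
    have h4 : ∑ l, PowerSeries.C ((lam (bA j0 l)).coeff (P.ord (χ (bA j0 l0)))) * E l = 0 := by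
      ext i
      rw [map_sum, map_zero, ← h2 i]
      refine Finset.sum_congr rfl fun l _ => ?_
      rw [PowerSeries.coeff_C_mul, mul_comm]
    rw [h4, map_zero]
  obtain ⟨a, b, ha, hb, hpos, ⟨i1, γ1⟩, hp1, hp2⟩ := exists_weights S C hSC hS1 hSn
  -- the substitution
  obtain ⟨lam2, hlam2⟩ : ∃ lam2 : A →+* LaurentSeries k, ∀ x, lam2 x = emb b hb (lam x) :=
    ⟨(emb b hb).comp lam, fun _ => rfl⟩
  obtain ⟨Ψ, hΨ⟩ : ∃ Ψ : PowerSeries A →+* PowerSeries (LaurentSeries k),
    Ψ = (PowerSeries.rescale (HahnSeries.single (a : ℤ) (1 : k))).comp (PowerSeries.map lam2) :=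
    ⟨_, rfl⟩
  have hΨc : ∀ (x : PowerSeries A) (i : ℕ) (δ : ℤ), (PowerSeries.coeff i (Ψ x)).coeff δ =
      (lam2 (PowerSeries.coeff i x)).coeff (δ - a * i) := by
    intro x i δ
    rw [hΨ, RingHom.comp_apply, PowerSeries.coeff_rescale, PowerSeries.coeff_map,
      HahnSeries.single_pow, one_pow]
    have h1 : δ = (δ - a * i) + i • (a : ℤ) := by
      rw [nsmul_eq_mul]
      ring
    conv_lhs => rw [h1]
    rw [HahnSeries.coeff_single_mul_add, one_mul]
  have hnn : ∀ j i, ∀ δ < 0, (PowerSeries.coeff i (Ψ (H j))).coeff δ = 0 := by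
    intro j i δ hδ
    by_contra hcon
    rw [hΨc, hlam2] at hcon
    obtain ⟨γ, hγ, hne⟩ := emb_ne hcon
    have h1 := hpos (i, γ) (by
      rw [hS]
      exact ⟨j, hne⟩)
    simp only at h1
    linarith
  have hg : ∀ j i, ∃ p : PowerSeries k, oP k p = PowerSeries.coeff i (Ψ (H j)) := fun j i =>
    exists_oP (hnn j i)
  choose g hg using hg
  obtain ⟨G, hG⟩ : ∃ G : Fin N → PowerSeries (PowerSeries k), G = fun j => PowerSeries.mk (g j) :=
    ⟨_, rfl⟩
  have hGΨ : ∀ j, PowerSeries.map (oP k) (G j) = Ψ (H j) := by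
    intro j
    ext i : 1
    rw [PowerSeries.coeff_map, hG]
    change oP k (PowerSeries.coeff i (PowerSeries.mk (g j))) = _
    rw [PowerSeries.coeff_mk, hg]
  have hinj2 : Function.Injective (PowerSeries.map (oP k)) := by
    intro x y hxy
    ext i : 1
    apply oP_inj
    have := congrArg (PowerSeries.coeff i) hxy
    rwa [PowerSeries.coeff_map, PowerSeries.coeff_map] at this
  have hG0 : ∀ j i, PowerSeries.constantCoeff (PowerSeries.coeff i (G j)) =
      (lam2 (PowerSeries.coeff i (H j))).coeff (-(a * i : ℤ)) := by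
    intro j i
    have h1 : PowerSeries.coeff i (G j) = g j i := by
      rw [hG]
      exact PowerSeries.coeff_mk _ _
    rw [h1, ← PowerSeries.coeff_zero_eq_constantCoeff_apply, ← oP_coeff_nat, hg, hΨc]
    congr 1
    push_cast
    ring
  have hG0' : ∀ j i, PowerSeries.constantCoeff (PowerSeries.coeff i (G j)) ≠ 0 →
      ∃ γ, (a : ℤ) * i + b * γ = 0 ∧ (i, γ) ∈ S := by
    intro j i hne
    rw [hG0, hlam2] at hne
    obtain ⟨γ, hγ, hne⟩ := emb_ne hne
    exact ⟨γ, by linarith, by rw [hS]; exact ⟨j, hne⟩⟩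
  obtain ⟨Pj, hPj⟩ : ∃ Pj : Fin N → Polynomial k, Pj = fun j => PowerSeries.trunc (b * C + 1)
    (PowerSeries.map (PowerSeries.constantCoeff) (G j)) := ⟨_, rfl⟩
  have hPc : ∀ j i, (Pj j).coeff i = PowerSeries.constantCoeff (PowerSeries.coeff i (G j)) := by
    intro j i
    rw [hPj]
    change (PowerSeries.trunc (b * C + 1) _).coeff i = _
    rw [PowerSeries.coeff_trunc]
    split_ifs with hi
    · rw [PowerSeries.coeff_map]
    · by_contra hne
      obtain ⟨γ, h1, h2⟩ := hG0' j i (Ne.symm hne)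
      have h3 := hSC _ h2
      simp only at h3
      have h4 : (i : ℤ) ≤ a * i := by
        have : (1 : ℤ) ≤ a := by exact_mod_cast ha
        nlinarith [Int.natCast_nonneg i]
      have h5 : (b : ℤ) * (-γ) ≤ b * C := mul_le_mul_of_nonneg_left (by linarith)
        (Int.natCast_nonneg b)
      have h6 : (i : ℤ) ≤ (b * C : ℕ) := by
        push_cast
        linarith
      have h7 : i ≤ b * C := by exact_mod_cast h6
      omega
  refine ⟨Pj, fun j => ?_, ?_, fun F hF => ?_⟩
  · rw [hPc]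
    by_contra hne
    obtain ⟨γ, h1, h2⟩ := hG0' j 0 hne
    have := hS1 _ h2
    simp only at this
    omega
  · have h1 := hp1
    rw [hS] at h1
    obtain ⟨j, hj⟩ := h1
    refine ⟨j, fun h0 => hj ?_⟩
    have h2 := hPc j i1
    rw [h0, Polynomial.coeff_zero, hG0, hlam2] at h2
    have h3 : -((a : ℤ) * i1) = b * γ1 := by
      simp only at hp2
      linarith
    rw [h3, emb_coeff] at h2
    exact h2.symm
  · have h1 := congrArg Ψ (hrel F hF)
    rw [map_zero, MvPolynomial.eval₂_comp_left] at h1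
    have h2 : MvPolynomial.eval₂ (PowerSeries.C.comp PowerSeries.C) G F = 0 := by
      apply hinj2
      rw [map_zero, MvPolynomial.eval₂_comp_left, ← h1]
      congr 1
      · refine RingHom.ext fun c => ?_
        change PowerSeries.map (oP k) (PowerSeries.C (PowerSeries.C c)) =
          Ψ (PowerSeries.C (algebraMap k A c))
        rw [PowerSeries.map_C, hΨ, RingHom.comp_apply, PowerSeries.map_C, hlam2, hlam, emb_C]
        ext i : 1
        rw [PowerSeries.coeff_rescale, PowerSeries.coeff_C, PowerSeries.coeff_C]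
        split_ifs with h0
        · rw [h0, pow_zero, one_mul]
          exact HahnSeries.ofPowerSeries_C _
        · rw [mul_zero]
      · funext j
        exact hGΨ j
    have h3 := congrArg (PowerSeries.map (PowerSeries.constantCoeff (R := k))) h2
    rw [map_zero, MvPolynomial.eval₂_comp_left] at h3
    have h4 : Function.Injective (Polynomial.coeToPowerSeries.ringHom : Polynomial k →+* _) :=
      Polynomial.coe_injective k
    apply h4
    rw [map_zero, MvPolynomial.aeval_def, MvPolynomial.eval₂_comp_left, ← h3]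
    congr 1
    · refine RingHom.ext fun c => ?_
      change ((algebraMap k (Polynomial k) c : Polynomial k) : PowerSeries k) =
        PowerSeries.map PowerSeries.constantCoeff (PowerSeries.C (PowerSeries.C c))
      rw [PowerSeries.map_C, PowerSeries.constantCoeff_C]
      exact Polynomial.coe_C c
    · funext j
      change ((Pj j : Polynomial k) : PowerSeries k) =
        PowerSeries.map PowerSeries.constantCoeff (G j)
      ext i
      rw [Polynomial.coeff_coe, hPc, PowerSeries.coeff_map]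

end Pool.Agent.H910.Lp
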