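import Mathlib

/-!
Definitions: an open subset of the affine plane.
-/

set_option autoImplicit false

namespace Pool.Agent.H910.Lp

open MvPolynomial

/-- The form `x₁ x₂ (x₁ - x₂)`. -/
noncomputable def triL : MvPolynomial (Fin 3) ℂ := X 1 * X 2 * (X 1 - X 2)

/-- Two forms on the projective plane. The complement of the set of their common zeros is the open
subset `q ≠ 1, 2` of the affine plane `x₀ = 1`, where `q = x₁ x₂ (x₁ - x₂)`, without the points with
`q = 0` and `x₁ + x₂ ∈ {1, 2}`, which are two points different from the origin on each of the three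
lines `q = 0`. -/
noncomputable def surf : Fin 2 → MvPolynomial (Fin 3) ℂ :=
  ![X 0 * (triL - X 0 ^ 3) * (triL - 2 * X 0 ^ 3) * triL,
    X 0 * (triL - X 0 ^ 3) * (triL - 2 * X 0 ^ 3) * ((X 1 + X 2 - X 0) * (X 1 + X 2 - 2 * X 0))]

end Pool.Agent.H910.Lp
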