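import Pool.Agent.H910.Lp.Ptd
import Pool.Agent.H910.Lp.Lcl
import Pool.Graph.R_pool_sql_team_seeded_3997aac3.Q239.SF.W4

/-!
Curves which are not hyperbolic have infinitely many pointed endomorphisms.
-/

set_option autoImplicit false
set_option linter.unusedSectionVars false
set_option linter.unusedVariables false
set_option linter.overlappingInstances false

open scoped LinearAlgebra.Projectivization

namespace Pool.Agent.H910.Lp

open FF MvPolynomial Pool.Agent.W603.LV IntermediateField
open Pool.Agent.W602.GT (val IsForm coords val_smul)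
open Pool.Agent.W602.RG (HasValue)
open Pool.Agent.W603.PV (pht pord exists_pord pord_le under ram)
open Pool.Agent.Y216 (OnVar)
open Pool.Agent.H916 (Meets)
open Pool.Agent.Q271.RC (Nonconst)
open Pool.Agent.Q239.SF
open Pool.Agent.W619.PQ
open Pool.Agent.H910.Cf
open Pool.Agent.Q96.HE (over_under finite_of_ff)
open Pool.Agent.Q96.LS (nonconst_of)

variable {L : Type} [Field L] [Algebra ℂ L] {M : ℕ} {ι : Type}
  {Q : ι → MvPolynomial (Fin (M + 1)) ℂ}

/-- the boundary and embeddings of function fields -/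
theorem meets_hom (hQ : ∀ i, IsForm (Q i)) {E : Type} [Field E] [Algebra ℂ E] [IsFF ℂ E]
    [IsFF ℂ L] (φ : E →ₐ[ℂ] L) {v : Fin (M + 1) → E} (hv : ∃ j, v j ≠ 0) (P : Place ℂ L) :
    ∃ (p : Place ℂ E) (e : ℕ), 0 < e ∧ (∀ g, P.ord (φ g) = e * p.ord g) ∧
      (Meets Q (fun i => φ (v i)) P ↔ Meets Q v p) := by
  let _ : Algebra E L := φ.toRingHom.toAlgebra
  have htow : IsScalarTower ℂ E L := IsScalarTower.of_algebraMap_eq' φ.comp_algebraMap.symm
  have hfd : FiniteDimensional E L := finite_of_ff E L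
  have h := over_under (F := E) P
  exact ⟨under E P, ram E P, h.1, h.2, meets_over hQ hv h⟩

/-- **Pointed endomorphisms.** -/
theorem pointed_of_dil [IsFF ℂ L] (hQ : ∀ i, IsForm (Q i)) {σ : L →ₐ[ℂ] L} {c : Place ℂ L} {z : L}
    (h : Dil σ c z) {v : Fin (M + 1) → L} (hv : Nonconst v) {S : Finset (Place ℂ L)}
    (hc : ¬ Meets Q v c)
    (hS : ∀ (n : ℕ) (P : Place ℂ L), P ∉ S → ¬ Meets Q (fun i => (σ ^ n) (v i)) P) :
    ∃ a : Fin (M + 1) → ℂ, a ≠ 0 ∧ (∃ i, eval a (Q i) ≠ 0) ∧
      (PointedOff v Q S c a).Infinite := by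
  classical
  obtain ⟨i1, j1, hj1, htr⟩ := hv
  obtain ⟨j0, hj0, hmin⟩ := exists_pord c ⟨j1, hj1⟩
  obtain ⟨V, hV⟩ : ∃ V : Fin (M + 1) → L, V = fun i => (v j0)⁻¹ * v i := ⟨_, rfl⟩
  have hij0 : (v j0)⁻¹ ≠ 0 := inv_ne_zero hj0
  have hVreg : ∀ i, Ge c 0 (V i) := by
    intro i
    by_cases h0 : v i = 0
    · left
      rw [hV]
      simp [h0]
    · right
      rw [hV]
      simp only
      rw [c.ord_mul hij0 h0, c.ord_inv, hmin]
      have := pord_le c h0
      omega
  have hVj0 : V j0 = 1 := by rw [hV]; exact inv_mul_cancel₀ hj0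
  choose a ha using fun i => exists_const c (hVreg i)
  have ha' : ∀ i, Vl c (V i) (a i) := ha
  have hforms : ∀ G : MvPolynomial (Fin (M + 1)) ℂ, IsForm G → val v G = 0 → val V G = 0 := by
    rintro G ⟨d, hd⟩ hG
    rw [hV, Pool.Agent.W602.GT.val_smul hd, hG, mul_zero]
  have hpV : pord c V = 0 := by
    apply le_antisymm
    · have hj1' : V j0 ≠ 0 := by rw [hVj0]; exact one_ne_zero
      have := pord_le c (f := V) hj1'
      rwa [hVj0, c.ord_one] at this
    · obtain ⟨l, hl, hlo⟩ := exists_pord c (f := V) ⟨j0, by rw [hVj0]; exact one_ne_zero⟩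
      rw [← hlo]
      exact (hVreg l).resolve_left hl
  refine ⟨a, ?_, ?_, ?_⟩
  · intro h0
    have h1 := ha' j0
    rw [hVj0, h0, Pi.zero_apply] at h1
    unfold Vl at h1
    rw [map_zero, sub_zero] at h1
    rcases h1 with h1 | h1
    · exact one_ne_zero h1
    · rw [c.ord_one] at h1
      omega
  · have h1 : ¬ Meets Q V c := by
      rw [hV, meets_scale hQ ⟨j0, hj0⟩ hij0]
      exact hc
    unfold Meets at h1
    push Not at h1
    obtain ⟨i, hi, hi2⟩ := h1
    rw [hpV, mul_zero] at hi2
    refine ⟨i, fun h0 => ?_⟩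
    have h2 := Vl.aeval ha' (Q i)
    rw [h0] at h2
    unfold Vl at h2
    rw [map_zero, sub_zero] at h2
    have := h2.resolve_left hi
    omega
  · -- the iterates
    have hne : ∀ n : ℕ, (fun i => (σ ^ n) (V i)) ≠ 0 := by
      intro n h0
      have h1 := congrFun h0 j0
      simp only [hVj0, map_one, Pi.zero_apply] at h1
      exact one_ne_zero h1
    have hval : ∀ (n : ℕ) (H : MvPolynomial (Fin (M + 1)) ℂ),
        MvPolynomial.aeval (fun i => (σ ^ n) (V i)) H = (σ ^ n) (MvPolynomial.aeval V H) := by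
      intro n H
      rw [MvPolynomial.comp_aeval_apply]
    -- a coordinate which is not constant
    obtain ⟨i2, hi2⟩ : ∃ i, V i - algebraMap ℂ L (a i) ≠ 0 := by
      by_contra hcon
      push Not at hcon
      apply htr
      have h1 : v i1 / v j1 = V i1 / V j1 := by
        rw [hV]
        simp only
        rw [mul_div_mul_left _ _ hij0]
      rw [h1, sub_eq_zero.1 (hcon i1), sub_eq_zero.1 (hcon j1), ← map_div₀]
      exact isAlgebraic_algebraMap _
    have hpos : 0 < c.ord (V i2 - algebraMap ℂ L (a i2)) := by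
      have := (ha i2).resolve_left hi2
      omega
    have hinj : ∀ n m : ℕ, n < m → (∀ i, (σ ^ n) (V i) = (σ ^ m) (V i)) → False := by
      intro n m hnm heq
      have h1 : (σ ^ (m - n)) (V i2) = V i2 := by
        have h2 := heq i2
        have h3 : σ ^ m = σ ^ n * σ ^ (m - n) := by
          rw [← pow_add]
          congr 1
          omega
        rw [h3, AlgHom.mul_apply] at h2
        exact ((σ ^ n).toRingHom.injective h2).symm
      refine h.not_fixed hi2 hpos (k := m - n) (by omega) ?_
      rw [map_sub, AlgHom.commutes, h1]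
    apply Set.infinite_of_injective_forall_mem
      (f := fun n : ℕ => Projectivization.mk L (fun i => (σ ^ n) (V i)) (hne n))
    · intro n m hnm
      rw [Projectivization.mk_eq_mk_iff'] at hnm
      obtain ⟨b, hb⟩ := hnm
      have h1 := congrFun hb j0
      simp only [Pi.smul_apply, hVj0, map_one, smul_eq_mul, mul_one] at h1
      rw [h1, one_smul] at hb
      have h2 : ∀ i, (σ ^ m) (V i) = (σ ^ n) (V i) := fun i => congrFun hb i
      rcases lt_trichotomy n m with h3 | h3 | h3
      · exact (hinj n m h3 fun i => (h2 i).symm).elim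
      · exact h3
      · exact (hinj m n h3 h2).elim
    · intro n
      refine ⟨fun i => (σ ^ n) (V i), hne n, ?_, ?_, ?_, ?_, rfl⟩
      · intro H hH hvH
        unfold Pool.Agent.W602.GT.val
        have h2 := hforms H hH hvH
        unfold Pool.Agent.W602.GT.val at h2
        rw [hval, h2, map_zero]
      · have h1 : ¬ Meets Q V c := by
          rw [hV, meets_scale hQ ⟨j0, hj0⟩ hij0]
          exact hc
        unfold Meets at h1
        push Not at h1
        obtain ⟨i, hi, -⟩ := h1
        exact ⟨i, by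
          rw [hval]
          exact (map_ne_zero _).2 hi⟩
      · intro P hP
        by_contra hPS
        apply hS n P hPS
        have h1 : (fun i => (σ ^ n) (V i)) = fun i => (σ ^ n) (v j0)⁻¹ * (σ ^ n) (v i) := by
          funext i
          rw [hV]
          exact map_mul _ _ _
        rw [h1, meets_scale hQ ⟨j0, (map_ne_zero _).2 hj0⟩ ((map_ne_zero _).2 hij0)] at hP
        exact hP
      · intro i j
        have h1 : Ge c 1 (algebraMap ℂ L (a i) * (σ ^ n) (V j) -
            algebraMap ℂ L (a j) * (σ ^ n) (V i)) := by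
          have h2 := h.vlp (ha' j) n
          have h3 := h.vlp (ha' i) n
          have h4 := Ge.mul (Ge.const (P := c) (a i)) h2
          have h5 := Ge.mul (Ge.const (P := c) (a j)) h3
          rw [zero_add] at h4 h5
          have h6 := Ge.sub h4 h5
          have h7 : algebraMap ℂ L (a i) * ((σ ^ n) (V j) - algebraMap ℂ L (a j)) -
              algebraMap ℂ L (a j) * ((σ ^ n) (V i) - algebraMap ℂ L (a i)) =
              algebraMap ℂ L (a i) * (σ ^ n) (V j) - algebraMap ℂ L (a j) * (σ ^ n) (V i) := by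
            ring
          rwa [h7] at h6
        rcases h1 with h1 | h1
        · exact Or.inl h1
        · right
          have h2 : pord c (fun i => (σ ^ n) (V i)) ≤ c.ord ((σ ^ n) (V j0)) :=
            pord_le c (f := fun i => (σ ^ n) (V i)) (by
              simp only [hVj0, map_one]
              exact one_ne_zero)
          rw [hVj0, map_one, c.ord_one] at h2
          exact lt_of_le_of_lt h2 (lt_of_lt_of_le zero_lt_one h1)

/-- the squaring of the multiplicative group -/
theorem dil_square [IsFF ℂ L] {t : L} (ht : ℂ⟮t⟯ = ⊤) :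
    ∃ (σ : L →ₐ[ℂ] L) (c : Place ℂ L) (z : L), Dil σ c z ∧ σ t = t ^ 2 ∧ c.ord t = 0 := by
  classical
  have htt : Transcendental ℂ t := transcendental_of_top ht
  have ht0 : t ≠ 0 := by
    rintro rfl
    exact htt isAlgebraic_zero
  have ht2 : Transcendental ℂ (t ^ 2) := htt.pow (by norm_num)
  have hind : ∀ s : L, Transcendental ℂ s → ∀ G : MvPolynomial (Fin 1) ℂ,
      aeval ![s] G = 0 → G = 0 := by
    intro s hs G hG
    have h1 : AlgebraicIndependent ℂ (![s] : Fin 1 → L) := by
      rw [algebraicIndependent_unique_type_iff]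
      exact hs
    exact h1.eq_zero_of_aeval_eq_zero G hG
  obtain ⟨σ, hσ⟩ := exists_end (![t] : Fin 1 → L) ![t ^ 2] (by
    rw [Matrix.range_cons, Matrix.range_empty, Set.union_empty]
    exact ht) (by
    intro G
    constructor
    · intro h
      rw [hind t htt G h, map_zero]
    · intro h
      rw [hind _ ht2 G h, map_zero])
  have hσt : σ t = t ^ 2 := hσ 0
  obtain ⟨c, hc, -⟩ := zero_unique (k := ℂ) (top_sub ht 1)
  rw [map_one] at hc
  have hz0 : t - 1 ≠ 0 := by
    intro h0
    rw [h0, c.ord_zero] at hc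
    omega
  have hct : Vl c t 1 := by
    unfold Vl
    rw [map_one]
    exact Or.inr hc.ge
  have hval : ∀ (R : Polynomial ℂ) (s : L), Vl c s 1 → Vl c (Polynomial.aeval s R) (R.eval 1) := by
    intro R s hs
    induction R using Polynomial.induction_on' with
    | add p q hp hq =>
      rw [map_add, Polynomial.eval_add]
      exact hp.add hq
    | monomial n b =>
      rw [Polynomial.aeval_monomial, Polynomial.eval_monomial]
      exact (Vl.const b).mul (hs.pow n)
  have hct2 : Vl c (t ^ 2) 1 := by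
    have := hct.pow 2
    rwa [one_pow] at this
  have hunit : ∀ (s : L) (R : Polynomial ℂ), Vl c s 1 → R.eval 1 ≠ 0 →
      Polynomial.aeval s R ≠ 0 ∧ c.ord (Polynomial.aeval s R) = 0 := by
    intro s R hs hR
    have h1 := hval R s hs
    have h0 : Polynomial.aeval s R ≠ 0 := by
      intro h0
      rw [h0] at h1
      have h2 := Vl.const (c := c) (0 : ℂ)
      rw [map_zero] at h2
      exact hR (h1.uniq h2)
    refine ⟨h0, ?_⟩
    have h2 := h1.reg.resolve_left h0
    by_contra hcon
    have h3 : Ge c 1 (Polynomial.aeval s R) := Or.inr (by omega)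
    have h4 : Vl c (Polynomial.aeval s R) 0 := by
      unfold Vl
      rwa [map_zero, sub_zero]
    exact hR (h1.uniq h4)
  have hplus : c.ord (t + 1) = 0 ∧ t + 1 ≠ 0 := by
    have h1 := hunit t (Polynomial.X + 1) hct (by
      rw [Polynomial.eval_add, Polynomial.eval_X, Polynomial.eval_one]
      norm_num)
    rw [map_add, Polynomial.aeval_X, map_one] at h1
    exact ⟨h1.2, h1.1⟩
  have hord : ∀ R : Polynomial ℂ, R ≠ 0 → c.ord (Polynomial.aeval (t ^ 2) R) =
      c.ord (Polynomial.aeval t R) := by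
    intro R hR
    obtain ⟨R', hR', hRe⟩ := Polynomial.exists_eq_pow_rootMultiplicity_mul_and_not_dvd R hR 1
    rw [Polynomial.dvd_iff_isRoot, Polynomial.IsRoot.def] at hRe
    have h1 := hunit t R' hct hRe
    have h2 := hunit (t ^ 2) R' hct2 hRe
    have e1 : t ^ 2 - 1 = (t - 1) * (t + 1) := by ring
    rw [hR']
    simp only [map_mul, map_pow, map_sub, Polynomial.aeval_X, Polynomial.aeval_C, map_one]
    rw [e1, c.ord_mul (pow_ne_zero _ (mul_ne_zero hz0 hplus.2)) h2.1,
      c.ord_mul (pow_ne_zero _ hz0) h1.1, h1.2, h2.2, c.ord_pow, c.ord_pow,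
      c.ord_mul hz0 hplus.2, hplus.1]
    ring
  refine ⟨σ, c, t - 1, ⟨fun f hf => ?_, hc, ?_⟩, hσt, ?_⟩
  · have hf1 : f ∈ ℂ⟮t⟯ := by
      rw [ht]
      exact IntermediateField.mem_top
    obtain ⟨r, s, hrs⟩ := (IntermediateField.mem_adjoin_simple_iff ℂ f).1 hf1
    have hr : r ≠ 0 := by
      rintro rfl
      apply hf
      rw [hrs, map_zero, zero_div]
    have hs : s ≠ 0 := by
      rintro rfl
      apply hf
      rw [hrs, map_zero, div_zero]
    have hne : ∀ (R : Polynomial ℂ) (y : L), Transcendental ℂ y → R ≠ 0 →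
        Polynomial.aeval y R ≠ 0 := fun R y hy hR h0 => hR ((transcendental_iff.1 hy) R h0)
    have h1 : σ f = Polynomial.aeval (t ^ 2) r / Polynomial.aeval (t ^ 2) s := by
      rw [hrs, map_div₀, ← hσt, Polynomial.aeval_algHom_apply, Polynomial.aeval_algHom_apply]
    rw [h1, c.ord_div (hne r _ ht2 hr) (hne s _ ht2 hs), hord r hr, hord s hs, hrs,
      c.ord_div (hne r _ htt hr) (hne s _ htt hs)]
  · have h1 : σ (t - 1) / (t - 1) = t + 1 := by
      rw [map_sub, hσt, map_one]
      field_simp
      ring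
    rw [h1]
    have h2 := hct.add (Vl.const (c := c) (1 : ℂ))
    rw [map_one] at h2
    norm_num at h2
    exact h2
  · have h1 := hunit t Polynomial.X hct (by rw [Polynomial.eval_X]; exact one_ne_zero)
    rw [Polynomial.aeval_X] at h1
    exact h1.2

/-- **Pointed endomorphisms of the curves which are not hyperbolic.** -/
theorem low_pointed [IsFF ℂ L] (hQ : ∀ i, IsForm (Q i)) {v : Fin (M + 1) → L} (hnc : Nonconst v)
    (hoff : ∃ i, MvPolynomial.aeval v (Q i) ≠ 0)
    (hlow : canDeg ℂ L + {P : Place ℂ L | Meets Q v P}.ncard ≤ 0) :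
    ∃ (S : Finset (Place ℂ L)) (c : Place ℂ L) (a : Fin (M + 1) → ℂ), c ∉ S ∧ a ≠ 0 ∧
      (∃ i, eval a (Q i) ≠ 0) ∧ (PointedOff v Q S c a).Infinite := by
  classical
  have hv := ne_of_nonconst hnc
  have hfin := meets_fin hv hoff
  rcases lt_or_ge (canDeg ℂ L) 0 with h | h
  · have hc2 : canDeg ℂ L = -2 := Pool.Agent.Q72.NA.canDeg_of_neg h
    obtain ⟨t, ht, htS⟩ := exists_gen2 (k := ℂ) (K := L) h (S := hfin.toFinset) (by
      rw [← Set.ncard_eq_toFinset_card _ hfin]
      omega)
    obtain ⟨σ, c, z, hd, hσt, hct⟩ := dil_square ht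
    obtain ⟨P0, hP0, hP0'⟩ := zero_unique (k := ℂ) ht
    obtain ⟨P1, hP1, hP1'⟩ := pole_unique (k := ℂ) ht
    have hpow : ∀ n : ℕ, (σ ^ n) t = t ^ (2 ^ n) := by
      intro n
      induction n with
      | zero => simp
      | succ n ih =>
        rw [pow_succ', AlgHom.mul_apply, ih, map_pow, hσt, ← pow_mul]
        congr 1
        ring
    have hcS : c ∉ ({P0, P1} : Finset (Place ℂ L)) := by
      intro hc
      rcases Finset.mem_insert.1 hc with rfl | hc
      · omega
      · rw [Finset.mem_singleton] at hc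
        rw [← hc] at hP1
        omega
    obtain ⟨a, ha0, ha1, ha2⟩ := pointed_of_dil hQ hd hnc (S := {P0, P1}) (fun hm => by
        exact htS c (by rw [Set.Finite.mem_toFinset]; exact hm) hct) (by
      intro n P hP hm
      obtain ⟨p, e, he, hpe, hiff⟩ := meets_hom hQ (σ ^ n) hv P
      have h1 := htS p (by
        rw [Set.Finite.mem_toFinset]
        exact hiff.1 hm)
      have h2 := hpe t
      rw [hpow, P.ord_pow] at h2
      have h3 : P.ord t ≠ 0 := by
        intro h0
        rw [h0, mul_zero] at h2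
        rcases mul_eq_zero.1 h2.symm with h4 | h4
        · have : e = 0 := by exact_mod_cast h4
          omega
        · exact h1 h4
      apply hP
      rcases lt_or_gt_of_ne h3 with h4 | h4
      · rw [hP1' P h4]
        simp
      · rw [hP0' P h4]
        simp)
    exact ⟨{P0, P1}, c, a, hcS, ha0, ha1, ha2⟩
  · have h0 : canDeg ℂ L = 0 := by omega
    have hN : {P : Place ℂ L | Meets Q v P}.ncard = 0 := by omega
    rw [Set.ncard_eq_zero hfin] at hN
    have hno : ∀ P : Place ℂ L, ¬ Meets Q v P := by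
      intro P hP
      have h1 : P ∈ {P : Place ℂ L | Meets Q v P} := hP
      rw [hN] at h1
      exact h1
    obtain ⟨σ, c, z, hd⟩ := dil_elliptic h0
    obtain ⟨a, ha0, ha1, ha2⟩ := pointed_of_dil hQ hd hnc (S := ∅) (hno c) (by
      intro n P hP hm
      obtain ⟨p, e, he, hpe, hiff⟩ := meets_hom hQ (σ ^ n) hv P
      exact hno p (hiff.1 hm))
    exact ⟨∅, c, a, Finset.notMem_empty c, ha0, ha1, ha2⟩

variable {K : Type} [Field K] [Algebra ℂ K] {x : Fin (M + 1) → K}

/-- **Pointed finiteness and curves which are not hyperbolic.** -/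
theorem low_empty_of_pointed (hQ : ∀ i, IsForm (Q i)) (h : PointedFiniteOff x Q 1) :
    LowOff x Q = ∅ := by
  rw [Set.eq_empty_iff_forall_notMem]
  rintro V ⟨L, i1, i2, i3, v, ⟨hv, hvgen, hoff⟩, hlow, rfl⟩
  have htL : Algebra.trdeg ℂ L = (1 : ℕ) := by
    rw [IsFF.trdeg (k := ℂ) (K := L)]
    simp
  have hnc : Nonconst v := nonconst_of ⟨hv.1, hvgen⟩ htL
  obtain ⟨S, c, a, hcS, ha0, ha, hinf⟩ := low_pointed hQ hnc hoff hlow
  apply hinf
  refine (h L S c hcS a ha0 ha (by rw [map_one]; exact one_ne_zero)).subset ?_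
  rintro φ ⟨f, hf, h1, h2, h3, h4, h5⟩
  exact ⟨f, hf, fun H hH hHx => h1 H hH (hv.2 H hH hHx), h2, h3, h4, h5⟩

end Pool.Agent.H910.Lp
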