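import Pool.Agent.H910.Lp.Cdf
import Pool.Agent.H910.Lp.Inf
import Pool.Graph.R_pool_sql_team_51e01f96.H.helper28_.Picard
import Pool.Graph.R_seed8.R885.Noe

/-!
An open subset of the affine plane.
-/

set_option autoImplicit false
set_option linter.unusedSectionVars false
set_option linter.unusedVariables false
set_option linter.overlappingInstances false

namespace Pool.Agent.H910.Lp

open FF MvPolynomial Pool.Agent.W603.LV
open Pool.Agent.W602.GT (val IsForm coords val_smul LogGeneralType)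
open Pool.Agent.W603.PV (pht pord exists_pord pord_le)
open Pool.Agent.Y216 (OnVar)
open Pool.Agent.H916 (Meets)
open Pool.Agent.H910.Cf
open Pool.Agent.Q271.RC (Nonconst)

theorem hom_X (i : Fin 3) : (X i : MvPolynomial (Fin 3) ℂ).IsHomogeneous 1 := isHomogeneous_X ℂ i

theorem hom_X3 : (X 0 ^ 3 : MvPolynomial (Fin 3) ℂ).IsHomogeneous 3 := by
  have := (hom_X 0).pow 3
  rwa [one_mul] at this

theorem hom_two {F : MvPolynomial (Fin 3) ℂ} {d : ℕ} (h : F.IsHomogeneous d) :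
    (2 * F).IsHomogeneous d := by
  have h1 : (2 : MvPolynomial (Fin 3) ℂ) = C 2 := (map_ofNat C 2).symm
  rw [h1]
  have := (isHomogeneous_C (Fin 3) (2 : ℂ)).mul h
  rwa [zero_add] at this

theorem triL_hom : triL.IsHomogeneous 3 :=
  ((hom_X 1).mul (hom_X 2)).mul ((hom_X 1).sub (hom_X 2))

theorem fac1_hom : (triL - X 0 ^ 3).IsHomogeneous 3 := triL_hom.sub hom_X3

theorem fac2_hom : (triL - 2 * X 0 ^ 3).IsHomogeneous 3 := triL_hom.sub (hom_two hom_X3)

theorem base_hom : (X 0 * (triL - X 0 ^ 3) * (triL - 2 * X 0 ^ 3)).IsHomogeneous 7 :=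
  ((hom_X 0).mul fac1_hom).mul fac2_hom

theorem pun_hom : ((X 1 + X 2 - X 0) * (X 1 + X 2 - 2 * X 0) :
    MvPolynomial (Fin 3) ℂ).IsHomogeneous 2 :=
  (((hom_X 1).add (hom_X 2)).sub (hom_X 0)).mul (((hom_X 1).add (hom_X 2)).sub (hom_two (hom_X 0)))

theorem surf0_hom : (surf 0).IsHomogeneous 10 := base_hom.mul triL_hom

theorem surf1_hom : (surf 1).IsHomogeneous 9 := base_hom.mul pun_hom

theorem surf_form (i : Fin 2) : IsForm (surf i) := by
  fin_cases i
  · exact ⟨10, surf0_hom⟩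
  · exact ⟨9, surf1_hom⟩

/-- the values of the forms -/
theorem surf0_val {E : Type} [Field E] [Algebra ℂ E] (z : Fin 3 → E) : aeval z (surf 0) =
    z 0 * (z 1 * z 2 * (z 1 - z 2) - z 0 ^ 3) * (z 1 * z 2 * (z 1 - z 2) - 2 * z 0 ^ 3) *
      (z 1 * z 2 * (z 1 - z 2)) := by
  have e2 : aeval z (2 : MvPolynomial (Fin 3) ℂ) = 2 := map_ofNat _ 2
  unfold surf triL
  simp only [Matrix.cons_val_zero, map_mul, map_sub, map_pow, aeval_X, e2]

theorem surf1_val {E : Type} [Field E] [Algebra ℂ E] (z : Fin 3 → E) : aeval z (surf 1) =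
    z 0 * (z 1 * z 2 * (z 1 - z 2) - z 0 ^ 3) * (z 1 * z 2 * (z 1 - z 2) - 2 * z 0 ^ 3) *
      ((z 1 + z 2 - z 0) * (z 1 + z 2 - 2 * z 0)) := by
  have e2 : aeval z (2 : MvPolynomial (Fin 3) ℂ) = 2 := map_ofNat _ 2
  unfold surf triL
  simp only [Matrix.cons_val_one, Matrix.cons_val_fin_one, map_mul, map_sub, map_add, map_pow,
    aeval_X, e2]

theorem surf_ne {E : Type} [Field E] [Algebra ℂ E] {z : Fin 3 → E}
    (h : ∃ i, aeval z (surf i) ≠ 0) : z 0 ≠ 0 ∧ z 1 * z 2 * (z 1 - z 2) - z 0 ^ 3 ≠ 0 ∧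
      z 1 * z 2 * (z 1 - z 2) - 2 * z 0 ^ 3 ≠ 0 := by
  obtain ⟨i, hi⟩ := h
  have h1 : z 0 * (z 1 * z 2 * (z 1 - z 2) - z 0 ^ 3) *
      (z 1 * z 2 * (z 1 - z 2) - 2 * z 0 ^ 3) ≠ 0 := by
    fin_cases i
    · change aeval z (surf 0) ≠ 0 at hi
      rw [surf0_val] at hi
      exact left_ne_zero_of_mul hi
    · change aeval z (surf 1) ≠ 0 at hi
      rw [surf1_val] at hi
      exact left_ne_zero_of_mul hi
  exact ⟨left_ne_zero_of_mul (left_ne_zero_of_mul h1),
    right_ne_zero_of_mul (left_ne_zero_of_mul h1), right_ne_zero_of_mul h1⟩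

/-- the points of the surface -/
theorem surf_mem (p : Fin 3 → ℂ) : (∃ i, eval p (surf i) ≠ 0) ↔ p 0 ≠ 0 ∧
    p 1 * p 2 * (p 1 - p 2) ≠ p 0 ^ 3 ∧ p 1 * p 2 * (p 1 - p 2) ≠ 2 * p 0 ^ 3 ∧
      (p 1 * p 2 * (p 1 - p 2) ≠ 0 ∨ (p 1 + p 2 ≠ p 0 ∧ p 1 + p 2 ≠ 2 * p 0)) := by
  have h0 : eval p (surf 0) = _ := (ae_eval p (surf 0)).symm.trans (surf0_val p)
  have h1 : eval p (surf 1) = _ := (ae_eval p (surf 1)).symm.trans (surf1_val p)
  constructor
  · intro h
    have h2 : ∃ i, aeval p (surf i) ≠ 0 := by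
      obtain ⟨i, hi⟩ := h
      exact ⟨i, by rw [ae_eval]; exact hi⟩
    obtain ⟨h3, h4, h5⟩ := surf_ne h2
    refine ⟨h3, sub_ne_zero.1 h4, sub_ne_zero.1 h5, ?_⟩
    obtain ⟨i, hi⟩ := h
    fin_cases i
    · left
      change eval p (surf 0) ≠ 0 at hi
      rw [h0] at hi
      exact right_ne_zero_of_mul hi
    · right
      change eval p (surf 1) ≠ 0 at hi
      rw [h1] at hi
      have h6 := right_ne_zero_of_mul hi
      exact ⟨sub_ne_zero.1 (left_ne_zero_of_mul h6), sub_ne_zero.1 (right_ne_zero_of_mul h6)⟩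
  · rintro ⟨h3, h4, h5, h6⟩
    have h7 := mul_ne_zero (mul_ne_zero h3 (sub_ne_zero.2 h4)) (sub_ne_zero.2 h5)
    rcases h6 with h6 | ⟨h6, h8⟩
    · exact ⟨0, by rw [h0]; exact mul_ne_zero h7 h6⟩
    · exact ⟨1, by
        rw [h1]
        exact mul_ne_zero h7 (mul_ne_zero (sub_ne_zero.2 h6) (sub_ne_zero.2 h8))⟩

/-- **Entire curves in the surface are constant.** -/
theorem surf_pair {u v : ℂ → ℂ} (hu : Differentiable ℂ u) (hv : Differentiable ℂ v)
    (hX : ∀ z, u z * v z * (u z - v z) ≠ 1 ∧ u z * v z * (u z - v z) ≠ 2 ∧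
      (u z * v z * (u z - v z) ≠ 0 ∨ (u z + v z ≠ 1 ∧ u z + v z ≠ 2))) (z w : ℂ) :
    u z = u w ∧ v z = v w := by
  have hq : ∀ z w, u z * v z * (u z - v z) = u w * v w * (u w - v w) :=
    Pool.Agent.H28Picard.picard' (fun z => u z * v z * (u z - v z))
      ((hu.mul hv).mul (hu.sub hv)) 1 2 (by norm_num) (fun z => (hX z).1) (fun z => (hX z).2.1)
  by_cases ha : u 0 * v 0 * (u 0 - v 0) = 0
  · have h0 : ∀ z, u z * v z * (u z - v z) = 0 := fun z => (hq z 0).trans ha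
    have hl : u z + v z = u w + v w :=
      Pool.Agent.H28Picard.picard' (fun z => u z + v z) (hu.add hv) 1 2 (by norm_num)
        (fun z => ((hX z).2.2.resolve_left (not_not.mpr (h0 z))).1)
        (fun z => ((hX z).2.2.resolve_left (not_not.mpr (h0 z))).2) z w
    have hua : AnalyticOnNhd ℂ u Set.univ := fun z _ => hu.analyticAt z
    have hva : AnalyticOnNhd ℂ v Set.univ := fun z _ => hv.analyticAt z
    have huv : AnalyticOnNhd ℂ (fun z => u z * v z) Set.univ :=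
      fun z _ => (hu.mul hv).analyticAt z
    have hd : AnalyticOnNhd ℂ (fun z => u z - v z) Set.univ :=
      fun z _ => (hu.sub hv).analyticAt z
    rcases AnalyticOnNhd.eq_zero_or_eq_zero_of_mul_eq_zero huv hd (fun z _ => h0 z)
      isPreconnected_univ with h | h
    · rcases AnalyticOnNhd.eq_zero_or_eq_zero_of_mul_eq_zero hua hva h
        isPreconnected_univ with h | h
      · have h1 := h z trivial
        have h2 := h w trivial
        exact ⟨by rw [h1, h2], by linear_combination hl - h1 + h2⟩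
      · have h1 := h z trivial
        have h2 := h w trivial
        exact ⟨by linear_combination hl - h1 + h2, by rw [h1, h2]⟩
    · have h1 := h z trivial
      have h2 := h w trivial
      exact ⟨by linear_combination (hl + h1 - h2) / 2, by linear_combination (hl - h1 + h2) / 2⟩
  · have hn : ∀ z, u z * v z * (u z - v z) ≠ 0 := fun z h => ha ((hq 0 z).trans h)
    have hu0 : ∀ z, u z ≠ 0 := fun z h => hn z (by rw [h]; ring)
    have hv0 : ∀ z, v z ≠ 0 := fun z h => hn z (by rw [h]; ring)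
    have hd0 : ∀ z, u z - v z ≠ 0 := fun z h => hn z (by rw [h]; ring)
    have ht : ∀ z w, u z / v z = u w / v w :=
      Pool.Agent.H28Picard.picard (fun z => u z / v z) (hu.div hv hv0)
        (fun z => div_ne_zero (hu0 z) (hv0 z))
        (fun z h => hd0 z (sub_eq_zero.mpr ((div_eq_one_iff_eq (hv0 z)).mp h)))
    obtain ⟨τ, hτ⟩ : ∃ τ : ℂ, τ = u 0 / v 0 := ⟨_, rfl⟩
    have hτu : ∀ z, u z = τ * v z := fun z => by
      rw [hτ, ← ht z 0, div_mul_cancel₀ _ (hv0 z)]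
    have hτ0 : τ * (τ - 1) ≠ 0 := by
      intro h
      apply hn 0
      rw [hτu 0]
      linear_combination (v 0) ^ 3 * h
    have hcube : ∀ z, v z ^ 3 = v 0 ^ 3 := by
      intro z
      have h1 := hq z 0
      rw [hτu z, hτu 0] at h1
      apply mul_left_cancel₀ hτ0
      linear_combination h1
    have hvc : v z = v w :=
      Pool.Agent.H28Picard.picard' (fun z => v z) hv 0 (2 * v 0)
        (by simpa using hv0 0) hv0
        (fun z h => by
          have h1 := hcube z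
          rw [h] at h1
          have h2 : v 0 ^ 3 = 0 := by linear_combination h1 / 7
          exact hv0 0 (pow_eq_zero_iff (by norm_num) |>.mp h2)) z w
    exact ⟨by rw [hτu z, hτu w, hvc], hvc⟩

/-- **The surface is Brody hyperbolic.** -/
theorem surf_brody {K : Type} [Field K] [Algebra ℂ K] (x : Fin 3 → K) : BrodyHypOff x surf := by
  intro f hf
  have h0 : ∀ t, f t 0 ≠ 0 := fun t => ((surf_mem (f t)).1 (hf.off t)).1
  obtain ⟨s, t, hst⟩ := hf.nonconst
  have hX : ∀ z, f z 1 / f z 0 * (f z 2 / f z 0) * (f z 1 / f z 0 - f z 2 / f z 0) ≠ 1 ∧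
      f z 1 / f z 0 * (f z 2 / f z 0) * (f z 1 / f z 0 - f z 2 / f z 0) ≠ 2 ∧
      (f z 1 / f z 0 * (f z 2 / f z 0) * (f z 1 / f z 0 - f z 2 / f z 0) ≠ 0 ∨
        (f z 1 / f z 0 + f z 2 / f z 0 ≠ 1 ∧ f z 1 / f z 0 + f z 2 / f z 0 ≠ 2)) := by
    intro z
    obtain ⟨h1, h2, h3, h4⟩ := (surf_mem (f z)).1 (hf.off z)
    have e1 : f z 1 / f z 0 * (f z 2 / f z 0) * (f z 1 / f z 0 - f z 2 / f z 0) =
        f z 1 * f z 2 * (f z 1 - f z 2) / f z 0 ^ 3 := by
      field_simp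
    have e2 : f z 1 / f z 0 + f z 2 / f z 0 = (f z 1 + f z 2) / f z 0 := by ring
    have h5 : f z 0 ^ 3 ≠ 0 := pow_ne_zero _ h1
    rw [e1, e2]
    refine ⟨fun h => h2 ((div_eq_one_iff_eq h5).1 h), fun h => h3 ((div_eq_iff h5).1 h), ?_⟩
    rcases h4 with h4 | ⟨h4, h6⟩
    · exact Or.inl (div_ne_zero h4 h5)
    · exact Or.inr ⟨fun h => h4 ((div_eq_one_iff_eq h1).1 h), fun h => h6 ((div_eq_iff h1).1 h)⟩
  obtain ⟨h1, h2⟩ := surf_pair (u := fun z => f z 1 / f z 0) (v := fun z => f z 2 / f z 0)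
    ((hf.hol 1).div (hf.hol 0) h0) ((hf.hol 2).div (hf.hol 0) h0) hX s t
  apply hst (f s 0 / f t 0)
  funext i
  have h3 := h0 t
  have h4 := h0 s
  simp only [Pi.smul_apply, smul_eq_mul]
  fin_cases i
  · exact (div_mul_cancel₀ _ h3).symm
  · change f s 1 = f s 0 / f t 0 * f t 1
    have h5 : f s 1 / f s 0 = f t 1 / f t 0 := h1
    field_simp at h5 ⊢
    linear_combination h5
  · change f s 2 = f s 0 / f t 0 * f t 2
    have h5 : f s 2 / f s 0 = f t 2 / f t 0 := h2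
    field_simp at h5 ⊢
    linear_combination h5

end Pool.Agent.H910.Lp
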