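import Pool.Agent.H910.Lp.Cex

/-!
An open subset of the affine plane: ramified maps and forms.
-/

set_option autoImplicit false
set_option linter.unusedSectionVars false
set_option linter.unusedVariables false
set_option linter.overlappingInstances false

namespace Pool.Agent.H910.Lp

open FF MvPolynomial Pool.Agent.W603.LV
open Pool.Agent.W602.GT
open Pool.Agent.W603.PV (pht pord exists_pord pord_le ge_form)
open Pool.Agent.Y216 (OnVar)
open Pool.Agent.H916 (Meets RMap InClosure)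
open Pool.Agent.H910.Cf
open Pool.Agent.H910.Vf
open Pool.Agent.Q271.RC (Nonconst)

section units

variable {E : Type} [Field E] [Algebra ℂ E] {z : Fin 3 → E} {P : Place ℂ E}

theorem form_ge {F : MvPolynomial (Fin 3) ℂ} {d : ℕ} (hF : F.IsHomogeneous d)
    (h : aeval z F ≠ 0) : d * pord P z ≤ P.ord (aeval z F) :=
  (ge_form P z hF fun α _ => Ge.const _).resolve_left h

theorem unit_left {A B : MvPolynomial (Fin 3) ℂ} {α β : ℕ} (hA : A.IsHomogeneous α)
    (hB : B.IsHomogeneous β) (h : aeval z (A * B) ≠ 0)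
    (h1 : P.ord (aeval z (A * B)) ≤ ((α + β : ℕ) : ℤ) * pord P z) :
    aeval z A ≠ 0 ∧ P.ord (aeval z A) = α * pord P z ∧
      aeval z B ≠ 0 ∧ P.ord (aeval z B) = β * pord P z := by
  rw [map_mul] at h h1
  have hA0 := left_ne_zero_of_mul h
  have hB0 := right_ne_zero_of_mul h
  rw [P.ord_mul hA0 hB0] at h1
  have h2 := form_ge (P := P) hA hA0
  have h3 := form_ge (P := P) hB hB0
  push_cast at h1
  have h4 : ((α : ℤ) + β) * pord P z = α * pord P z + β * pord P z := by ring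
  rw [h4] at h1
  exact ⟨hA0, by omega, hB0, by omega⟩

/-- the forms at the points of the surface -/
theorem surf_units (h : ¬ Meets surf z P) :
    (z 0 ≠ 0 ∧ P.ord (z 0) = pord P z) ∧
    (z 1 * z 2 * (z 1 - z 2) - z 0 ^ 3 ≠ 0 ∧
      P.ord (z 1 * z 2 * (z 1 - z 2) - z 0 ^ 3) = 3 * pord P z) ∧
    (z 1 * z 2 * (z 1 - z 2) - 2 * z 0 ^ 3 ≠ 0 ∧
      P.ord (z 1 * z 2 * (z 1 - z 2) - 2 * z 0 ^ 3) = 3 * pord P z) := by
  unfold Meets at h
  push Not at h
  obtain ⟨i, hi, hi2⟩ := h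
  obtain ⟨R, ρ, hR, hS, hS2⟩ : ∃ (R : MvPolynomial (Fin 3) ℂ) (ρ : ℕ), R.IsHomogeneous ρ ∧
      aeval z (X 0 * (triL - X 0 ^ 3) * (triL - 2 * X 0 ^ 3) * R) ≠ 0 ∧
      P.ord (aeval z (X 0 * (triL - X 0 ^ 3) * (triL - 2 * X 0 ^ 3) * R)) ≤
        ((7 + ρ : ℕ) : ℤ) * pord P z := by
    have hne : surf i ≠ 0 := fun h0 => hi (by rw [h0, map_zero])
    fin_cases i
    · change P.ord (aeval z (surf 0)) ≤ ((surf 0).totalDegree : ℤ) * pord P z at hi2
      rw [surf0_hom.totalDegree hne] at hi2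
      exact ⟨triL, 3, triL_hom, hi, hi2⟩
    · change P.ord (aeval z (surf 1)) ≤ ((surf 1).totalDegree : ℤ) * pord P z at hi2
      rw [surf1_hom.totalDegree hne] at hi2
      exact ⟨_, 2, pun_hom, hi, hi2⟩
  have e2 : aeval z (2 : MvPolynomial (Fin 3) ℂ) = 2 := map_ofNat _ 2
  obtain ⟨h1, h2, -, -⟩ := unit_left base_hom hR hS hS2
  obtain ⟨h3, h4, h5, h6⟩ := unit_left ((hom_X 0).mul fac1_hom) fac2_hom h1 h2.le
  obtain ⟨h7, h8, h9, h10⟩ := unit_left (hom_X 0) fac1_hom h3 h4.le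
  unfold triL at h5 h6 h9 h10
  simp only [map_mul, map_sub, map_pow, aeval_X, e2] at h5 h6 h7 h8 h9 h10
  push_cast at h8 h10 h6
  rw [one_mul] at h8
  exact ⟨⟨h7, h8⟩, ⟨h9, h10⟩, ⟨h5, h6⟩⟩

end units

theorem hyp1_val {E : Type} [Field E] [Algebra ℂ E] (g : Fin 2 → E) (a : ℂ) :
    aeval g (hyp ℂ 1 1 a) = g 0 + algebraMap ℂ E a * g 1 := by
  unfold hyp
  rw [Fin.sum_univ_two]
  simp

theorem dsc0 {E : Type} [Field E] [Algebra ℂ E] (g : Fin 2 → E) : aeval g (dsc ℂ 0) = 1 := by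
  unfold dsc
  rw [Polynomial.resultant_zero_left_deg, pow_zero, map_one]

/-- **The map to the projective line is ramified.** -/
theorem surf_ram {E : Type} [Field E] [Algebra ℂ E] {z : Fin 3 → E}
    (hoff : ∃ i, aeval z (surf i) ≠ 0) :
    Ram ℂ z surf (![z 0 ^ 3, z 1 * z 2 * (z 1 - z 2)] : Fin 2 → E) := by
  classical
  obtain ⟨h0, h1, h2⟩ := surf_ne hoff
  obtain ⟨H, hHdef⟩ : ∃ H : Fin 2 → MvPolynomial (Fin 3) ℂ, H = ![X 0 ^ 3, triL] := ⟨_, rfl⟩
  obtain ⟨y, hydef⟩ : ∃ y : Fin 2 → E, y = ![z 0 ^ 3, z 1 * z 2 * (z 1 - z 2)] := ⟨_, rfl⟩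
  rw [← hydef]
  have hHhom : ∀ j, (H j).IsHomogeneous 3 := by
    intro j
    rw [hHdef]
    fin_cases j
    · exact hom_X3
    · exact triL_hom
  have hHv : ∀ {L : Type} [Field L] [Algebra ℂ L] (f : Fin 3 → L),
      aeval f (H 0) = f 0 ^ 3 ∧ aeval f (H 1) = f 1 * f 2 * (f 1 - f 2) := by
    intro L _ _ f
    rw [hHdef]
    unfold triL
    simp only [Matrix.cons_val_zero, Matrix.cons_val_one, Matrix.cons_val_fin_one, map_mul,
      map_sub, map_pow, aeval_X]
    exact ⟨trivial, trivial⟩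
  have hyv : ∀ j, y j = aeval z (H j) := by
    intro j
    rw [hydef]
    fin_cases j
    · exact (hHv z).1.symm
    · exact (hHv z).2.symm
  have hy0 : y 0 ≠ 0 := by
    rw [hyv, (hHv z).1]
    exact pow_ne_zero _ h0
  have hR : RMap z y 0 3 H := ⟨hHhom, by rw [← hyv]; exact hy0, hy0, fun j => by rw [hyv, hyv]⟩
  obtain ⟨a, hadef⟩ : ∃ a : Fin 3 → ℂ, a = ![0, -1, -(1 / 2)] := ⟨_, rfl⟩
  have hv1 : ∀ {L : Type} [Field L] [Algebra ℂ L] (g : Fin 2 → L),
      aeval g (hyp ℂ 1 1 (a 0)) = g 0 ∧ aeval g (hyp ℂ 1 1 (a 1)) = g 0 - g 1 ∧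
      2 * aeval g (hyp ℂ 1 1 (a 2)) = 2 * g 0 - g 1 := by
    intro L _ _ g
    have h2L : (2 : L) ≠ 0 := by
      have h3 : (2 : L) = algebraMap ℂ L 2 := (map_ofNat _ 2).symm
      rw [h3]
      exact (map_ne_zero _).2 two_ne_zero
    rw [hyp1_val, hyp1_val, hyp1_val, hadef]
    simp only [Matrix.cons_val_zero, Matrix.cons_val_one, Matrix.cons_val, map_zero, map_neg,
      map_one, map_div₀, map_ofNat]
    refine ⟨by ring, by ring, ?_⟩
    field_simp
    ring
  have hgenH : ∀ {L : Type} [Field L] [Algebra ℂ L] (g : Fin 2 → L), g 0 ≠ 0 → g 1 - g 0 ≠ 0 →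
      g 1 - 2 * g 0 ≠ 0 → Gen a g := by
    intro L _ _ g hg0 hg1 hg2
    obtain ⟨e1, e2, e3⟩ := hv1 g
    refine ⟨by rw [dsc0]; exact one_ne_zero, fun i => ?_⟩
    fin_cases i
    · change aeval g (hyp ℂ 1 1 (a 0)) ≠ 0
      rw [e1]
      exact hg0
    · change aeval g (hyp ℂ 1 1 (a 1)) ≠ 0
      rw [e2]
      intro h
      apply hg1
      rw [← neg_sub, h, neg_zero]
    · change aeval g (hyp ℂ 1 1 (a 2)) ≠ 0
      intro h
      rw [h, mul_zero] at e3
      apply hg2
      rw [← neg_sub, ← e3, neg_zero]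
  refine ⟨3, a, 1, fun _ => 1, fun _ => 0, 0, 1, ⟨?_, ⟨fun _ => le_rfl, by simp⟩, ?_,
    ⟨0, isHomogeneous_one _ _⟩, ?_, ?_⟩⟩
  · rw [hadef]
    intro i j hij
    fin_cases i <;> fin_cases j <;> first | rfl | (exfalso; revert hij; norm_num)
  · apply hgenH y hy0
    · rw [hyv, hyv, (hHv z).1, (hHv z).2]
      exact h1
    · rw [hyv, hyv, (hHv z).1, (hHv z).2]
      exact h2
  · unfold Pool.Agent.W602.GT.val
    rw [map_one]
    exact one_ne_zero
  · intro L _ _ f g hcl _ hg P hP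
    obtain ⟨⟨u0, u0'⟩, ⟨u1, u1'⟩, ⟨u2, u2'⟩⟩ := surf_units hP
    have hfH : aeval f (H 0) ≠ 0 := by
      rw [(hHv f).1]
      exact pow_ne_zero _ u0
    obtain ⟨c, hc0, hcg⟩ := closure_smul hcl hR hfH
    have hg0 : g 0 = c * f 0 ^ 3 := by rw [hcg, (hHv f).1]
    have hg1 : g 1 = c * (f 1 * f 2 * (f 1 - f 2)) := by rw [hcg, (hHv f).2]
    have ho0 : g 0 ≠ 0 ∧ P.ord (g 0) = P.ord c + 3 * pord P f := by
      refine ⟨by rw [hg0]; exact mul_ne_zero hc0 (pow_ne_zero _ u0), ?_⟩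
      rw [hg0, P.ord_mul hc0 (pow_ne_zero _ u0), P.ord_pow, u0']
      push_cast
      ring
    have ho1 : P.ord (g 0 - g 1) = P.ord c + 3 * pord P f := by
      have e : g 0 - g 1 = -(c * (f 1 * f 2 * (f 1 - f 2) - f 0 ^ 3)) := by
        rw [hg0, hg1]
        ring
      rw [e, P.ord_neg, P.ord_mul hc0 u1, u1']
    have ho2 : P.ord (2 * g 0 - g 1) = P.ord c + 3 * pord P f := by
      have e : 2 * g 0 - g 1 = -(c * (f 1 * f 2 * (f 1 - f 2) - 2 * f 0 ^ 3)) := by
        rw [hg0, hg1]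
        ring
      rw [e, P.ord_neg, P.ord_mul hc0 u2, u2']
    have hpg : pord P g = P.ord c + 3 * pord P f := by
      apply le_antisymm
      · rw [← ho0.2]
        exact pord_le P ho0.1
      · obtain ⟨l, hl, hlo⟩ := exists_pord P (f := g) ⟨0, ho0.1⟩
        rw [← hlo]
        fin_cases l
        · exact ho0.2.ge
        · change P.ord c + 3 * pord P f ≤ P.ord (g 1)
          change g 1 ≠ 0 at hl
          rw [hg1] at hl ⊢
          have hl' := right_ne_zero_of_mul hl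
          rw [P.ord_mul hc0 hl']
          have h3 := form_ge (P := P) (z := f) triL_hom (by
            unfold triL
            simp only [map_mul, map_sub, aeval_X]
            exact hl')
          unfold triL at h3
          simp only [map_mul, map_sub, aeval_X] at h3
          push_cast at h3
          linarith
    obtain ⟨e1, e2, e3⟩ := hv1 g
    have h2L : (2 : L) ≠ 0 := by
      have h3 : (2 : L) = algebraMap ℂ L 2 := (map_ofNat _ 2).symm
      rw [h3]
      exact (map_ne_zero _).2 two_ne_zero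
    left
    refine ⟨?_, fun i => Or.inl ?_⟩
    · unfold contact
      change P.ord (aeval g (dsc ℂ 0)) - _ = 0
      rw [dsc0, P.ord_one]
      simp
    · unfold contact
      change P.ord (aeval g (hyp ℂ 1 1 (a i))) - _ = 0
      rw [hpg]
      fin_cases i
      · change P.ord (aeval g (hyp ℂ 1 1 (a 0))) - _ = 0
        rw [e1, ho0.2]
        push_cast
        ring
      · change P.ord (aeval g (hyp ℂ 1 1 (a 1))) - _ = 0
        rw [e2, ho1]
        push_cast
        ring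
      · change P.ord (aeval g (hyp ℂ 1 1 (a 2))) - _ = 0
        have hne : aeval g (hyp ℂ 1 1 (a 2)) ≠ 0 := by
          intro h
          rw [h, mul_zero] at e3
          apply u2
          apply mul_left_cancel₀ hc0
          rw [mul_zero]
          have e : c * (f 1 * f 2 * (f 1 - f 2) - 2 * f 0 ^ 3) = -(2 * g 0 - g 1) := by
            rw [hg0, hg1]
            ring
          rw [e, ← e3, neg_zero]
        have h4 : P.ord (2 * aeval g (hyp ℂ 1 1 (a 2))) = P.ord c + 3 * pord P f := by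
          rw [e3, ho2]
        have h5 : P.ord (2 : L) = 0 := by
          have := P.ord_const (c := (2 : ℂ)) two_ne_zero
          rwa [map_ofNat] at this
        rw [P.ord_mul h2L hne, h5, zero_add] at h4
        rw [h4]
        push_cast
        ring

end Pool.Agent.H910.Lp
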