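import Pool.Agent.H910.Lp.Cex2
import Pool.Graph.R_seed8.TH466.QT.Tens

/-!
An open subset of the affine plane: it is of logarithmic general type.
-/

set_option autoImplicit false
set_option linter.unusedSectionVars false
set_option linter.unusedVariables false
set_option linter.overlappingInstances false

namespace Pool.Agent.H910.Lp

open FF MvPolynomial Pool.Agent.W603.LV
open Pool.Agent.W602.GT
open Pool.Agent.W603.PV (pht pord exists_pord pord_le ge_form ge_pord)
open Pool.Agent.H916 (Meets)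
open Pool.Agent.H910.Cf

variable {E : Type} [Field E] [Algebra ℂ E]

/-- the form `g da ∧ db` -/
def tf (a b g : E) (D : Fin 2 → Derivation ℂ E E) : E := g * (D 0 a * D 1 b - D 1 a * D 0 b)

theorem tf_pluri (a b g : E) : IsPluri 1 (tf a b g) := by
  intro A D
  unfold tf
  rw [pow_one, Matrix.det_fin_two]
  simp only [Fin.sum_univ_two, Derivation.add_apply, Derivation.smul_apply, smul_eq_mul]
  ring

theorem der_q (D : Derivation ℂ E E) (a b : E) :
    D (a * b * (a - b)) = (2 * a * b - b ^ 2) * D a + (a ^ 2 - 2 * a * b) * D b := by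
  simp only [Derivation.leibniz, map_sub, smul_eq_mul]
  ring

/-- the logarithmic one-forms -/
theorem log_forms {P : Place ℂ E} {a b : E} (ha : a ≠ 0) (hb : b ≠ 0) (hab : a - b ≠ 0)
    (h1 : a * b * (a - b) - 1 ≠ 0) (h2 : a * b * (a - b) - 2 ≠ 0) {D : Derivation ℂ E E}
    (hD : DerLog P D) :
    Ge P 0 (D (a * b * (a - b)) / ((a * b * (a - b) - 1) * (a * b * (a - b) - 2))) ∧
    Ge P 0 (a * b * (a - b) * D (a * b * (a - b)) /
      ((a * b * (a - b) - 1) * (a * b * (a - b) - 2))) ∧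
    Ge P 0 ((b * D a - a * D b) / (a * (a - b))) ∧
    Ge P 0 ((b * D a - a * D b) / (b * (a - b))) := by
  have hR : ∀ f : E, Ge P 0 (D f / f) := fun f => hD f
  obtain ⟨q, hq⟩ : ∃ q : E, q = a * b * (a - b) := ⟨_, rfl⟩
  rw [← hq] at h1 h2 ⊢
  have hD1 : D (q - 1) = D q := by rw [map_sub, Derivation.map_one_eq_zero, sub_zero]
  have hD2 : D (q - 2) = D q := by
    have h3 : (2 : E) = algebraMap ℂ E 2 := (map_ofNat _ 2).symm
    rw [map_sub, h3, Derivation.map_algebraMap, sub_zero]
  have g1 := hR (q - 1)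
  have g2 := hR (q - 2)
  rw [hD1] at g1
  rw [hD2] at g2
  have ga := hR a
  have gb := hR b
  have gc := hR (a - b)
  rw [map_sub] at gc
  refine ⟨?_, ?_, ?_, ?_⟩
  · have e : D q / ((q - 1) * (q - 2)) = D q / (q - 2) - D q / (q - 1) := by
      field_simp
      ring
    rw [e]
    exact g2.sub g1
  · have e : q * D q / ((q - 1) * (q - 2)) = (D q / (q - 2) + D q / (q - 2)) - D q / (q - 1) := by
      field_simp
      ring
    rw [e]
    exact (g2.add g2).sub g1
  · have e : (b * D a - a * D b) / (a * (a - b)) = (D a - D b) / (a - b) - D a / a := by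
      field_simp
      ring
    rw [e]
    exact gc.sub ga
  · have e : (b * D a - a * D b) / (b * (a - b)) = (D a - D b) / (a - b) - D b / b := by
      field_simp
      ring
    rw [e]
    exact gc.sub gb

theorem ge_const_mul {P : Place ℂ E} {f : E} (h : Ge P 0 f) (c : ℂ) :
    Ge P 0 (algebraMap ℂ E c * f) := by
  have := (Ge.const (P := P) c).mul h
  rwa [add_zero] at this

theorem ge_mul {P : Place ℂ E} {f g : E} (h : Ge P 0 f) (h' : Ge P 0 g) : Ge P 0 (f * g) := by
  have := h.mul h'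
  rwa [add_zero] at this

theorem aux1 {a b c N s0 s1 e0 e1 d : E} (h3 : (3 : E) ≠ 0) (ha : a ≠ 0) (hc : c ≠ 0)
    (hN : N ≠ 0) (hk : 3 * d * (a * b * c) = -(s0 * e1 - s1 * e0)) :
    b / N * d = -((s0 / N * (e1 / (a * c)) - s1 / N * (e0 / (a * c))) / 3) := by
  field_simp
  linear_combination hk

theorem aux2 {a b c N s0 s1 e0 e1 d : E} (h3 : (3 : E) ≠ 0) (ha : a ≠ 0) (hc : c ≠ 0)
    (hN : N ≠ 0) (hk : 3 * d * (a * b * c) = -(s0 * e1 - s1 * e0)) :
    a * b * c * b / N * d = -((a * b * c * s0 / N * (e1 / (a * c)) -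
      a * b * c * s1 / N * (e0 / (a * c))) / 3) := by
  field_simp
  linear_combination b * hk

/-- **The logarithmic two-forms.** -/
theorem tf_log {P : Place ℂ E} {a b : E} (ha : a ≠ 0) (hb : b ≠ 0) (hab : a - b ≠ 0)
    (h1 : a * b * (a - b) - 1 ≠ 0) (h2 : a * b * (a - b) - 2 ≠ 0) :
    LogAt P (tf a b (b / ((a * b * (a - b) - 1) * (a * b * (a - b) - 2)))) ∧
    LogAt P (tf a b (a / ((a * b * (a - b) - 1) * (a * b * (a - b) - 2)))) ∧
    LogAt P (tf a b (a * b * (a - b) * b / ((a * b * (a - b) - 1) * (a * b * (a - b) - 2)))) := by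
  have h3 : (3 : E) ≠ 0 := by
    have h3 : (3 : E) = algebraMap ℂ E 3 := (map_ofNat _ 3).symm
    rw [h3]
    exact (map_ne_zero _).2 three_ne_zero
  have hN : (a * b * (a - b) - 1) * (a * b * (a - b) - 2) ≠ 0 := mul_ne_zero h1 h2
  have key : ∀ (D : Fin 2 → Derivation ℂ E E),
      3 * (D 0 a * D 1 b - D 1 a * D 0 b) * (a * b * (a - b)) =
      -(D 0 (a * b * (a - b)) * (b * D 1 a - a * D 1 b) -
        D 1 (a * b * (a - b)) * (b * D 0 a - a * D 0 b)) := by
    intro D
    rw [der_q, der_q]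
    ring
  have hc : ∀ f : E, Ge P 0 f → Ge P 0 (-(f / 3)) := by
    intro f hf
    have e : -(f / 3) = algebraMap ℂ E (-(1 / 3)) * f := by
      rw [map_neg, map_div₀, map_one, map_ofNat]
      ring
    rw [e]
    exact ge_const_mul hf _
  refine ⟨fun D hD => ?_, fun D hD => ?_, fun D hD => ?_⟩
  · obtain ⟨u1, u2, u3, u4⟩ := log_forms ha hb hab h1 h2 (hD 0)
    obtain ⟨v1, v2, v3, v4⟩ := log_forms ha hb hab h1 h2 (hD 1)
    change Ge P 0 (_ * _)
    rw [aux1 h3 ha hab hN (key D)]
    exact hc _ ((ge_mul u1 v3).sub (ge_mul v1 u3))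
  · obtain ⟨u1, u2, u3, u4⟩ := log_forms ha hb hab h1 h2 (hD 0)
    obtain ⟨v1, v2, v3, v4⟩ := log_forms ha hb hab h1 h2 (hD 1)
    have hk := key D
    change Ge P 0 (_ * _)
    have e : a * b * (a - b) = b * a * (a - b) := by ring
    rw [aux1 (a := b) (b := a) (c := a - b) (N := (a * b * (a - b) - 1) * (a * b * (a - b) - 2))
      (s0 := D 0 (a * b * (a - b))) (s1 := D 1 (a * b * (a - b))) (e0 := b * D 0 a - a * D 0 b)
      (e1 := b * D 1 a - a * D 1 b) h3 hb hab hN (by rw [← e]; exact hk)]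
    exact hc _ ((ge_mul u1 v4).sub (ge_mul v1 u4))
  · obtain ⟨u1, u2, u3, u4⟩ := log_forms ha hb hab h1 h2 (hD 0)
    obtain ⟨v1, v2, v3, v4⟩ := log_forms ha hb hab h1 h2 (hD 1)
    change Ge P 0 (_ * _)
    rw [aux2 h3 ha hab hN (key D)]
    exact hc _ ((ge_mul u2 v3).sub (ge_mul v2 u3))

/-- the forms are regular where the coordinates are regular and `q ≠ 1, 2` -/
theorem tf_reg {P : Place ℂ E} {a b g : E} (ha : Ge P 0 a) (hb : Ge P 0 b) (hg : Ge P 0 g) :
    RegAt P (tf a b g) := by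
  intro D hD
  change Ge P 0 _
  unfold tf
  have hR : ∀ i f, Ge P 0 f → Ge P 0 (D i f) := fun i f hf => hD i f hf
  exact ge_mul hg ((ge_mul (hR 0 a ha) (hR 1 b hb)).sub (ge_mul (hR 1 a ha) (hR 0 b hb)))

/-- **The surface is of logarithmic general type.** -/
theorem surf_lgt {z : Fin 3 → E} (hgen : coords ℂ z = ⊤) (hoff : ∃ i, aeval z (surf i) ≠ 0)
    (ht : Algebra.trdeg ℂ E = (2 : ℕ)) : LogGeneralType ℂ E 2 fun P => Meets surf z P := by
  classical
  obtain ⟨h0, hq1, hq2⟩ := surf_ne hoff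
  obtain ⟨a, haz⟩ : ∃ a : E, a = z 1 / z 0 := ⟨_, rfl⟩
  obtain ⟨b, hbz⟩ : ∃ b : E, b = z 2 / z 0 := ⟨_, rfl⟩
  obtain ⟨q, hq⟩ : ∃ q : E, q = a * b * (a - b) := ⟨_, rfl⟩
  have hqz : q = z 1 * z 2 * (z 1 - z 2) / z 0 ^ 3 := by
    rw [hq, haz, hbz]
    field_simp
  have h1 : q - 1 ≠ 0 := by
    have e : q - 1 = (z 1 * z 2 * (z 1 - z 2) - z 0 ^ 3) / z 0 ^ 3 := by
      rw [hqz]
      field_simp
    rw [e]
    exact div_ne_zero hq1 (pow_ne_zero _ h0)
  have h2 : q - 2 ≠ 0 := by
    have e : q - 2 = (z 1 * z 2 * (z 1 - z 2) - 2 * z 0 ^ 3) / z 0 ^ 3 := by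
      rw [hqz]
      field_simp
    rw [e]
    exact div_ne_zero hq2 (pow_ne_zero _ h0)
  -- the coordinates are independent
  have hgen' : IntermediateField.adjoin ℂ (Set.range (![a, b] : Fin 2 → E)) = ⊤ := by
    rw [eq_top_iff, ← hgen, Pool.Agent.H916.coords_eq h0, IntermediateField.adjoin_le_iff]
    rintro _ ⟨i, rfl⟩
    fin_cases i
    · change z 0 / z 0 ∈ _
      rw [div_self h0]
      exact one_mem _
    · change z 1 / z 0 ∈ _
      rw [← haz]
      exact IntermediateField.subset_adjoin _ _ ⟨0, rfl⟩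
    · change z 2 / z 0 ∈ _
      rw [← hbz]
      exact IntermediateField.subset_adjoin _ _ ⟨1, rfl⟩
  have hbasis : IsTranscendenceBasis ℂ (![a, b] : Fin 2 → E) :=
    Pool.Agent.R885.basis_of_alg ⟨fun y => by
      have hy : y ∈ IntermediateField.adjoin ℂ (Set.range (![a, b] : Fin 2 → E)) := by
        rw [hgen']
        exact IntermediateField.mem_top
      exact isAlgebraic_algebraMap (⟨y, hy⟩ :
        IntermediateField.adjoin ℂ (Set.range (![a, b] : Fin 2 → E)))⟩ (by rw [ht]; simp)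
  have hind := hbasis.1
  have hpoly : ∀ G : MvPolynomial (Fin 2) ℂ, G ≠ 0 → aeval (![a, b] : Fin 2 → E) G ≠ 0 :=
    fun G hG h => hG (hind.eq_zero_of_aeval_eq_zero G h)
  have hev : ∀ (G : MvPolynomial (Fin 2) ℂ) (p : Fin 2 → ℂ), eval p G ≠ 0 → G ≠ 0 := by
    rintro G p hp rfl
    exact hp (map_zero _)
  have ha0 : a ≠ 0 := by
    have := hpoly (X 0) (hev _ ![1, 1] (by simp))
    rwa [aeval_X] at this
  have hb0 : b ≠ 0 := by
    have := hpoly (X 1) (hev _ ![1, 1] (by simp))
    rwa [aeval_X] at this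
  have hab : a - b ≠ 0 := by
    have := hpoly (X 0 - X 1) (hev _ ![1, 0] (by simp))
    rwa [map_sub, aeval_X, aeval_X] at this
  have hq0 : q ≠ 0 := by
    rw [hq]
    exact mul_ne_zero (mul_ne_zero ha0 hb0) hab
  obtain ⟨ω, hω⟩ : ∃ ω : Fin 3 → (Fin 2 → Derivation ℂ E E) → E,
      ω = ![tf a b (b / ((q - 1) * (q - 2))), tf a b (a / ((q - 1) * (q - 2))),
        tf a b (q * b / ((q - 1) * (q - 2)))] := ⟨_, rfl⟩
  have hw0 : ω 0 = tf a b (b / ((q - 1) * (q - 2))) := by rw [hω]; rfl
  have hw1 : ω 1 = tf a b (a / ((q - 1) * (q - 2))) := by rw [hω]; rfl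
  have hw2 : ω 2 = tf a b (q * b / ((q - 1) * (q - 2))) := by rw [hω]; rfl
  refine ⟨ht, 1, one_pos, ω, fun j => ?_, fun P _ j => ?_, fun P _ hP j => ?_, ?_⟩
  · fin_cases j
    · change IsPluri 1 (ω 0)
      rw [hw0]
      exact tf_pluri _ _ _
    · change IsPluri 1 (ω 1)
      rw [hw1]
      exact tf_pluri _ _ _
    · change IsPluri 1 (ω 2)
      rw [hw2]
      exact tf_pluri _ _ _
  · rw [hq] at h1 h2
    obtain ⟨l0, l1, l2⟩ := tf_log (P := P) ha0 hb0 hab h1 h2
    rw [← hq] at l0 l1 l2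
    fin_cases j
    · change LogAt P (ω 0)
      rw [hw0]
      exact l0
    · change LogAt P (ω 1)
      rw [hw1]
      exact l1
    · change LogAt P (ω 2)
      rw [hw2]
      exact l2
  · obtain ⟨⟨-, u0⟩, ⟨-, u1⟩, ⟨-, u2⟩⟩ := surf_units hP
    have hge : ∀ i : Fin 3, Ge P 0 (z i / z 0) := by
      intro i
      by_cases hi : z i = 0
      · left
        rw [hi, zero_div]
      · right
        rw [P.ord_div hi h0, u0]
        have := pord_le P hi
        omega
    have hga : Ge P 0 a := by rw [haz]; exact hge 1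
    have hgb : Ge P 0 b := by rw [hbz]; exact hge 2
    have ho1 : P.ord (q - 1) = 0 := by
      have e : q - 1 = (z 1 * z 2 * (z 1 - z 2) - z 0 ^ 3) / z 0 ^ 3 := by
        rw [hqz]
        field_simp
      rw [e, P.ord_div hq1 (pow_ne_zero _ h0), u1, P.ord_pow, u0]
      push_cast
      ring
    have ho2 : P.ord (q - 2) = 0 := by
      have e : q - 2 = (z 1 * z 2 * (z 1 - z 2) - 2 * z 0 ^ 3) / z 0 ^ 3 := by
        rw [hqz]
        field_simp
      rw [e, P.ord_div hq2 (pow_ne_zero _ h0), u2, P.ord_pow, u0]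
      push_cast
      ring
    have hinv : Ge P 0 ((q - 1) * (q - 2))⁻¹ := by
      right
      rw [P.ord_inv, P.ord_mul h1 h2, ho1, ho2]
      norm_num
    have hgq : Ge P 0 q := by
      rw [hq]
      exact ge_mul (ge_mul hga hgb) (hga.sub hgb)
    fin_cases j
    · change RegAt P (ω 0)
      rw [hw0, div_eq_mul_inv]
      exact tf_reg hga hgb (ge_mul hgb hinv)
    · change RegAt P (ω 1)
      rw [hw1, div_eq_mul_inv]
      exact tf_reg hga hgb (ge_mul hga hinv)
    · change RegAt P (ω 2)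
      rw [hw2, div_eq_mul_inv]
      exact tf_reg hga hgb (ge_mul (ge_mul hgq hgb) hinv)
  · obtain ⟨D, hD⟩ := Pool.Agent.TH466.QT.exists_dual_of_indep hind
    have d00 : D 0 a = 1 := by have := hD 0 0; simpa using this
    have d01 : D 0 b = 0 := by have := hD 0 1; simpa using this
    have d10 : D 1 a = 0 := by have := hD 1 0; simpa using this
    have d11 : D 1 b = 1 := by have := hD 1 1; simpa using this
    have hdet : ∀ g : E, tf a b g D = g := by
      intro g
      unfold tf
      rw [d00, d01, d10, d11]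
      ring
    have hden : (q - 1) * (q - 2) ≠ 0 := mul_ne_zero h1 h2
    refine ⟨D, ?_, ?_⟩
    · rw [hw0, hdet]
      exact div_ne_zero hb0 hden
    · have e : (fun i : Fin 2 => ω i.succ D / ω 0 D) = ![a / b, q] := by
        funext i
        fin_cases i
        · change ω 1 D / ω 0 D = a / b
          rw [hw1, hw0, hdet, hdet]
          field_simp
        · change ω 2 D / ω 0 D = q
          rw [hw2, hw0, hdet, hdet]
          field_simp
      rw [e]
      refine (Pool.Agent.R885.basis_of_alg (y := (![a / b, q] : Fin 2 → E)) ⟨fun y => ?_⟩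
        (by rw [ht]; simp)).1
      obtain ⟨F, hF⟩ : ∃ F, F = IntermediateField.adjoin ℂ (Set.range (![a / b, q] : Fin 2 → E)) :=
        ⟨_, rfl⟩
      rw [← hF]
      have hu : a / b ∈ F := by
        rw [hF]
        exact IntermediateField.subset_adjoin _ _ ⟨0, rfl⟩
      have hqF : q ∈ F := by
        rw [hF]
        exact IntermediateField.subset_adjoin _ _ ⟨1, rfl⟩
      have hbF : IsAlgebraic F b := by
        refine IsAlgebraic.of_pow (n := 3) (by norm_num) ?_
        have hu0 : a / b ≠ 0 := div_ne_zero ha0 hb0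
        have hu1 : a / b - 1 ≠ 0 := by
          have e : a / b - 1 = (a - b) / b := by field_simp
          rw [e]
          exact div_ne_zero hab hb0
        have e : b ^ 3 = q / (a / b * (a / b - 1)) := by
          rw [eq_div_iff (mul_ne_zero hu0 hu1), hq]
          field_simp
        rw [e]
        exact isAlgebraic_algebraMap (⟨_, div_mem hqF (mul_mem hu (sub_mem hu (one_mem _)))⟩ : F)
      have haF : IsAlgebraic F a := by
        have e : a = a / b * b := by field_simp
        rw [e]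
        exact (isAlgebraic_algebraMap (⟨_, hu⟩ : F)).mul hbF
      have h6 : IntermediateField.adjoin ℂ (Set.range (![a, b] : Fin 2 → E)) ≤
          (algebraicClosure F E).restrictScalars ℂ := by
        rw [IntermediateField.adjoin_le_iff]
        rintro _ ⟨i, rfl⟩
        fin_cases i
        · change a ∈ algebraicClosure F E
          rw [mem_algebraicClosure_iff]
          exact haF
        · change b ∈ algebraicClosure F E
          rw [mem_algebraicClosure_iff]
          exact hbF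
      exact mem_algebraicClosure_iff.1 (h6 (by rw [hgen']; exact IntermediateField.mem_top))

end Pool.Agent.H910.Lp
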