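import Pool.Agent.H910.Lp.Rat
import Pool.Agent.H910.Cf.Cls

/-!
Entire curves in quasi-projective varieties which are fibred by curves.
-/

set_option autoImplicit false
set_option linter.unusedSectionVars false
set_option linter.unusedVariables false
set_option linter.overlappingInstances false

open Filter Topology Set Metric

namespace Pool.Agent.H910.Lp

open FF
open Pool.Agent.W602.GT
open Pool.Agent.Y216 (OnVar)
open Pool.Agent.W603.LV (canDeg)
open Pool.Agent.W603.PV (pht pord exists_pord pord_le)
open Pool.Agent.Q103.SF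
open Pool.Agent.Q271.RC (Nonconst IsGeneric)
open Pool.Agent.H916 (InClosure Meets RMap LinearOff LogHypFibres FibreField cuspFun)
open Pool.Agent.H910.Cf
open Pool.Agent.W603.BP (Extends sin_point)
open Pool.Agent.W601.PH (sin_diff sin_not)

/-- the transcendence degree of a fibre -/
theorem exists_u {K : Type} [Field K] {C : Subfield K} {ι J : Type} {s : ι → J → K}
    (h : LogHypFibres C s) : ∃ u : K, ∀ z : K, IsAlgebraic (IntermediateField.adjoin C {u}) z := by
  rcases h with h | ⟨Ω, F, i1, i2, i3, i4, i5, hcomm, hF, hff, -⟩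
  · refine ⟨0, fun z => ?_⟩
    exact (h.isAlgebraic z).tower_top (K := C) _
  · have hex : ∃ u : K, Transcendental Ω (algebraMap K F u) := by
      by_contra hcon
      push Not at hcon
      have h1 : Algebra.IsAlgebraic Ω (IntermediateField.adjoin Ω
          (Set.range (algebraMap K F))) := by
        apply IntermediateField.isAlgebraic_adjoin
        rintro _ ⟨u, rfl⟩
        have h2 : ¬ Transcendental Ω (algebraMap K F u) := hcon u
        exact (not_not.1 h2).isIntegral
      obtain ⟨x, hx⟩ := IsFF.exists_transcendental (k := Ω) (K := F)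
      apply hx
      have h3 : x ∈ IntermediateField.adjoin Ω (Set.range (algebraMap K F)) := by
        rw [hF.gen]
        exact IntermediateField.mem_top
      have h4 := h1.isAlgebraic ⟨x, h3⟩
      exact (isAlgebraic_algHom_iff (IntermediateField.val _) Subtype.val_injective).2 h4
    obtain ⟨u, hu⟩ := hex
    refine ⟨u, fun z => ?_⟩
    have halgΩ := hF.alg
    -- the field `F` over `C`
    have t2 : IsScalarTower C K F := inferInstance
    have t1 : IsScalarTower C Ω F := IsScalarTower.of_algebraMap_eq fun c => hcomm c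
    have h1 : IsAlgebraic (IntermediateField.adjoin Ω {algebraMap K F u}) (algebraMap K F z) :=
      (IsFF.isAlgebraic hu).isAlgebraic _
    -- algebraic over the algebraic closure of `C(u)` in `F`
    let A := algebraicClosure (IntermediateField.adjoin C {algebraMap K F u}) F
    have h2 : ∀ w ∈ IntermediateField.adjoin Ω {algebraMap K F u}, w ∈ A := by
      intro w hw
      refine IntermediateField.adjoin_induction Ω (p := fun w _ => w ∈ A) ?_ ?_ ?_ ?_ ?_ hw
      · intro w hw
        rw [Set.mem_singleton_iff.1 hw]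
        rw [mem_algebraicClosure_iff]
        exact isAlgebraic_algebraMap (⟨algebraMap K F u,
          IntermediateField.subset_adjoin _ _ rfl⟩ : IntermediateField.adjoin C {algebraMap K F u})
      · intro c
        rw [mem_algebraicClosure_iff]
        have h5 : IsAlgebraic C (algebraMap Ω F c) := (halgΩ.isAlgebraic c).algebraMap
        exact h5.tower_top _
      · intro a b _ _ ha hb
        exact A.add_mem ha hb
      · intro a _ ha
        exact A.inv_mem ha
      · intro a b _ _ ha hb
        exact A.mul_mem ha hb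
    have h3 : IsAlgebraic A (algebraMap K F z) := by
      obtain ⟨p, hp, hpz⟩ := h1
      let φ : IntermediateField.adjoin Ω {algebraMap K F u} →+* A :=
        (algebraMap (IntermediateField.adjoin Ω {algebraMap K F u}) F).codRestrict A
          fun y => h2 y y.2
      refine ⟨p.map φ, ?_, ?_⟩
      · rw [Ne, Polynomial.map_eq_zero]
        exact hp
      · rw [Polynomial.aeval_def, Polynomial.eval₂_map, ← hpz, Polynomial.aeval_def]
        rfl
    have h4 : IsAlgebraic (IntermediateField.adjoin C {algebraMap K F u})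
        (algebraMap K F z) := by
      have h6 : Algebra.IsAlgebraic (IntermediateField.adjoin C {algebraMap K F u}) A :=
        algebraicClosure.isAlgebraic _ _
      exact IsAlgebraic.restrictScalars _ h3
    -- descend to `K`
    have h5 : (IntermediateField.adjoin C {u}).map (IsScalarTower.toAlgHom C K F) =
        IntermediateField.adjoin C {algebraMap K F u} := by
      rw [IntermediateField.adjoin_map]
      congr 1
      exact Set.image_singleton
    obtain ⟨p, hp, hpz⟩ := h4
    let e := (IntermediateField.adjoin C {u}).equivMap (IsScalarTower.toAlgHom C K F)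
    let e2 : IntermediateField.adjoin C {algebraMap K F u} ≃+* IntermediateField.adjoin C {u} :=
      ((IntermediateField.equivOfEq h5).toRingEquiv.symm.trans e.toRingEquiv.symm)
    have he2 : ∀ w, algebraMap K F (e2 w : K) = (w : F) := by
      intro w
      have h6 : ∀ y : (IntermediateField.adjoin C {u}).map (IsScalarTower.toAlgHom C K F),
          algebraMap K F (e.symm y : K) = (y : F) := by
        intro y
        have h7 := congrArg Subtype.val (e.apply_symm_apply y)
        exact h7
      exact h6 _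
    refine ⟨p.map e2.toRingHom, ?_, ?_⟩
    · rw [Ne, Polynomial.map_eq_zero]
      exact hp
    · apply (algebraMap K F).injective
      rw [map_zero, ← hpz, Polynomial.aeval_def, Polynomial.aeval_def, Polynomial.eval₂_map,
        Polynomial.hom_eval₂]
      congr 1
      ext w
      exact he2 w

variable {M : ℕ} {K : Type} [Field K] [Algebra ℂ K] {x : Fin (M + 1) → K} {ι : Type}
  {Q : ι → MvPolynomial (Fin (M + 1)) ℂ}

theorem entire_disc {f : ℂ → Fin (M + 1) → ℂ} (hf : Entire x Q f) :
    PDisc x Q (fun w => f (Complex.sin w⁻¹)) ∧ ¬ Extends fun w => f (Complex.sin w⁻¹) := by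
  have hd : Differentiable ℂ f := differentiable_pi.2 hf.hol
  refine ⟨⟨fun i => differentiableOn_pi.1 (sin_diff hd) i, fun t _ => hf.ne _,
    fun G hG hx t _ => hf.mem G hG hx _, fun t _ => hf.off _⟩, ?_⟩
  obtain ⟨z1, z2, h12⟩ := hf.nonconst
  exact sin_not hd hf.ne ⟨z1, z2, h12⟩

/-- **The closure of an entire curve in a quasi-projective variety.** -/
theorem entire_sub' (hQ : ∀ i, IsForm (Q i)) {f : ℂ → Fin (M + 1) → ℂ} (hf : Entire x Q f) :
    ∃ (E : Type) (_ : Field E) (_ : Algebra ℂ E) (z : Fin (M + 1) → E) (t : ℕ), OnVar ℂ x z ∧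
      coords ℂ z = ⊤ ∧ (∃ i, MvPolynomial.aeval z (Q i) ≠ 0) ∧
      Algebra.trdeg ℂ E = t ∧ 1 ≤ t ∧
      (∀ G : MvPolynomial (Fin (M + 1)) ℂ, IsForm G →
        (val z G = 0 ↔ ∀ t, MvPolynomial.eval (f t) G = 0)) ∧
      (t = 1 → ∀ _ : IsFF ℂ E,
        canDeg ℂ E + {P : Place ℂ E | Meets Q z P}.ncard ≤ 0) := by
  obtain ⟨h1, h2⟩ := entire_disc hf
  obtain ⟨E, i1, i2, z, t, hz, hgen, hoff, ht, ht1, hiff, hlow⟩ := disc_sub' hQ h1 h2
  refine ⟨E, i1, i2, z, t, hz, hgen, hoff, ht, ht1, fun G hG => ?_, fun h hff => ?_⟩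
  · rw [hiff G hG]
    constructor
    · intro h t
      obtain ⟨w, hw, hws⟩ := sin_point t
      have h3 := h w hw
      simp only [hws] at h3
      exact h3
    · intro h w _
      exact h _
  · by_contra hcon
    rw [not_le] at hcon
    have hfin := meets_fin hz.1 hoff
    have h3 := Pool.Agent.Q96.LS.lgt_one hfin.toFinset (by
      rw [← Set.ncard_eq_toFinset_card _ hfin]
      exact hcon)
    apply hlow h hff
    have h4 : (fun P => P ∈ hfin.toFinset) = fun P => Meets Q z P := by
      funext P
      rw [Set.Finite.mem_toFinset]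
      rfl
    rwa [h4] at h3

/-- The image under the rational map `y` of every entire curve in `X ∖ D`, not contained in a proper
closed subset of `X`, is a point. -/
def ConstOn {N : ℕ} (x : Fin (M + 1) → K) {ι : Type} (Q : ι → MvPolynomial (Fin (M + 1)) ℂ)
    (y : Fin (N + 1) → K) : Prop :=
  ∀ (j0 : Fin (N + 1)) (e : ℕ) (H : Fin (N + 1) → MvPolynomial (Fin (M + 1)) ℂ), RMap x y j0 e H →
    ∃ G : MvPolynomial (Fin (M + 1)) ℂ, IsForm G ∧ val x G ≠ 0 ∧
      ∀ f, Entire x Q f → (∃ t, MvPolynomial.eval (f t) G ≠ 0) →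
        (∃ t, MvPolynomial.eval (f t) (H j0) ≠ 0) ∧
        ∀ i j a b, MvPolynomial.eval (f a) (H i) * MvPolynomial.eval (f b) (H j) =
          MvPolynomial.eval (f a) (H j) * MvPolynomial.eval (f b) (H i)

theorem ram_constOn {n : ℕ} {y : Fin (n + 2) → K} (h : Ram ℂ x Q y) : ConstOn x Q y :=
  fun j0 e H hR => Ram.entire h hR

/-- **Entire curves in varieties which are fibred by curves.** -/
theorem brody_fib [Finite ι] (hx : x ≠ 0) (hgen : coords ℂ x = ⊤) (hQ : ∀ i, IsForm (Q i))
    (hQx : ∃ i, MvPolynomial.aeval x (Q i) ≠ 0) {r : ℕ} {N : Fin r → ℕ}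
    {y : ∀ l, Fin (N l + 1) → K} (hy : ∀ l, y l ≠ 0)
    (hfib : LogHypFibres (⨆ l, coords ℂ (y l)).toSubfield (cuspFun x Q))
    (hB : ∀ l, HB ℂ x Q (y l)) (hC : ∀ l, ConstOn x Q (y l)) :
    ∃ G : MvPolynomial (Fin (M + 1)) ℂ, IsForm G ∧ val x G ≠ 0 ∧ BrodyOff x Q G ∧ ∃ A : ℕ,
      ∀ (E : Type) [Field E] [Algebra ℂ E] [IsFF ℂ E] (f : Fin (M + 1) → E), OnVar ℂ x f →
        Nonconst f → val f G ≠ 0 → (∃ i, MvPolynomial.aeval f (Q i) ≠ 0) →
          pht ℂ f ≤ A * (canDeg ℂ E + {P : Place ℂ E | Meets Q f P}.ncard) := by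
  classical
  obtain ⟨G1, hG1, hG1x, A, hA⟩ := strong_of_linear hQ
    (linear_of_hb hx hgen hQ hQx hy hfib hB)
  obtain ⟨u, hu⟩ := exists_u hfib
  -- the extended family
  let N' : Fin (r + 1) → ℕ := Fin.cons 1 N
  let y' : ∀ s : Fin (r + 1), Fin (N' s + 1) → K :=
    Fin.cons (α := fun s : Fin (r + 1) => Fin (N' s + 1) → K) (![1, u] : Fin 2 → K) y
  have hy' : ∀ s, y' s ≠ 0 := by
    refine Fin.cases ?_ fun l => ?_
    · intro h0
      have := congrFun h0 0
      exact one_ne_zero this
    · exact hy l
  obtain ⟨R, Y, e, H, c, j, hY0, hYC, hR, hRl, hj0, hs⟩ := exists_comb hx hgen hy'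
  have hu_mem : u ∈ coords ℂ Y := by
    rw [hYC]
    have h1 : coords ℂ (y' 0) ≤ ⨆ s, coords ℂ (y' s) := le_iSup (fun s => coords ℂ (y' s)) 0
    apply h1
    refine IntermediateField.subset_adjoin _ _ ⟨1, 0, one_ne_zero, ?_⟩
    change u = u / 1
    rw [div_one]
  have hC_le : (⨆ l, coords ℂ (y l)) ≤ coords ℂ Y := by
    rw [hYC]
    exact iSup_le fun l => le_iSup (fun s => coords ℂ (y' s)) l.succ
  have halg : Algebra.IsAlgebraic (coords ℂ Y) K := by
    constructor
    intro z
    obtain ⟨p, hp, hpz⟩ := hu z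
    have hmem : ∀ w ∈ IntermediateField.adjoin (⨆ l, coords ℂ (y l)).toSubfield ({u} : Set K),
        w ∈ coords ℂ Y := by
      intro w hw
      refine IntermediateField.adjoin_induction (⨆ l, coords ℂ (y l)).toSubfield
        (p := fun w _ => w ∈ coords ℂ Y) ?_ ?_ ?_ ?_ ?_ hw
      · intro w hw
        rw [Set.mem_singleton_iff.1 hw]
        exact hu_mem
      · intro c
        exact hC_le c.2
      · intro a b _ _ ha hb
        exact (coords ℂ Y).add_mem ha hb
      · intro a _ ha
        exact (coords ℂ Y).inv_mem ha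
      · intro a b _ _ ha hb
        exact (coords ℂ Y).mul_mem ha hb
    let φ : IntermediateField.adjoin (⨆ l, coords ℂ (y l)).toSubfield ({u} : Set K) →+*
        coords ℂ Y := (algebraMap _ K).codRestrict (coords ℂ Y) fun w => hmem w w.2
    refine ⟨p.map φ, ?_, ?_⟩
    · rw [Ne, Polynomial.map_eq_zero]
      exact hp
    · rw [Polynomial.aeval_def, Polynomial.eval₂_map, ← hpz, Polynomial.aeval_def]
      rfl
  obtain ⟨G2, hG2, hG2x, hcl⟩ := alg_close hx hgen (fun h0 => hY0 (congrFun h0 0)) halg
  choose G3 hG3 hG3x hmain using fun l : Fin r => hC l (j l.succ) e (fun a => H (c l.succ a))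
    (hRl l.succ)
  refine ⟨G1 * G2 * H 0 * ∏ l, G3 l, Pool.Agent.H916.isForm_mul0
    (Pool.Agent.H916.isForm_mul0 (Pool.Agent.H916.isForm_mul0 hG1 hG2) ⟨e, hR.hom 0⟩)
    (fin_isForm_prod hG3), ?_, ?_, A, fun E _ _ _ f hf hnc hfG hoff => ?_⟩
  · rw [Pool.Agent.H916.val_mul_ne0, Pool.Agent.H916.val_mul_ne0, Pool.Agent.H916.val_mul_ne0,
      Pool.Agent.H916.val_prod_ne0]
    exact ⟨⟨⟨hG1x, hG2x⟩, hR.ne⟩, hG3x⟩
  · -- entire curves
    intro f hf
    by_contra hcon
    push Not at hcon
    obtain ⟨t0, ht0⟩ := hcon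
    rw [map_mul, map_mul, map_mul, map_prod] at ht0
    have hne4 := right_ne_zero_of_mul ht0
    have hne3 := right_ne_zero_of_mul (left_ne_zero_of_mul ht0)
    have hne2 := right_ne_zero_of_mul (left_ne_zero_of_mul (left_ne_zero_of_mul ht0))
    have hne1 := left_ne_zero_of_mul (left_ne_zero_of_mul (left_ne_zero_of_mul ht0))
    obtain ⟨E, i1, i2, z, t, hz, hzgen, hoff, htr, ht1, hiff, hlow⟩ := entire_sub' hQ hf
    have hval : ∀ G : MvPolynomial (Fin (M + 1)) ℂ, IsForm G →
        MvPolynomial.eval (f t0) G ≠ 0 → val z G ≠ 0 := fun G hG h h0 =>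
      h ((hiff G hG).1 h0 t0)
    have hzH : MvPolynomial.aeval z (H 0) ≠ 0 := hval _ ⟨e, hR.hom 0⟩ hne3
    obtain ⟨b, hb⟩ := hz.1
    have hclo : InClosure ℂ x Y z fun s => MvPolynomial.aeval z (H s) :=
      ⟨b, 0, hb, hzH, (hR.graph hz hb hzH).2.2⟩
    have hzj : ∀ s, MvPolynomial.aeval z (H (c s (j s))) = MvPolynomial.aeval z (H 0) := by
      intro s
      have h1 := hz.2 (H (c s (j s)) - H 0) ⟨e, (hR.hom _).sub (hR.hom _)⟩ (by
        unfold Pool.Agent.W602.GT.val
        rw [map_sub, hj0, sub_self])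
      unfold Pool.Agent.W602.GT.val at h1
      rw [map_sub, sub_eq_zero] at h1
      exact h1
    have hlin : ∀ (a b : Fin (R + 1)) (α β : ℂ),
        IsForm (MvPolynomial.C α * H a - MvPolynomial.C β * H b) := by
      intro a b α β
      refine ⟨e, MvPolynomial.IsHomogeneous.sub ?_ ?_⟩
      · have := (MvPolynomial.isHomogeneous_C (Fin (M + 1)) α).mul (hR.hom a)
        rwa [zero_add] at this
      · have := (MvPolynomial.isHomogeneous_C (Fin (M + 1)) β).mul (hR.hom b)
        rwa [zero_add] at this
    -- the images in the first factors are constant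
    have hconst : ∀ (l : Fin r) (a : Fin (N l + 1)), ∃ α : ℂ,
        MvPolynomial.aeval z (H (c l.succ a)) / MvPolynomial.aeval z (H 0) =
          algebraMap ℂ E α := by
      intro l a
      obtain ⟨⟨t1, ht1⟩, hcc⟩ := hmain l f hf ⟨t0, Finset.prod_ne_zero_iff.1 hne4 l
        (Finset.mem_univ l)⟩
      obtain ⟨p, hp⟩ : ∃ p, p = MvPolynomial.eval (f t1) (H (c l.succ (j l.succ))) := ⟨_, rfl⟩
      obtain ⟨q, hq⟩ : ∃ q, q = MvPolynomial.eval (f t1) (H (c l.succ a)) := ⟨_, rfl⟩
      have hp0 : p ≠ 0 := by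
        rw [hp]
        exact ht1
      refine ⟨q / p, ?_⟩
      have h0 := (hiff _ (hlin (c l.succ a) (c l.succ (j l.succ)) p q)).2 (fun t => by
        rw [map_sub, map_mul, map_mul, MvPolynomial.eval_C, MvPolynomial.eval_C, hp, hq]
        have h1 := hcc a (j l.succ) t t1
        linear_combination h1)
      unfold Pool.Agent.W602.GT.val at h0
      rw [map_sub, map_mul, map_mul, MvPolynomial.aeval_C, MvPolynomial.aeval_C, hzj,
        sub_eq_zero] at h0
      rw [map_div₀, div_eq_div_iff hzH ((_root_.map_ne_zero _).2 hp0)]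
      linear_combination h0
    -- the transcendence degree
    have ht : t ≤ 1 := by
      obtain ⟨a', ha'⟩ : ∃ a' : Fin (N' 0 + 1), ∀ a : Fin (N' 0 + 1), a = j 0 ∨ a = a' := by
        have h2 : ∀ i : Fin 2, ∃ a' : Fin 2, ∀ a : Fin 2, a = i ∨ a = a' := by decide
        exact h2 (j 0)
      obtain ⟨w, hw⟩ : ∃ w : E, w = MvPolynomial.aeval z (H (c 0 a')) /
        MvPolynomial.aeval z (H 0) := ⟨_, rfl⟩
      have h1 : coords ℂ (fun s => MvPolynomial.aeval z (H s)) ≤
          IntermediateField.adjoin ℂ {w} := by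
        rw [Pool.Agent.H916.coords_eq (x := fun s => MvPolynomial.aeval z (H s)) (i0 := 0) hzH,
          IntermediateField.adjoin_le_iff]
        rintro _ ⟨s, rfl⟩
        change MvPolynomial.aeval z (H s) / MvPolynomial.aeval z (H 0) ∈ _
        rcases hs s with rfl | ⟨l, a, rfl⟩
        · rw [div_self hzH]
          exact one_mem _
        · revert a
          refine Fin.cases (motive := fun l => ∀ a : Fin (N' l + 1),
            MvPolynomial.aeval z (H (c l a)) / MvPolynomial.aeval z (H 0) ∈
              IntermediateField.adjoin ℂ {w}) ?_ (fun l a => ?_) l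
          · intro a
            rcases ha' a with rfl | rfl
            · rw [hzj, div_self hzH]
              exact one_mem _
            · rw [← hw]
              exact IntermediateField.mem_adjoin_simple_self ℂ w
          · obtain ⟨α, hα⟩ := hconst l a
            rw [hα]
            exact IntermediateField.algebraMap_mem _ _
      have h2 : Algebra.IsAlgebraic (IntermediateField.adjoin ℂ {w}) E := by
        constructor
        intro v
        have h3 : ∀ v ∈ coords ℂ z, v ∈ algebraicClosure (IntermediateField.adjoin ℂ {w}) E := by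
          intro v hv
          have h4 : coords ℂ z ≤ (algebraicClosure (IntermediateField.adjoin ℂ {w}) E).restrictScalars
              ℂ := by
            unfold Pool.Agent.W602.GT.coords
            rw [IntermediateField.adjoin_le_iff]
            rintro _ ⟨i, k, hk, rfl⟩
            change z i / z k ∈ algebraicClosure (IntermediateField.adjoin ℂ {w}) E
            rw [mem_algebraicClosure_iff]
            obtain ⟨p, hp, hpz⟩ := hcl E z _ hclo (hval G2 hG2 hne2) i k hk
            refine ⟨p.map (IntermediateField.inclusion h1).toRingHom, ?_, ?_⟩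
            · rw [Ne, Polynomial.map_eq_zero]
              exact hp
            · rw [← hpz, Polynomial.aeval_def, Polynomial.eval₂_map, Polynomial.aeval_def]
              rfl
          exact h4 hv
        exact mem_algebraicClosure_iff.1 (h3 v (by rw [hzgen]; exact IntermediateField.mem_top))
      have h3 := Pool.Agent.W602.GT.alg_adjoin h2
      have h5 : Algebra.trdeg ℂ E ≤ Cardinal.mk ({w} : Set E) :=
        Algebra.IsAlgebraic.trdeg_le_cardinalMk ℂ ({w} : Set E)
      rw [htr, Cardinal.mk_singleton] at h5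
      exact_mod_cast h5
    obtain rfl : t = 1 := by omega
    have hff : IsFF ℂ E := ⟨Pool.Agent.Q72.NA.ess_of_adjoin hzgen, by rw [htr]; simp⟩
    have hnc : Nonconst z := Pool.Agent.Q96.LS.nonconst_of ⟨hz.1, hzgen⟩ htr
    have h2 := hA E z hz hnc (hval G1 hG1 hne1) hoff
    have h3 := Pool.Agent.Q96.LS.pht_pos z hnc
    have h4 := hlow rfl hff
    have h5 := mul_nonpos_of_nonneg_of_nonpos (Int.natCast_nonneg A) h4
    omega
  · rw [Pool.Agent.H916.val_mul_ne0, Pool.Agent.H916.val_mul_ne0,
      Pool.Agent.H916.val_mul_ne0] at hfG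
    exact hA E f hf hnc hfG.1.1.1 hoff

end Pool.Agent.H910.Lp
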