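import Pool.Graph.R_pool_sql_team_seeded_3997aac3.Q285.SFG.Gpc

/-!
Picard's theorem for curves of logarithmic general type. The proof is that of the library for curves
of general type (`Pool.Agent.Q285.SFG.gpc`), with logarithmic poles at the boundary.
-/

set_option autoImplicit false
set_option linter.unusedSectionVars false
set_option linter.unusedVariables false

namespace Pool.Agent.H910.Lp

open FF
open Pool.Agent.W602.GT
open Pool.Agent.W603.LV
open Pool.Agent.Q96.HE (pluri_smul ord_form)
open Pool.Agent.Q285.SFG (unif_ne_zero)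

section curve

variable {E : Type} [Field E] [Algebra ℂ E] [IsFF ℂ E]

open Classical in
/-- the order of the derivation `der` at `P`, diminished by one at the points of the boundary -/
noncomputable def wo (Bd : Place ℂ E → Prop) (P : Place ℂ E) : ℤ :=
  vo P (der ℂ E) - if Bd P then 1 else 0

/-- the functions and the form on a curve of log general type -/
theorem exists_data {Bd : Place ℂ E → Prop} (hfin : {P | Bd P}.Finite)
    (h : LogGeneralType ℂ E 1 Bd) :
    ∃ (n N' : ℕ) (u : Fin (n + 1) → E) (s x : E), u 0 = 1 ∧ (∀ i, u i ≠ 0) ∧ s ≠ 0 ∧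
      Transcendental ℂ x ∧ (∃ i, u i = x) ∧
      (∀ (P : Place ℂ E) (i : Fin (n + 1)), N' * wo Bd P ≤ P.ord (s * u i)) ∧
      (∀ P : Place ℂ E, ∃ j, der ℂ E (u j) ≠ 0 ∧
        P.ord (der ℂ E (u j) / u j) ≤ wo Bd P) := by
  classical
  obtain ⟨-, N, hN, ω, hpl, hlog, hreg, D, hD0, hai⟩ := h
  have hder : der ℂ E ≠ 0 := der_ne
  set D0 := der ℂ E with hD0d
  obtain ⟨r, hr⟩ := der_smul (D' := D 0) hder
  have hDr : D = fun _ => r • D0 := by
    funext i
    rw [Subsingleton.elim i 0, hr]
  have hval : ∀ j, ω j D = r ^ N * ω j (fun _ => D0) := by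
    intro j
    rw [hDr]
    exact pluri_smul (hpl j) _ _
  have hr0 : r ^ N ≠ 0 := by
    intro h
    apply hD0
    rw [hval, h, zero_mul]
  have hg0 : ω 0 (fun _ => D0) ≠ 0 := by
    intro h
    apply hD0
    rw [hval, h, mul_zero]
  have htr : Transcendental ℂ (ω 1 (fun _ => D0) / ω 0 (fun _ => D0)) := by
    rw [algebraicIndependent_unique_type_iff] at hai
    have h1 : ω (Fin.succ default) D / ω 0 D = ω 1 (fun _ => D0) / ω 0 (fun _ => D0) := by
      rw [hval, hval, mul_div_mul_left _ _ hr0]
      rfl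
    rw [h1] at hai
    exact hai
  have hw : ∀ P, wo Bd P = vo P D0 - if Bd P then 1 else 0 := fun P => by
    unfold wo
    congr
  have hge : ∀ j P, Ge P (N * wo Bd P) (ω j fun _ => D0) := by
    intro j P
    by_cases h0 : ω j (fun _ => D0) = 0
    · exact Or.inl h0
    right
    obtain ⟨h1, h2⟩ := ord_form (hpl j) P hder h0 (hlog P (divisorial_one P) j)
    rw [hw]
    split_ifs with hB
    · linarith
    · rw [sub_zero]
      exact h2 (hreg P (divisorial_one P) hB j)
  -- a form which vanishes at a given place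
  have hvan : ∀ P : Place ℂ E, ∃ g : E, g ≠ 0 ∧ N * wo Bd P + 1 ≤ P.ord g ∧
      ∀ Q : Place ℂ E, N * wo Bd Q ≤ Q.ord g := by
    intro P
    by_cases h1 : N * wo Bd P + 1 ≤ P.ord (ω 0 fun _ => D0)
    · exact ⟨_, hg0, h1, fun Q => (hge 0 Q).resolve_left hg0⟩
    · have h2 := (hge 0 P).resolve_left hg0
      have h3 : P.ord (ω 0 fun _ => D0) = N * wo Bd P := by
        rw [not_le] at h1
        exact le_antisymm (Int.lt_add_one_iff.1 h1) h2
      have h4 : Ge P 0 (ω 1 (fun _ => D0) / ω 0 (fun _ => D0)) := by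
        by_cases h5 : ω 1 (fun _ => D0) = 0
        · left
          rw [h5, zero_div]
        · right
          rw [P.ord_div h5 hg0, h3]
          have := (hge 1 P).resolve_left h5
          linarith
      obtain ⟨c, hc⟩ := exists_const P h4
      have hne : ω 1 (fun _ => D0) / ω 0 (fun _ => D0) - algebraMap ℂ E c ≠ 0 := by
        intro h6
        apply htr
        rw [sub_eq_zero.1 h6]
        exact isAlgebraic_algebraMap c
      refine ⟨ω 0 (fun _ => D0) * (ω 1 (fun _ => D0) / ω 0 (fun _ => D0) - algebraMap ℂ E c),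
        mul_ne_zero hg0 hne, ?_, fun Q => ?_⟩
      · rw [P.ord_mul hg0 hne, h3]
        have := hc.resolve_left hne
        linarith
      · have e : ω 0 (fun _ => D0) *
            (ω 1 (fun _ => D0) / ω 0 (fun _ => D0) - algebraMap ℂ E c) =
            ω 1 (fun _ => D0) - algebraMap ℂ E c * ω 0 (fun _ => D0) := by
          field_simp
        have h8 : Ge Q (N * wo Bd Q) (algebraMap ℂ E c * ω 0 (fun _ => D0)) := by
          have := (Ge.const (P := Q) c).mul (hge 0 Q)
          rwa [zero_add] at this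
        have h7 := (hge 1 Q).sub h8
        rw [← e] at h7
        exact h7.resolve_left (mul_ne_zero hg0 hne)
  choose hf hf0 hfP hfQ using hvan
  -- the functions
  obtain ⟨x, hx⟩ := IsFF.exists_transcendental (k := ℂ) (K := E)
  have hDx : D0 x ≠ 0 := der_ne_zero hder hx
  have hx0 : x ≠ 0 := by
    rintro rfl
    exact hx isAlgebraic_zero
  obtain ⟨T1, hT1⟩ := exists_supp (k := ℂ) (Finset.univ : Finset (Fin 2)) ![x, D0 x]
  obtain ⟨T0, hT0⟩ : ∃ T0, T0 = T1 ∪ (vo_finite hder).toFinset ∪ hfin.toFinset := ⟨_, rfl⟩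
  have hout : ∀ P, P ∉ T0 → P.ord x = 0 ∧ P.ord (D0 x) = 0 ∧ wo Bd P = 0 := by
    intro P hP
    rw [hT0, Finset.mem_union, Finset.mem_union, not_or, not_or, Set.Finite.mem_toFinset,
      Set.Finite.mem_toFinset] at hP
    refine ⟨?_, ?_, ?_⟩
    · by_contra hcon
      exact hP.1.1 (hT1 0 (Finset.mem_univ _) P hcon)
    · by_contra hcon
      exact hP.1.1 (hT1 1 (Finset.mem_univ _) P hcon)
    · rw [hw, if_neg (show ¬ Bd P from hP.2), sub_zero]
      by_contra hcon
      exact hP.1.2 hcon
  obtain ⟨l, hl⟩ : ∃ l : List E, l = x :: T0.toList.map unif := ⟨_, rfl⟩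
  let u : Fin (l.length + 1) → E := fun i => (1 :: l).get i
  have hmem : ∀ y ∈ l, ∃ i, u i = y := by
    intro y hy
    obtain ⟨i, hi⟩ := List.mem_iff_get.1 (List.mem_cons_of_mem 1 hy)
    exact ⟨i, hi⟩
  have hxl : x ∈ l := by
    rw [hl]
    exact List.mem_cons_self
  have hPl : ∀ P ∈ T0, unif P ∈ l := by
    intro P hP
    rw [hl]
    exact List.mem_cons_of_mem _ (List.mem_map.2 ⟨P, Finset.mem_toList.2 hP, rfl⟩)
  have hu0 : ∀ i, u i ≠ 0 := by
    intro i
    have h1 : u i ∈ 1 :: l := List.get_mem _ _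
    rw [List.mem_cons] at h1
    rcases h1 with h1 | h1
    · rw [h1]
      exact one_ne_zero
    · rw [hl, List.mem_cons] at h1
      rcases h1 with h1 | h1
      · rw [h1]
        exact hx0
      · obtain ⟨P, -, hP⟩ := List.mem_map.1 h1
        rw [← hP]
        exact unif_ne_zero P
  -- the form
  obtain ⟨T, hT⟩ := exists_supp (k := ℂ) (Finset.univ : Finset (Fin (l.length + 1))) u
  obtain ⟨m, hm⟩ : ∃ m : ℕ, m = ∑ P ∈ T, ∑ i, (P.ord (u i)).natAbs := ⟨_, rfl⟩
  have hle : ∀ (Q : Place ℂ E) i, -(if Q ∈ T then (m : ℤ) else 0) ≤ Q.ord (u i) := by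
    intro Q i
    split_ifs with hQ
    · have h1 : (Q.ord (u i)).natAbs ≤ m := by
        rw [hm]
        refine le_trans ?_ (Finset.single_le_sum (f := fun P : Place ℂ E =>
          ∑ i, (P.ord (u i)).natAbs) (fun _ _ => Nat.zero_le _) hQ)
        exact Finset.single_le_sum (f := fun i => (Q.ord (u i)).natAbs)
          (fun _ _ => Nat.zero_le _) (Finset.mem_univ i)
      omega
    · have h1 : Q.ord (u i) = 0 := by
        by_contra hcon
        exact hQ (hT i (Finset.mem_univ _) Q hcon)
      omega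
  refine ⟨l.length, T.card * (m * N), u, ∏ P ∈ T, hf P ^ m, x, rfl, hu0,
    Finset.prod_ne_zero_iff.2 fun P _ => pow_ne_zero _ (hf0 P), hx, hmem x hxl, fun Q i => ?_,
    fun P => ?_⟩
  · have h1 : Ge Q (∑ P ∈ T, ((m : ℤ) * (N * wo Bd Q) + if P = Q then (m : ℤ) else 0))
        (∏ P ∈ T, hf P ^ m) := by
      refine Ge.prod T _ _ fun P _ => ?_
      right
      rw [Q.ord_pow]
      split_ifs with hPQ
      · subst hPQ
        have := mul_le_mul_of_nonneg_left (hfP P) (Int.natCast_nonneg m)
        linarith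
      · have := mul_le_mul_of_nonneg_left (hfQ P Q) (Int.natCast_nonneg m)
        linarith
    have hs0 : ∏ P ∈ T, hf P ^ m ≠ 0 :=
      Finset.prod_ne_zero_iff.2 fun P _ => pow_ne_zero _ (hf0 P)
    have h2 := h1.resolve_left hs0
    rw [Finset.sum_add_distrib, Finset.sum_const, Finset.sum_ite_eq', nsmul_eq_mul] at h2
    rw [Q.ord_mul hs0 (hu0 i)]
    have h3 := hle Q i
    push_cast
    have e : (T.card : ℤ) * (m * N) * wo Bd Q = T.card * (m * (N * wo Bd Q)) := by ring
    rw [e]
    linarith
  · by_cases hP : P ∈ T0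
    · obtain ⟨j, hj⟩ := hmem _ (hPl P hP)
      have h1 : P.ord (unif P) ≠ 0 := by
        rw [ord_unif]
        exact one_ne_zero
      obtain ⟨h2, h3⟩ := ord_der P hder h1
      refine ⟨j, ?_, ?_⟩
      · rw [hj]
        exact h2
      · rw [hj, P.ord_div h2 (unif_ne_zero P), h3, ord_unif, hw]
        split_ifs <;> linarith
    · obtain ⟨j, hj⟩ := hmem _ hxl
      obtain ⟨h1, h2, h3⟩ := hout P hP
      refine ⟨j, ?_, ?_⟩
      · rw [hj]
        exact hDx
      · rw [hj, P.ord_div hDx hx0, h1, h2, h3, sub_zero]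

end curve

section key

variable {E : Type} [Field E] [Algebra ℂ E] [IsFF ℂ E]
variable {L : Type} [Field L] [Algebra ℂ L] [Algebra E L] [IsScalarTower ℂ E L]

omit [IsFF ℂ E] in
/-- the estimate at a place of an extension field -/
theorem key (v : Place ℂ L) {κ : L} (hκ : κ ≠ 0) {g : E} (hg : g ≠ 0) {N' : ℕ}
    {w : Place ℂ E → ℤ} (hgP : ∀ P : Place ℂ E, N' * w P ≤ P.ord g)
    (h : (∀ f : E, v.ord (algebraMap E L f) = 0) → 0 ≤ v.ord κ)
    (h' : ∀ (P : Place ℂ E) (e : ℕ), Over v P e → 0 ≤ v.ord κ + e * w P) :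
    v.Reg (algebraMap E L g * κ ^ N') := by
  have hg' : algebraMap E L g ≠ 0 := (map_ne_zero _).2 hg
  right
  rw [v.ord_mul hg' (pow_ne_zero _ hκ), v.ord_pow]
  by_cases hall : ∀ f : E, v.ord (algebraMap E L f) = 0
  · rw [hall, zero_add]
    exact mul_nonneg (Int.natCast_nonneg _) (h hall)
  · push Not at hall
    obtain ⟨e, P, hP⟩ := exists_over v hall
    have h1 := h' P e hP
    rw [hP.2]
    have h2 := mul_le_mul_of_nonneg_left (hgP P) (Int.natCast_nonneg e)
    have h3 := mul_nonneg (Int.natCast_nonneg N') h1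
    have e1 : (N' : ℤ) * (v.ord κ + e * w P) =
        e * (N' * w P) + N' * v.ord κ := by ring
    rw [e1] at h3
    linarith

end key

section gpc

open Pool.Agent.Y221.AP (MK MDer Om MInf MI)
open Pool.Agent.Q103.EC (S_val S_ana S_plc)
open Pool.Agent.Q285.SFG (int_up der_comp)

/-- **Picard's theorem for curves of logarithmic general type** -/
theorem lgpc {E : Type} [Field E] [Algebra ℂ E] [IsFF ℂ E] [Algebra E MK]
    [IsScalarTower ℂ E MK] {Bd : Place ℂ E → Prop} (hfin : {P | Bd P}.Finite)
    (hgt : LogGeneralType ℂ E 1 Bd)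
    (homit : ∀ (v : Place ℂ MK) (z : ℂ), z ∈ Om → (∀ x, v.Reg x ↔ Pool.Agent.Y221.AP.Reg x z) →
      ∀ (P : Place ℂ E) (e : ℕ), Over v P e → ¬ Bd P) (f : E) : MInf (algebraMap E MK f) := by
  classical
  have hval : S_val := Pool.Agent.Q149.EC.t_val
  have hana : S_ana := Pool.Agent.Q184.EC.t_ana
  have hplc : S_plc := Pool.Agent.Q224.EC.t_plc
  have hw : ∀ P, wo Bd P = vo P (der ℂ E) - if Bd P then 1 else 0 := fun P => by
    unfold wo
    congr
  have hess : Algebra.EssFiniteType ℂ E := (inferInstance : IsFF ℂ E).1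
  obtain ⟨n, N', u, s, x, hu1, hu0, hs0, hx, ⟨i₀, hi₀⟩, hreg, hlog⟩ := exists_data hfin hgt
  have hder : der ℂ E ≠ 0 := der_ne
  have hDx : der ℂ E x ≠ 0 := der_ne_zero hder hx
  have hMx : MDer (algebraMap E MK x) ≠ 0 := by
    intro h
    obtain ⟨c, hc⟩ := Pool.Agent.Y221.AP.MD_zero (x := algebraMap E MK x) h
    rw [IsScalarTower.algebraMap_apply ℂ E MK] at hc
    have h1 := (algebraMap E MK).injective hc
    apply hx
    rw [h1]
    exact isAlgebraic_algebraMap c
  obtain ⟨κ, hκd⟩ : ∃ κ, κ = MDer (algebraMap E MK x) / algebraMap E MK (der ℂ E x) := ⟨_, rfl⟩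
  have hιDx : algebraMap E MK (der ℂ E x) ≠ 0 := (map_ne_zero _).2 hDx
  have hκ : κ ≠ 0 := by
    rw [hκd]
    exact div_ne_zero hMx hιDx
  have hMD : ∀ f : E, MDer (algebraMap E MK f) = κ * algebraMap E MK (der ℂ E f) := by
    intro f
    have h := der_comp (der ℂ E) MDer hx f
    rw [hκd, div_mul_eq_mul_div, eq_div_iff hιDx, h, mul_comm]
  have hsu : ∀ i, s * u i ≠ 0 := fun i => mul_ne_zero hs0 (hu0 i)
  have e1 : ∀ i, algebraMap E MK s * κ ^ N' * algebraMap E MK (u i) =
      algebraMap E MK (s * u i) * κ ^ N' := by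
    intro i
    rw [map_mul]
    ring
  have hmain : ∀ i, MInf (algebraMap E MK (u i)) := by
    refine hana n (fun i => algebraMap E MK (u i)) ?_ ?_ (algebraMap E MK s * κ ^ N') ?_ ?_ ?_
    · rw [hu1, map_one]
    · exact fun i => (map_ne_zero _).2 (hu0 i)
    · exact mul_ne_zero ((map_ne_zero _).2 hs0) (pow_ne_zero _ hκ)
    · intro i z hz
      obtain ⟨v, hv, hvD⟩ := hplc z hz
      have hv0 := hv
      rw [← hv, e1]
      refine key v hκ (hsu i) (fun P => hreg P i) ?_ ?_
      · intro hall
        have h1 : v.Reg (MDer (algebraMap E MK x)) := hvD _ (Or.inr (hall x).ge)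
        have h2 := (v.reg_iff hMx).1 h1
        rw [hκd, v.ord_div hMx hιDx, hall, sub_zero]
        exact h2
      · intro P e hP
        have h1 : v.Reg (algebraMap E MK (unif P)) := (hP.reg).2 (Or.inr (by
          rw [ord_unif]
          exact zero_le_one))
        have h2 := hvD _ h1
        rw [hMD] at h2
        have h3 : algebraMap E MK (der ℂ E (unif P)) ≠ 0 :=
          (map_ne_zero _).2 (der_pi_ne_zero hder P (ord_unif P))
        have h4 := (v.reg_iff (mul_ne_zero hκ h3)).1 h2
        rw [v.ord_mul hκ h3, hP.2] at h4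
        rw [hw, if_neg (homit v z hz hv0 P e hP), sub_zero]
        exact h4
    · intro i
      rw [e1]
      obtain ⟨S0, hS0⟩ := IntermediateField.fg_top ℂ E
      obtain ⟨T, hT⟩ : ∃ T : Finset MK, T = S0.image (algebraMap E MK) ∪ {κ} := ⟨_, rfl⟩
      obtain ⟨L, hL⟩ : ∃ L : IntermediateField ℂ MK,
        L = IntermediateField.adjoin ℂ (T : Set MK) := ⟨_, rfl⟩
      have hTL : ∀ y ∈ T, y ∈ L := by
        intro y hy
        rw [hL]
        exact IntermediateField.subset_adjoin _ _ hy
      have hκL : κ ∈ L := hTL κ (by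
        rw [hT]
        exact Finset.mem_union_right _ (Finset.mem_singleton_self κ))
      have hEL : ∀ f : E, algebraMap E MK f ∈ L := by
        intro f
        have h1 : f ∈ IntermediateField.adjoin ℂ (S0 : Set E) := by
          rw [hS0]
          trivial
        refine IntermediateField.adjoin_induction ℂ (p := fun y _ => algebraMap E MK y ∈ L)
          ?_ ?_ ?_ ?_ ?_ h1
        · intro y hy
          refine hTL _ ?_
          rw [hT]
          exact Finset.mem_union_left _ (Finset.mem_image_of_mem _ hy)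
        · intro c
          rw [← IsScalarTower.algebraMap_apply]
          exact L.algebraMap_mem c
        · intro a b _ _ ha hb
          rw [map_add]
          exact L.add_mem ha hb
        · intro a _ ha
          rw [map_inv₀]
          exact L.inv_mem ha
        · intro a b _ _ ha hb
          rw [map_mul]
          exact L.mul_mem ha hb
      let j : E →+* L := (algebraMap E MK).codRestrict L hEL
      let _ : Algebra E L := j.toAlgebra
      have : IsScalarTower ℂ E L := IsScalarTower.of_algebraMap_eq fun c => Subtype.ext (by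
        change algebraMap ℂ MK c = algebraMap E MK (algebraMap ℂ E c)
        rw [← IsScalarTower.algebraMap_apply])
      have hcoe : ∀ f : E, ((algebraMap E L f : L) : MK) = algebraMap E MK f := fun f => rfl
      obtain ⟨κ', hκ'⟩ : ∃ κ' : L, (κ' : MK) = κ := ⟨⟨κ, hκL⟩, rfl⟩
      have hκ'0 : κ' ≠ 0 := by
        intro h
        apply hκ
        rw [← hκ', h]
        rfl
      have hess' : Algebra.EssFiniteType ℂ L := by
        rw [IntermediateField.essFiniteType_iff]
        exact ⟨T, hL.symm⟩
      obtain ⟨S, hS⟩ := IntermediateField.fg_top ℂ L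
      have hint := hval ℂ L S hS
        (Finset.univ.image fun j => κ' * algebraMap E L (der ℂ E (u j) / u j))
        (algebraMap E L (s * u i) * κ' ^ N') (fun v hv => by
          refine key v hκ'0 (hsu i) (fun P => hreg P i) ?_ ?_
          · intro hall
            have h1 := hv _ (Finset.mem_image_of_mem _ (Finset.mem_univ i₀))
            rw [hi₀] at h1
            have hx0 : x ≠ 0 := by
              rw [← hi₀]
              exact hu0 i₀
            have h2 : algebraMap E L (der ℂ E x / x) ≠ 0 :=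
              (map_ne_zero _).2 (div_ne_zero hDx hx0)
            have h3 := (v.reg_iff (mul_ne_zero hκ'0 h2)).1 h1
            rw [v.ord_mul hκ'0 h2, hall, add_zero] at h3
            exact h3
          · intro P e hP
            obtain ⟨m, hm1, hm2⟩ := hlog P
            have h1 := hv _ (Finset.mem_image_of_mem _ (Finset.mem_univ m))
            have h2 : algebraMap E L (der ℂ E (u m) / u m) ≠ 0 :=
              (map_ne_zero _).2 (div_ne_zero hm1 (hu0 m))
            have h3 := (v.reg_iff (mul_ne_zero hκ'0 h2)).1 h1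
            rw [v.ord_mul hκ'0 h2, hP.2] at h3
            have h4 := mul_le_mul_of_nonneg_left hm2 (Int.natCast_nonneg e)
            linarith)
      have hint2 := int_up L _ (Set.range fun j => MDer (algebraMap E MK (u j)) /
        algebraMap E MK (u j)) (fun b hb => by
          rw [Finset.mem_coe, Finset.mem_image] at hb
          obtain ⟨m, -, rfl⟩ := hb
          refine ⟨m, ?_⟩
          change MDer (algebraMap E MK (u m)) / algebraMap E MK (u m) =
            (κ' : MK) * algebraMap E MK (der ℂ E (u m) / u m)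
          rw [hMD, hκ', map_div₀, mul_div_assoc]) hint
      have e2 : ((algebraMap E L (s * u i) * κ' ^ N' : L) : MK) =
          algebraMap E MK (s * u i) * κ ^ N' := by
        rw [← hκ']
        rfl
      rw [e2] at hint2
      exact hint2
  -- all functions
  have hxI : MInf (algebraMap E MK x) := by
    rw [← hi₀]
    exact hmain i₀
  have hle : ∀ y ∈ IntermediateField.adjoin ℂ {x}, algebraMap E MK y ∈ MI := by
    intro y hy
    refine IntermediateField.adjoin_induction ℂ (p := fun y _ => algebraMap E MK y ∈ MI)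
      ?_ ?_ ?_ ?_ ?_ hy
    · intro y hy
      rw [Set.mem_singleton_iff.1 hy]
      exact hxI
    · intro c
      rw [← IsScalarTower.algebraMap_apply]
      exact MI.algebraMap_mem c
    · intro a b _ _ ha hb
      rw [map_add]
      exact MI.add_mem ha hb
    · intro a _ ha
      rw [map_inv₀]
      exact MI.inv_mem ha
    · intro a b _ _ ha hb
      rw [map_mul]
      exact MI.mul_mem ha hb
  obtain ⟨p, hp, hpx⟩ := (IsFF.isAlgebraic hx).isAlgebraic f
  let φ : IntermediateField.adjoin ℂ {x} →+* MI :=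
    ((algebraMap E MK).comp (algebraMap (IntermediateField.adjoin ℂ {x}) E)).codRestrict MI
      fun y => hle y y.2
  apply Pool.Agent.Y221.AP.minf_of_alg
  refine ⟨p.map φ, ?_, ?_⟩
  · rw [Ne, Polynomial.map_eq_zero]
    exact hp
  · rw [Polynomial.aeval_def] at hpx
    have h1 := congrArg (algebraMap E MK) hpx
    rw [map_zero, Polynomial.hom_eval₂] at h1
    rw [Polynomial.aeval_def, Polynomial.eval₂_map, ← h1]
    rfl

end gpc

end Pool.Agent.H910.Lp
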