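import Pool.Agent.H910.Lp.Adf
import Pool.Agent.H910.Cf.Stm
import Pool.Graph.R_pool_sql_team_seeded_3997aac3.Q103.SF.Defs

/-!
Definitions: classes of complex quasi-projective varieties.
-/

set_option autoImplicit false
set_option linter.overlappingInstances false

namespace Pool.Agent.H910.Lp

open FF
open Pool.Agent.W602.GT (val IsForm coords LogGeneralType)
open Pool.Agent.Y216 (OnVar)
open Pool.Agent.W603.LV (canDeg)
open Pool.Agent.W603.PV (pht)
open Pool.Agent.Q271.RC (Nonconst)
open Pool.Agent.H916 (Meets)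
open Pool.Agent.H910.Cf (Entire Tower)
open Pool.Agent.Q103.SF (van vanOn)

variable {M : ℕ} {K : Type} [Field K] [Algebra ℂ K]

/-- `z` is the generic point, in its function field `E`, of a closed subvariety of `X` which is not
contained in `D`. Here `X` is the projective variety with the generic point `x`, and `D` is given by
the forms `Q i`. -/
def SubOff {E : Type} [Field E] [Algebra ℂ E] (x : Fin (M + 1) → K) {ι : Type}
    (Q : ι → MvPolynomial (Fin (M + 1)) ℂ) (z : Fin (M + 1) → E) : Prop :=
  OnVar ℂ x z ∧ coords ℂ z = ⊤ ∧ ∃ i, MvPolynomial.aeval z (Q i) ≠ 0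

/-- The closed curves in `X ∖ D` with `2 g - 2 + N ≤ 0`, where `g` is the geometric genus and `N` the
number of the points over `D` of the normalization of the closure in `X`; each curve is given by the
set of the forms which vanish on it. -/
def LowOff (x : Fin (M + 1) → K) {ι : Type} (Q : ι → MvPolynomial (Fin (M + 1)) ℂ) :
    Set (Set (MvPolynomial (Fin (M + 1)) ℂ)) :=
  {V | ∃ (L : Type) (_ : Field L) (_ : Algebra ℂ L) (_ : IsFF ℂ L) (v : Fin (M + 1) → L),
    SubOff x Q v ∧ canDeg ℂ L + {P : Place ℂ L | Meets Q v P}.ncard ≤ 0 ∧ V = van v}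

/-- Every closed subvariety of dimension at least two of `X ∖ D` is of log general type and belongs to
the class `Tower`. -/
def LogClass (x : Fin (M + 1) → K) {ι : Type} (Q : ι → MvPolynomial (Fin (M + 1)) ℂ) : Prop :=
  ∀ (E : Type) [Field E] [Algebra ℂ E] (z : Fin (M + 1) → E) (t : ℕ), SubOff x Q z →
    Algebra.trdeg ℂ E = t → 2 ≤ t → (LogGeneralType ℂ E t fun P => Meets Q z P) ∧ Tower ℂ z Q

/-- The curves in `X ∖ D` with `2 g - 2 + N ≤ 0` are the exceptional curves of `X ∖ D`. -/
structure CurvesOff (x : Fin (M + 1) → K) {ι : Type} (Q : ι → MvPolynomial (Fin (M + 1)) ℂ) :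
    Prop where
  /-- they are finite in number -/
  finite : (LowOff x Q).Finite
  /-- the Zariski closure of every nonconstant entire curve in `X ∖ D` is one of them -/
  entire : ∀ f, Entire x Q f → vanOn Set.univ f ∈ LowOff x Q
  /-- each of them is the Zariski closure of an entire curve in `X ∖ D` -/
  curves : ∀ V ∈ LowOff x Q, ∃ f, Entire x Q f ∧ vanOn Set.univ f = V
  /-- all other closed subvarieties of positive dimension of `X ∖ D` are of log general type -/
  sub : ∀ (E : Type) [Field E] [Algebra ℂ E] (t : ℕ) (z : Fin (M + 1) → E), SubOff x Q z → 1 ≤ t →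
    Algebra.trdeg ℂ E = t → (LogGeneralType ℂ E t fun P => Meets Q z P) ∨ van z ∈ LowOff x Q
  /-- the degree of a nonconstant map from a curve of genus `g` to `X`, with `N` points over `D`, is at
  most `A (2 g - 2 + N)`, or the image is contained in `D` or is one of these curves -/
  degree : ∃ A : ℕ, ∀ (L : Type) [Field L] [Algebra ℂ L] [IsFF ℂ L] (v : Fin (M + 1) → L),
    OnVar ℂ x v → Nonconst v → (∃ i, MvPolynomial.aeval v (Q i) ≠ 0) →
      pht ℂ v ≤ A * (canDeg ℂ L + {P : Place ℂ L | Meets Q v P}.ncard) ∨ van v ∈ LowOff x Q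

/-- `X ∖ D` is Brody hyperbolic: there is no nonconstant holomorphic map from `ℂ` to `X ∖ D`. -/
def BrodyHypOff (x : Fin (M + 1) → K) {ι : Type} (Q : ι → MvPolynomial (Fin (M + 1)) ℂ) : Prop :=
  ∀ f, ¬ Entire x Q f

/-- Every closed subvariety of positive dimension of `X ∖ D` is of log general type. -/
def AllLog (x : Fin (M + 1) → K) {ι : Type} (Q : ι → MvPolynomial (Fin (M + 1)) ℂ) : Prop :=
  ∀ (E : Type) [Field E] [Algebra ℂ E] (t : ℕ) (z : Fin (M + 1) → E), SubOff x Q z → 1 ≤ t →
    Algebra.trdeg ℂ E = t → LogGeneralType ℂ E t fun P => Meets Q z P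

/-- `X ∖ D` is algebraically hyperbolic: `deg f ≤ A (2 g - 2 + N)` for all nonconstant maps from curves
to `X`, with image not contained in `D`. -/
def AlgHypOff (x : Fin (M + 1) → K) {ι : Type} (Q : ι → MvPolynomial (Fin (M + 1)) ℂ) : Prop :=
  ∃ A : ℕ, ∀ (L : Type) [Field L] [Algebra ℂ L] [IsFF ℂ L] (v : Fin (M + 1) → L),
    OnVar ℂ x v → Nonconst v → (∃ i, MvPolynomial.aeval v (Q i) ≠ 0) →
      pht ℂ v ≤ A * (canDeg ℂ L + {P : Place ℂ L | Meets Q v P}.ncard)

end Pool.Agent.H910.Lp
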