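import Pool.Agent.H910.Lp.Fib
import Pool.Graph.R_pool_sql_team_seeded_3997aac3.Q103.SF.Conv

/-!
Entire curves in rational curves without two points.
-/

set_option autoImplicit false
set_option linter.unusedSectionVars false
set_option linter.unusedVariables false
set_option linter.overlappingInstances false

namespace Pool.Agent.H910.Lp

open FF IntermediateField
open Pool.Agent.W602.GT
open Pool.Agent.Y216 (OnVar)
open Pool.Agent.W603.LV
open Pool.Agent.W603.PV (pht pord exists_pord pord_le under ram)
open Pool.Agent.Q271.RC (Nonconst)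
open Pool.Agent.H916 (InClosure Meets RMap LinearOff)
open Pool.Agent.H910.Cf
open Pool.Agent.W619.PQ

section

variable {L : Type} [Field L] [Algebra ℂ L] {t : L} {M : ℕ}

/-- a primitive vector of polynomials -/
theorem exists_primitive (ht : ℂ⟮t⟯ = ⊤) (v : Fin (M + 1) → L) (hv : ∃ j, v j ≠ 0) :
    ∃ (c : L) (P : Fin (M + 1) → Polynomial ℂ), c ≠ 0 ∧
      (∀ i, v i = c * Polynomial.aeval t (P i)) ∧ ∀ a : ℂ, ∃ i, (P i).eval a ≠ 0 := by
  classical
  have h1 : ∀ i, ∃ r s : Polynomial ℂ, Polynomial.aeval t s ≠ 0 ∧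
      v i = Polynomial.aeval t r / Polynomial.aeval t s := by
    intro i
    have h2 : v i ∈ ℂ⟮t⟯ := by
      rw [ht]
      exact IntermediateField.mem_top
    obtain ⟨r, s, h3⟩ := IntermediateField.mem_adjoin_simple_iff ℂ (v i) |>.1 h2
    by_cases h4 : Polynomial.aeval t s = 0
    · refine ⟨0, 1, ?_, ?_⟩
      · rw [map_one]
        exact one_ne_zero
      · rw [h3, h4, div_zero, map_zero, zero_div]
    · exact ⟨r, s, h4, h3⟩
  choose r s hs hv' using h1
  obtain ⟨R, hR⟩ : ∃ R : Fin (M + 1) → Polynomial ℂ,
    R = fun i => r i * ∏ j ∈ Finset.univ.erase i, s j := ⟨_, rfl⟩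
  obtain ⟨D, hD⟩ : ∃ D : Polynomial ℂ, D = ∏ j, s j := ⟨_, rfl⟩
  have hD0 : Polynomial.aeval t D ≠ 0 := by
    rw [hD, map_prod]
    exact Finset.prod_ne_zero_iff.2 fun j _ => hs j
  have hvR : ∀ i, v i * Polynomial.aeval t D = Polynomial.aeval t (R i) := by
    intro i
    rw [hD, hR, ← Finset.mul_prod_erase Finset.univ s (Finset.mem_univ i), hv' i]
    simp only [map_mul]
    have := hs i
    field_simp
  obtain ⟨g, hg⟩ := (IsPrincipalIdealRing.principal (Ideal.span (Set.range R))).principal
  have hgR : ∀ i, g ∣ R i := by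
    intro i
    have h2 : R i ∈ Ideal.span (Set.range R) := Ideal.subset_span ⟨i, rfl⟩
    rw [hg] at h2
    exact Ideal.mem_span_singleton.1 h2
  choose P hP using hgR
  have hg1 : g ∈ Ideal.span (Set.range R) := by
    rw [hg]
    exact Submodule.mem_span_singleton_self g
  obtain ⟨A, hA⟩ := (Ideal.mem_span_range_iff_exists_fun).1 hg1
  have hg0 : g ≠ 0 := by
    rintro rfl
    obtain ⟨j, hj⟩ := hv
    have h2 := hvR j
    rw [hP j, zero_mul, map_zero] at h2
    exact (mul_ne_zero hj hD0) h2
  have h1 : ∑ i, A i * P i = 1 := by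
    apply mul_left_cancel₀ hg0
    rw [Finset.mul_sum, mul_one]
    conv_rhs => rw [← hA]
    refine Finset.sum_congr rfl fun i _ => ?_
    conv_rhs => rw [hP i]
    ring
  have hgt : Polynomial.aeval t g ≠ 0 := by
    intro h0
    obtain ⟨j, hj⟩ := hv
    have h2 := hvR j
    rw [hP j, map_mul, h0, zero_mul] at h2
    exact (mul_ne_zero hj hD0) h2
  refine ⟨Polynomial.aeval t g / Polynomial.aeval t D, P, div_ne_zero hgt hD0, fun i => ?_,
    fun a => ?_⟩
  · have h2 := hvR i
    rw [hP i, map_mul] at h2
    field_simp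
    exact h2
  · by_contra hcon
    push Not at hcon
    have h2 := congrArg (Polynomial.eval a) h1
    rw [Polynomial.eval_finsetSum, Polynomial.eval_one] at h2
    simp only [Polynomial.eval_mul, hcon, mul_zero, Finset.sum_const_zero] at h2
    exact zero_ne_one h2

theorem poly_zero {F : Polynomial ℂ} (h : ∀ s : ℂ, F.eval (Complex.exp s) = 0) : F = 0 := by
  have h1 : Polynomial.X * F = 0 := by
    apply Polynomial.funext
    intro a
    rw [Polynomial.eval_mul, Polynomial.eval_X, Polynomial.eval_zero]
    by_cases ha : a = 0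
    · rw [ha, zero_mul]
    · rw [← Complex.exp_log ha, h, mul_zero]
  exact (mul_eq_zero.1 h1).resolve_left Polynomial.X_ne_zero

variable {ι : Type} {Q : ι → MvPolynomial (Fin (M + 1)) ℂ}

/-- **Rational curves.** -/
theorem rat_curve [IsFF ℂ L] (hQ : ∀ i, IsForm (Q i)) {v : Fin (M + 1) → L}
    (hv : ∃ j, v j ≠ 0) (hnc : Nonconst v) (hoff : ∃ i, MvPolynomial.aeval v (Q i) ≠ 0)
    (hcan : canDeg ℂ L < 0) (hN : {P : Place ℂ L | Meets Q v P}.ncard ≤ 2) :
    ∃ f, Entire v Q f ∧ ∀ G : MvPolynomial (Fin (M + 1)) ℂ, IsForm G →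
      ((∀ t, MvPolynomial.eval (f t) G = 0) ↔ val v G = 0) := by
  classical
  have hfin := meets_fin hv hoff
  obtain ⟨t, ht, htS⟩ := exists_gen2 (k := ℂ) (K := L) hcan (S := hfin.toFinset) (by
    rw [← Set.ncard_eq_toFinset_card _ hfin]
    exact hN)
  have htr := transcendental_of_top ht
  obtain ⟨c, P, hc, hvP, hP⟩ := exists_primitive ht v hv
  have hev : ∀ (G : MvPolynomial (Fin (M + 1)) ℂ) (b : ℂ),
      MvPolynomial.eval (fun i => (P i).eval b) G = (MvPolynomial.aeval P G).eval b := by
    intro G b
    have h1 := MvPolynomial.comp_aeval_apply (f := P)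
      (Polynomial.aeval b : Polynomial ℂ →ₐ[ℂ] ℂ) G
    simp only [Polynomial.coe_aeval_eq_eval] at h1
    rw [h1]
    rfl
  have hae : ∀ G : MvPolynomial (Fin (M + 1)) ℂ,
      MvPolynomial.aeval (fun i => Polynomial.aeval t (P i)) G =
        Polynomial.aeval t (MvPolynomial.aeval P G) := by
    intro G
    rw [MvPolynomial.comp_aeval_apply]
  have hval : ∀ G : MvPolynomial (Fin (M + 1)) ℂ, IsForm G →
      (val v G = 0 ↔ MvPolynomial.aeval P G = 0) := by
    rintro G ⟨d, hd⟩
    have h1 : v = fun i => c * Polynomial.aeval t (P i) := funext hvP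
    have h2 : val v G = c ^ d * val (fun i => Polynomial.aeval t (P i)) G := by
      rw [h1]
      exact val_smul hd c _
    rw [h2]
    unfold Pool.Agent.W602.GT.val
    rw [hae, mul_eq_zero, or_iff_right (pow_ne_zero _ hc)]
    exact ⟨fun h => (transcendental_iff.1 htr) _ h, fun h => by rw [h, map_zero]⟩
  have hiff : ∀ G : MvPolynomial (Fin (M + 1)) ℂ, IsForm G →
      ((∀ s, MvPolynomial.eval (fun i => (P i).eval (Complex.exp s)) G = 0) ↔ val v G = 0) := by
    intro G hG
    rw [hval G hG]
    simp only [hev]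
    exact ⟨fun h => poly_zero h, fun h s => by rw [h, Polynomial.eval_zero]⟩
  refine ⟨fun s i => (P i).eval (Complex.exp s), ⟨fun i => ?_, fun s h0 => ?_,
    fun G hG hGx => (hiff G hG).2 hGx, fun s => ?_, ?_⟩, hiff⟩
  · exact (P i).differentiable.comp Complex.differentiable_exp
  · obtain ⟨i, hi⟩ := hP (Complex.exp s)
    exact hi (congrFun h0 i)
  · obtain ⟨a, ha⟩ : ∃ a, a = Complex.exp s := ⟨_, rfl⟩
    have ha0 : a ≠ 0 := by
      rw [ha]
      exact Complex.exp_ne_zero s
    simp only [← ha, hev]
    obtain ⟨q, hq, -⟩ := zero_unique (k := ℂ) (top_sub ht a)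
    have hreg : ∀ R : Polynomial ℂ, Ge q 0 (Polynomial.aeval t R) := by
      intro R
      have h1 : Ge q 0 t := by
        have h2 : Ge q 0 (t - algebraMap ℂ L a) := Or.inr (by omega)
        have h3 := h2.add (Ge.const a)
        rwa [sub_add_cancel] at h3
      induction R using Polynomial.induction_on' with
      | add p q' hp hq' =>
        rw [map_add]
        exact hp.add hq'
      | monomial n c =>
        rw [Polynomial.aeval_monomial]
        have h4 : ∀ n : ℕ, Ge q 0 (t ^ n) := by
          intro n
          induction n with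
          | zero =>
            rw [pow_zero]
            exact Or.inr (by rw [q.ord_one])
          | succ n ih =>
            rw [pow_succ]
            have := ih.mul h1
            rwa [add_zero] at this
        have := (Ge.const (P := q) c).mul (h4 n)
        rwa [add_zero] at this
    have hroot : ∀ R : Polynomial ℂ, R.eval a = 0 → Ge q 1 (Polynomial.aeval t R) := by
      intro R hR
      obtain ⟨S, hS⟩ := Polynomial.dvd_iff_isRoot.2 hR
      rw [hS, map_mul, map_sub, Polynomial.aeval_X, Polynomial.aeval_C]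
      have h2 : Ge q 1 (t - algebraMap ℂ L a) := Or.inr (by omega)
      have := h2.mul (hreg S)
      rwa [add_zero] at this
    have hunit : ∀ R : Polynomial ℂ, R.eval a ≠ 0 →
        Polynomial.aeval t R ≠ 0 ∧ q.ord (Polynomial.aeval t R) = 0 := by
      intro R hR
      have h1 := hroot (R - Polynomial.C (R.eval a)) (by
        rw [Polynomial.eval_sub, Polynomial.eval_C, sub_self])
      rw [map_sub, Polynomial.aeval_C] at h1
      have h0 : Polynomial.aeval t R ≠ 0 := by
        intro h0
        rw [h0, zero_sub] at h1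
        rcases h1 with h1 | h1
        · rw [neg_eq_zero, map_eq_zero] at h1
          exact hR h1
        · rw [q.ord_neg, q.ord_const hR] at h1
          omega
      refine ⟨h0, ?_⟩
      rcases hreg R with h2 | h2
      · exact absurd h2 h0
      · by_contra hcon
        have h3 : Ge q 1 (Polynomial.aeval t R) := Or.inr (by omega)
        have h4 := h3.sub h1
        rw [sub_sub_cancel] at h4
        rcases h4 with h4 | h4
        · rw [map_eq_zero] at h4
          exact hR h4
        · rw [q.ord_const hR] at h4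
          omega
    have htq : q.ord t = 0 := by
      have h1 := (hunit Polynomial.X (by rw [Polynomial.eval_X]; exact ha0)).2
      rwa [Polynomial.aeval_X] at h1
    have hnm : ¬ Meets Q v q := by
      intro hm
      exact htS q (by rw [Set.Finite.mem_toFinset]; exact hm) htq
    have h1 : v = fun i => c * Polynomial.aeval t (P i) := funext hvP
    obtain ⟨i0, hi0⟩ := hP a
    have hne : ∃ j, Polynomial.aeval t (P j) ≠ 0 := ⟨i0, (hunit _ hi0).1⟩
    rw [h1, meets_scale hQ hne hc] at hnm
    unfold Meets at hnm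
    push Not at hnm
    obtain ⟨i, hi, hi2⟩ := hnm
    refine ⟨i, fun h0 => ?_⟩
    rw [hae] at hi hi2
    have hp : 0 ≤ pord q (fun i => Polynomial.aeval t (P i)) := by
      obtain ⟨l, hl, hlo⟩ := exists_pord q hne
      rw [← hlo]
      exact (hreg (P l)).resolve_left hl
    have hp2 : pord q (fun i => Polynomial.aeval t (P i)) ≤ 0 := by
      have h3 := pord_le q (f := fun i => Polynomial.aeval t (P i)) (hunit _ hi0).1
      simp only [(hunit _ hi0).2] at h3
      exact h3
    have hp3 : pord q (fun i => Polynomial.aeval t (P i)) = 0 := le_antisymm hp2 hp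
    rw [hp3, mul_zero] at hi2
    have h4 := (hroot _ h0).resolve_left hi
    omega
  · obtain ⟨i, j, hj, hij⟩ := hnc
    have hPj : P j ≠ 0 := by
      intro h0
      apply hj
      rw [hvP j, h0, map_zero, mul_zero]
    obtain ⟨s0, hs0⟩ : ∃ s, (P j).eval (Complex.exp s) ≠ 0 := by
      by_contra hcon
      push Not at hcon
      exact hPj (poly_zero hcon)
    by_contra hcon
    push Not at hcon
    have h1 : ∀ s, (P i).eval (Complex.exp s) * (P j).eval (Complex.exp s0) =
        (P j).eval (Complex.exp s) * (P i).eval (Complex.exp s0) := by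
      intro s
      obtain ⟨b, hb⟩ := hcon s s0
      have h2 := congrFun hb i
      have h3 := congrFun hb j
      simp only [Pi.smul_apply, smul_eq_mul] at h2 h3
      rw [h2, h3]
      ring
    have h2 : P i * Polynomial.C ((P j).eval (Complex.exp s0)) -
        P j * Polynomial.C ((P i).eval (Complex.exp s0)) = 0 := poly_zero fun s => by
      rw [Polynomial.eval_sub, Polynomial.eval_mul, Polynomial.eval_mul, Polynomial.eval_C,
        Polynomial.eval_C, h1, sub_self]
    have h3 := congrArg (Polynomial.aeval t) h2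
    rw [map_sub, map_mul, map_mul, Polynomial.aeval_C, Polynomial.aeval_C, map_zero,
      sub_eq_zero] at h3
    apply hij
    have h4 : v i / v j = algebraMap ℂ L ((P i).eval (Complex.exp s0) /
        (P j).eval (Complex.exp s0)) := by
      have h5 : Polynomial.aeval t (P j) ≠ 0 := by
        intro h0
        apply hj
        rw [hvP j, h0, mul_zero]
      have h6 : algebraMap ℂ L ((P j).eval (Complex.exp s0)) ≠ 0 := (map_ne_zero _).2 hs0
      rw [hvP i, hvP j, mul_div_mul_left _ _ hc, map_div₀, div_eq_div_iff h5 h6, h3]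
      ring
    rw [h4]
    exact isAlgebraic_algebraMap _

end

end Pool.Agent.H910.Lp
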