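import Pool.Agent.H910.Lp.Adf
import Pool.Graph.R_seed8.W602.RG.Stm3

/-!
Definitions: pointed maps from curves to quasi-projective varieties.
-/

set_option autoImplicit false
set_option linter.overlappingInstances false

open scoped LinearAlgebra.Projectivization

namespace Pool.Agent.H910.Lp

open FF
open Pool.Agent.W602.GT (val IsForm)
open Pool.Agent.W602.RG (HasValue)
open Pool.Agent.H916 (Meets)

/-- The morphisms to `X ∖ D`, where `X` is the projective variety with the generic point `x` and `D` is
given by the forms `Q i`, from the smooth projective curve with the function field `L` without the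
finite set `S` of its points, which map the point `c` to the point with the coordinates `a`. -/
def PointedOff {k K L : Type} [Field k] [Field K] [Algebra k K] [Field L] [Algebra k L] {M : ℕ}
    (x : Fin (M + 1) → K) {ι : Type} (Q : ι → MvPolynomial (Fin (M + 1)) k) (S : Finset (Place k L))
    (c : Place k L) (a : Fin (M + 1) → k) : Set (ℙ L (Fin (M + 1) → L)) :=
  {φ | ∃ (f : Fin (M + 1) → L) (hf : f ≠ 0), (∀ H : MvPolynomial (Fin (M + 1)) k, IsForm H →
    val x H = 0 → val f H = 0) ∧ (∃ i, MvPolynomial.aeval f (Q i) ≠ 0) ∧
    (∀ P, Meets Q f P → P ∈ S) ∧ HasValue c a f ∧ φ = Projectivization.mk L f hf}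

/-- For all smooth projective curves, with the function field `L`, all finite sets `S` of points, all
other points `c`, and all points `a` of projective space outside of `G = 0` at which some `Q i` is not
zero, the morphisms from the curve without `S` to `X ∖ D` which map `c` to `a` are finite in number. For
`G = 1` this is condition (3) for `X ∖ D`. -/
def PointedFiniteOff {K : Type} [Field K] [Algebra ℂ K] {M : ℕ} (x : Fin (M + 1) → K) {ι : Type}
    (Q : ι → MvPolynomial (Fin (M + 1)) ℂ) (G : MvPolynomial (Fin (M + 1)) ℂ) : Prop :=
  ∀ (L : Type) [Field L] [Algebra ℂ L] [IsFF ℂ L] (S : Finset (Place ℂ L)) (c : Place ℂ L),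
    c ∉ S → ∀ a : Fin (M + 1) → ℂ, a ≠ 0 → (∃ i, MvPolynomial.eval a (Q i) ≠ 0) →
      MvPolynomial.eval a G ≠ 0 → (PointedOff x Q S c a).Finite

end Pool.Agent.H910.Lp
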