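import Pool.Agent.H910.Lp.Fib

/-!
Entire curves and maps of pairs.
-/

set_option autoImplicit false
set_option linter.unusedSectionVars false
set_option linter.unusedVariables false
set_option linter.overlappingInstances false

open Filter Topology Set Metric

namespace Pool.Agent.H910.Lp

open FF
open Pool.Agent.W602.GT
open Pool.Agent.Y216 (OnVar)
open Pool.Agent.Q103.SF
open Pool.Agent.Y221.BD (EntireCurve)
open Pool.Agent.H916 (InClosure Meets RMap LinearOff LogHypFibres FibreField cuspFun PairMap)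
open Pool.Agent.H910.Cf

variable {M N : ℕ} {K : Type} [Field K] [Algebra ℂ K] {x : Fin (M + 1) → K} {ι : Type}
  {Q : ι → MvPolynomial (Fin (M + 1)) ℂ} {y : Fin (N + 1) → K} {κ : Type}
  {Q' : κ → MvPolynomial (Fin (N + 1)) ℂ}

theorem eval_hom {n : ℕ} {G : MvPolynomial (Fin (n + 1)) ℂ} {d : ℕ} (hG : G.IsHomogeneous d)
    (c : ℂ) (u : Fin (n + 1) → ℂ) :
    MvPolynomial.eval (fun i => c * u i) G = c ^ d * MvPolynomial.eval u G := by
  have h := val_smul (L := ℂ) hG c u
  unfold Pool.Agent.W602.GT.val at h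
  exact h

/-- the image of an entire curve avoids the boundary -/
theorem pair_off [Finite κ] (h : PairMap x Q y Q') (hQ : ∀ i, IsForm (Q i))
    (hQ' : ∀ c, IsForm (Q' c)) {j0 : Fin (N + 1)} {e : ℕ}
    {H : Fin (N + 1) → MvPolynomial (Fin (M + 1)) ℂ} (hR : RMap x y j0 e H)
    {f : ℂ → Fin (M + 1) → ℂ} (hf : Entire x Q f) {g : Fin (N + 1) → ℂ → ℂ}
    (hg : EntireCurve y g) (hnz : ∃ t, ∃ i, MvPolynomial.eval (f t) (H i) ≠ 0)
    (hfg : ∀ t, (∃ k, MvPolynomial.eval (f t) (H k) ≠ 0) →
      ∃ c : ℂ, c ≠ 0 ∧ ∀ i, MvPolynomial.eval (f t) (H i) = c * g i t) :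
    ∀ t, ∃ c, MvPolynomial.eval (fun i => g i t) (Q' c) ≠ 0 := by
  classical
  cases nonempty_fintype κ
  intro t0
  by_contra hcon
  push Not at hcon
  obtain ⟨a, ha⟩ := Function.ne_iff.1 (hf.ne t0)
  have ha : f t0 a ≠ 0 := ha
  obtain ⟨b, hb⟩ := hg.ne t0
  have hX : ∀ {n : ℕ} (i : Fin (n + 1)), IsForm (MvPolynomial.X i : MvPolynomial (Fin (n + 1)) ℂ) :=
    fun i => ⟨1, MvPolynomial.isHomogeneous_X ℂ i⟩
  have hxa : x a ≠ 0 := by
    intro h0
    have h1 := hf.mem (MvPolynomial.X a) (hX a) (by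
      unfold Pool.Agent.W602.GT.val
      rw [MvPolynomial.aeval_X, h0]) t0
    rw [MvPolynomial.eval_X] at h1
    exact ha h1
  have hyb : y b ≠ 0 := by
    intro h0
    have h1 := hg.mem (MvPolynomial.X b) (hX b) (by
      unfold Pool.Agent.W602.GT.val
      rw [MvPolynomial.aeval_X, h0]) t0
    rw [MvPolynomial.eval_X] at h1
    exact hb h1
  -- the points near `t0`
  have hHan : ∀ i, AnalyticOnNhd ℂ (fun t => MvPolynomial.eval (f t) (H i)) Set.univ := by
    intro i t _
    simp only [MvPolynomial.eval_eq']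
    apply Finset.analyticAt_fun_sum
    intro α _
    apply AnalyticAt.fun_mul analyticAt_const
    apply Finset.analyticAt_fun_prod
    intro s _
    exact ((hf.hol s).analyticAt t).fun_pow _
  have hev1 : ∀ᶠ t in 𝓝[≠] t0, ∃ k, MvPolynomial.eval (f t) (H k) ≠ 0 := by
    obtain ⟨t1, i, hi⟩ := hnz
    rcases (hHan i t0 (Set.mem_univ _)).eventually_eq_zero_or_eventually_ne_zero with h2 | h2
    · exfalso
      have := (hHan i).eq_of_eventuallyEq (g := fun _ => 0) analyticOnNhd_const h2
      exact hi (congrFun this t1)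
    · filter_upwards [h2] with t ht
      exact ⟨i, ht⟩
  have hcf : ∀ i, Continuous fun t => f t i := fun i => (hf.hol i).continuous
  have hcg : ∀ i, Continuous (g i) := fun i => (hg.hol i).continuous
  have hev2 : ∀ᶠ t in 𝓝[≠] t0, f t a ≠ 0 := by
    refine Filter.Eventually.filter_mono nhdsWithin_le_nhds ?_
    exact (hcf a).continuousAt.eventually_ne ha
  have hev3 : ∀ᶠ t in 𝓝[≠] t0, g b t ≠ 0 := by
    refine Filter.Eventually.filter_mono nhdsWithin_le_nhds ?_
    exact (hcg b).continuousAt.eventually_ne hb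
  have hrel : ∀ Φ : MvPolynomial (Fin (M + 1) ⊕ Fin (N + 1)) ℂ,
      MvPolynomial.aeval (Sum.elim (fun c => x c / x a) fun c => y c / y b) Φ = 0 →
      MvPolynomial.aeval (Sum.elim (fun c => f t0 c / f t0 a) fun c => g c t0 / g b t0) Φ = 0 := by
    intro Φ hΦ
    have hev : ∀ᶠ t in 𝓝[≠] t0, MvPolynomial.eval
        (Sum.elim (fun c => f t c / f t a) fun c => g c t / g b t) Φ = 0 := by
      filter_upwards [hev1, hev2, hev3] with t h1 h2 h3
      obtain ⟨c, hc0, hc⟩ := hfg t h1
      have h4 : MvPolynomial.aeval (f t) (H b) ≠ 0 := by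
        change MvPolynomial.eval (f t) (H b) ≠ 0
        rw [hc]
        exact mul_ne_zero hc0 h3
      have hon : OnVar ℂ x (f t) := ⟨⟨a, h2⟩, fun G hG hGx => hf.mem G hG hGx t⟩
      have h5 := (hR.graph hon h2 h4).2.2 Φ hΦ
      have h6 : (fun i => MvPolynomial.aeval (f t) (H i) / MvPolynomial.aeval (f t) (H b)) =
          fun i => g i t / g b t := by
        funext i
        change MvPolynomial.eval (f t) (H i) / MvPolynomial.eval (f t) (H b) = _
        rw [hc i, hc b, mul_div_mul_left _ _ hc0]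
      rw [h6] at h5
      exact h5
    have hcont : ContinuousAt (fun t => MvPolynomial.eval
        (Sum.elim (fun c => f t c / f t a) fun c => g c t / g b t) Φ) t0 := by
      refine (MvPolynomial.continuous_eval Φ).continuousAt.comp
        (f := fun t => (Sum.elim (fun c => f t c / f t a) fun c => g c t / g b t :
          Fin (M + 1) ⊕ Fin (N + 1) → ℂ)) (continuousAt_pi.2 ?_)
      rintro (c | c)
      · exact (hcf c).continuousAt.div (hcf a).continuousAt ha
      · exact (hcg c).continuousAt.div (hcg b).continuousAt hb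
    have h4 : Tendsto (fun t => MvPolynomial.eval
        (Sum.elim (fun c => f t c / f t a) fun c => g c t / g b t) Φ) (𝓝[≠] t0) (𝓝 0) :=
      tendsto_const_nhds.congr' (by
        filter_upwards [hev] with s hs
        exact hs.symm)
    exact tendsto_nhds_unique (hcont.tendsto.mono_left nhdsWithin_le_nhds) h4
  obtain ⟨i, hi⟩ := hf.off t0
  obtain ⟨n, A, hA⟩ := h.null hxa hyb i
  have h1 := hA ℂ (fun c => f t0 c / f t0 a) (fun c => g c t0 / g b t0) hrel
  rw [finsum_eq_sum_of_fintype, Finset.sum_eq_zero fun c _ => by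
    obtain ⟨d, hd⟩ := hQ' c
    have h2 : (fun c => g c t0 / g b t0) = fun c => (g b t0)⁻¹ * g c t0 := by
      funext c
      ring
    have h3 : MvPolynomial.aeval (fun c => g c t0 / g b t0) (Q' c) = 0 := by
      change MvPolynomial.eval (fun c => g c t0 / g b t0) (Q' c) = 0
      rw [h2, eval_hom hd, hcon c, mul_zero]
    rw [h3, mul_zero]] at h1
  have h2 : MvPolynomial.aeval (fun c => f t0 c / f t0 a) (Q i) = 0 :=
    eq_zero_of_pow_eq_zero h1
  obtain ⟨d, hd⟩ := hQ i
  have h3 : (fun c => f t0 c / f t0 a) = fun c => (f t0 a)⁻¹ * f t0 c := by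
    funext c
    ring
  change MvPolynomial.eval (fun c => f t0 c / f t0 a) (Q i) = 0 at h2
  rw [h3, eval_hom hd] at h2
  exact hi ((mul_eq_zero.1 h2).resolve_left (pow_ne_zero _ (inv_ne_zero ha)))

/-- **Entire curves and maps of pairs.** -/
theorem pair_constOn [Finite κ] (h : PairMap x Q y Q') (hQ : ∀ i, IsForm (Q i))
    (hQ' : ∀ c, IsForm (Q' c)) {G' : MvPolynomial (Fin (N + 1)) ℂ} (hG' : IsForm G')
    (hG'y : val y G' ≠ 0) (hV : BrodyOff y Q' G') : ConstOn x Q y := by
  intro j0 e H hR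
  refine ⟨H j0 * MvPolynomial.aeval H G', Pool.Agent.H916.isForm_mul0 ⟨e, hR.hom j0⟩
    (Pool.Agent.H916.isForm_comp0 hR.hom hG'), ?_, fun f hf hfG => ?_⟩
  · rw [Pool.Agent.H916.val_mul_ne0]
    exact ⟨hR.ne, fun h0 => hG'y ((hR.val_iff hG').1 h0)⟩
  · obtain ⟨t1, ht1⟩ := hfG
    rw [map_mul] at ht1
    have h1 := left_ne_zero_of_mul ht1
    have h2 := right_ne_zero_of_mul ht1
    refine ⟨⟨t1, h1⟩, ?_⟩
    by_contra hcon
    push Not at hcon
    obtain ⟨i, j, a, b, hab⟩ := hcon
    have hhol : ∀ i, Differentiable ℂ fun t => MvPolynomial.eval (f t) (H i) := by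
      intro i
      simp only [MvPolynomial.eval_eq']
      refine Differentiable.fun_sum fun α _ => ?_
      refine (differentiable_const _).mul ?_
      exact Differentiable.fun_finsetProd fun s _ => (hf.hol s).pow _
    have hmem : ∀ G : MvPolynomial (Fin (N + 1)) ℂ, IsForm G → val y G = 0 →
        ∀ t, MvPolynomial.eval (fun i => MvPolynomial.eval (f t) (H i)) G = 0 := by
      intro G hG hGy t
      have h3 := hf.mem (MvPolynomial.aeval H G) (Pool.Agent.H916.isForm_comp0 hR.hom hG)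
        ((hR.val_iff hG).2 hGy) t
      have h4 := Pool.Agent.H916.val_comp0 (f t) H G
      unfold Pool.Agent.W602.GT.val at h4
      have h5 : MvPolynomial.eval (f t) (MvPolynomial.aeval H G) =
          MvPolynomial.eval (fun i => MvPolynomial.eval (f t) (H i)) G := h4
      rw [← h5]
      exact h3
    obtain ⟨g, hg, hfg⟩ := Pool.Agent.Y221.PD.curve_of_entire (x := y)
      (u := fun i t => MvPolynomial.eval (f t) (H i)) hhol hmem (i := i) (j := j) (a := a)
      (b := b) (by
        intro h3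
        apply hab
        rw [h3])
    have hoff := pair_off h hQ hQ' hR hf hg ⟨t1, j0, h1⟩ hfg
    have hent : Entire y Q' fun t i => g i t := by
      refine ⟨fun i => hg.hol i, fun t h0 => ?_, fun G hG hGx t => hg.mem G hG hGx t, hoff, ?_⟩
      · obtain ⟨i, hi⟩ := hg.ne t
        exact hi (congrFun h0 i)
      · obtain ⟨i, j, a, b, hab⟩ := hg.nonconst
        refine ⟨a, b, fun c hc => hab ?_⟩
        have h1 : ∀ l, g l a = c * g l b := fun l => by
          have := congrFun hc l
          simpa using this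
        rw [h1 i, h1 j]
        ring
    have h3 := hV _ hent t1
    obtain ⟨c, hc0, hc⟩ := hfg t1 ⟨j0, h1⟩
    apply h2
    have h4 := Pool.Agent.H916.val_comp0 (f t1) H G'
    unfold Pool.Agent.W602.GT.val at h4
    have h5 : MvPolynomial.eval (f t1) (MvPolynomial.aeval H G') =
        MvPolynomial.eval (fun i => MvPolynomial.eval (f t1) (H i)) G' := h4
    rw [h5]
    obtain ⟨d, hd⟩ := hG'
    have h6 : (fun i => MvPolynomial.eval (f t1) (H i)) = fun i => c * g i t1 := funext hc
    rw [h6, eval_hom hd, h3, mul_zero]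

theorem val_hom0 {B K : Type} [Field B] [Algebra ℂ B] [Field K] [Algebra ℂ K] {N : ℕ}
    (φ : B →ₐ[ℂ] K) (y : Fin (N + 1) → B) (G : MvPolynomial (Fin (N + 1)) ℂ) :
    val (fun j => φ (y j)) G = φ (val y G) := by
  unfold Pool.Agent.W602.GT.val
  rw [MvPolynomial.comp_aeval_apply]

theorem brody_hom {B K : Type} [Field B] [Algebra ℂ B] [Field K] [Algebra ℂ K] {N : ℕ}
    (φ : B →ₐ[ℂ] K) {y : Fin (N + 1) → B} {κ : Type} {Q' : κ → MvPolynomial (Fin (N + 1)) ℂ}
    {G : MvPolynomial (Fin (N + 1)) ℂ} (h : BrodyOff y Q' G) :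
    BrodyOff (fun j => φ (y j)) Q' G := by
  intro f hf
  refine h f ⟨hf.hol, hf.ne, fun G hG hGy t => hf.mem G hG ?_ t, hf.off, hf.nonconst⟩
  rw [val_hom0, hGy, map_zero]

end Pool.Agent.H910.Lp
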