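import Pool.Agent.H910.Lp.Gpc
import Pool.Agent.H910.Cf.Bcl
import Pool.Agent.H910.Cf.Res
import Pool.Agent.H910.Cf.Mul

/-!
Essential singularities of holomorphic maps from the punctured disc to a quasi-projective variety.
-/

set_option autoImplicit false
set_option linter.unusedSectionVars false
set_option linter.unusedVariables false
set_option linter.overlappingInstances false

open Filter Topology Set Metric

namespace Pool.Agent.H910.Lp

open FF
open Pool.Agent.W602.GT
open Pool.Agent.Y221.PD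
open Pool.Agent.Y216 (OnVar)
open Pool.Agent.W603.LV (canDeg)
open Pool.Agent.W603.PV (pht pord exists_pord pord_le)
open Pool.Agent.Q103.SF
open Pool.Agent.H916 (InClosure Meets RMap)
open Pool.Agent.H910.Cf
open Pool.Agent.Y221.AP (MK Om Fn MInf)
open Pool.Agent.W603.BP (Extends PB_mem)

section meets

variable {k E : Type} [Field k] [Field E] [Algebra k E] {M : ℕ} {ι : Type}
  {Q : ι → MvPolynomial (Fin (M + 1)) k}

theorem meets_scale (hQ : ∀ i, IsForm (Q i)) {f : Fin (M + 1) → E} (hf : ∃ j, f j ≠ 0) {c : E}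
    (hc : c ≠ 0) {P : Place k E} : Meets Q (fun i => c * f i) P ↔ Meets Q f P := by
  have hp : pord P (fun i => c * f i) = P.ord c + pord P f := by
    obtain ⟨j, hj, hj'⟩ := exists_pord P hf
    obtain ⟨i, hi, hi'⟩ := exists_pord P (f := fun i => c * f i) ⟨j, mul_ne_zero hc hj⟩
    have hvi : f i ≠ 0 := right_ne_zero_of_mul hi
    apply le_antisymm
    · rw [← hj', ← P.ord_mul hc hj]
      exact pord_le P (f := fun i => c * f i) (mul_ne_zero hc hj)
    · rw [← hi', P.ord_mul hc hvi]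
      have := pord_le P hvi
      linarith
  have key : ∀ i, (MvPolynomial.aeval (fun i => c * f i) (Q i) = 0 ∨
      (Q i).totalDegree * pord P (fun i => c * f i) <
        P.ord (MvPolynomial.aeval (fun i => c * f i) (Q i))) ↔
      (MvPolynomial.aeval f (Q i) = 0 ∨
        (Q i).totalDegree * pord P f < P.ord (MvPolynomial.aeval f (Q i))) := by
    intro i
    obtain ⟨d, hd⟩ := hQ i
    have h1 : MvPolynomial.aeval (fun i => c * f i) (Q i) = c ^ d * MvPolynomial.aeval f (Q i) :=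
      val_smul hd c f
    rw [h1]
    by_cases h0 : MvPolynomial.aeval f (Q i) = 0
    · rw [h0, mul_zero]
      simp
    · have hQ0 : Q i ≠ 0 := fun h => h0 (by rw [h, map_zero])
      have h2 : (Q i).totalDegree = d := hd.totalDegree hQ0
      rw [or_iff_right h0, or_iff_right (mul_ne_zero (pow_ne_zero _ hc) h0),
        P.ord_mul (pow_ne_zero _ hc) h0, P.ord_pow, hp, h2]
      constructor <;> intro h <;> linarith
  exact forall_congr' key

theorem meets_over {L : Type} [Field L] [Algebra k L] [Algebra E L] [IsScalarTower k E L]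
    (hQ : ∀ i, IsForm (Q i)) {f : Fin (M + 1) → E} (hf : ∃ j, f j ≠ 0) {w : Place k L}
    {p : Place k E} {e : ℕ} (h : Over w p e) :
    Meets Q (fun i => algebraMap E L (f i)) w ↔ Meets Q f p := by
  have h0 : (0 : ℤ) < e := by exact_mod_cast h.1
  have hp : pord w (fun i => algebraMap E L (f i)) = e * pord p f := by
    obtain ⟨j, hj, hj'⟩ := exists_pord p hf
    have hj2 : algebraMap E L (f j) ≠ 0 := (map_ne_zero _).2 hj
    obtain ⟨i, hi, hi'⟩ := exists_pord w (f := fun i => algebraMap E L (f i)) ⟨j, hj2⟩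
    have hvi : f i ≠ 0 := fun h => hi (by rw [h, map_zero])
    apply le_antisymm
    · rw [← hj', ← h.2]
      exact pord_le w (f := fun i => algebraMap E L (f i)) hj2
    · rw [← hi', h.2]
      exact mul_le_mul_of_nonneg_left (pord_le _ hvi) h0.le
  refine forall_congr' fun i => ?_
  have h1 : MvPolynomial.aeval (fun i => algebraMap E L (f i)) (Q i) =
      algebraMap E L (MvPolynomial.aeval f (Q i)) := by
    rw [← MvPolynomial.aeval_algebraMap_apply]
    rfl
  rw [h1, map_eq_zero, h.2, hp]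
  by_cases h3 : MvPolynomial.aeval f (Q i) = 0
  · simp [h3]
  · rw [or_iff_right h3, or_iff_right h3]
    have e1 : ((Q i).totalDegree : ℤ) * (e * pord p f) =
      e * ((Q i).totalDegree * pord p f) := by ring
    rw [e1]
    exact mul_lt_mul_iff_right₀ h0

end meets

variable {M : ℕ} {K : Type} [Field K] [Algebra ℂ K] {x : Fin (M + 1) → K} {ι : Type}
  {Q : ι → MvPolynomial (Fin (M + 1)) ℂ}

/-- a holomorphic map from the punctured disc as a point over the field of the functions which are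
meromorphic outside of the unit disc -/
theorem exists_pt1 {f : ℂ → Fin (M + 1) → ℂ} (hf : PDisc x Q f) :
    ∃ z : Fin (M + 1) → MK, (∀ G : MvPolynomial (Fin (M + 1)) ℂ, val z G = 0 ↔
      ∀ t ∈ ball (0 : ℂ) 1 \ {0}, MvPolynomial.eval (f t) G = 0) ∧
      (¬ Extends f → ∃ j k, z k ≠ 0 ∧ ¬ MInf (z j / z k)) ∧
      ∀ (v : Place ℂ MK) (s : ℂ), s ∈ Om → (∀ x, v.Reg x ↔ Pool.Agent.Y221.AP.Reg x s) →
        ¬ Meets Q z v := by
  classical
  have hfan : ∀ i, AnalyticOnNhd ℂ (fun w => f w i) (Pool.Agent.W603.BP.PB 1) := by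
    intro i w hw
    exact (hf.hol i).analyticAt (Pool.Agent.W603.BP.disc_open.mem_nhds
      (Pool.Agent.W603.BP.mem_disc.mpr hw))
  have hinvPB : ∀ {z : ℂ}, z ∈ Om → z⁻¹ ∈ Pool.Agent.W603.BP.PB 1 := by
    intro z hz
    exact Pool.Agent.W603.BP.inv_mem_PB one_pos (by rwa [inv_one])
  have hPBinv : ∀ {w : ℂ}, w ∈ Pool.Agent.W603.BP.PB 1 → w⁻¹ ∈ Om := by
    intro w hw
    have := Pool.Agent.W603.BP.inv_mem_Ext hw
    rwa [inv_one] at this
  have hOm0 : ∀ {z : ℂ}, z ∈ Om → z ≠ 0 := by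
    intro z hz h0
    have h1 : (1 : ℝ) < ‖z‖ := hz
    rw [h0, norm_zero] at h1
    linarith
  obtain ⟨f', hf'⟩ : ∃ f' : Fin (M + 1) → ℂ → ℂ, ∀ i z, f' i z = f z⁻¹ i := ⟨_, fun _ _ => rfl⟩
  have hf'an : ∀ i, ∀ z ∈ Om, AnalyticAt ℂ (f' i) z := by
    intro i z hz
    have h1 : f' i = (fun w => f w i) ∘ fun z => z⁻¹ := by
      funext v
      exact hf' i v
    rw [h1]
    exact AnalyticAt.comp (hfan i _ (hinvPB hz)) (analyticAt_inv (hOm0 hz))
  have hmer : ∀ i, MeromorphicOn (f' i) Om := fun i z hz => (hf'an i z hz).meromorphicAt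
  obtain ⟨z, hzdef⟩ : ∃ z : Fin (M + 1) → MK, z = fun i => Pool.Agent.Y221.AP.cl (f' i) (hmer i) :=
    ⟨_, rfl⟩
  have hcont : ∀ G : MvPolynomial (Fin (M + 1)) ℂ, ∀ t ∈ Om,
      ContinuousAt (fun t => MvPolynomial.eval (fun i => f' i t) G) t := fun G t ht =>
    (MvPolynomial.continuous_eval G).continuousAt.comp
      (continuousAt_pi.2 fun i => (hf'an i t ht).continuousAt)
  have hGan : ∀ G : MvPolynomial (Fin (M + 1)) ℂ, ∀ t ∈ Om,
      AnalyticAt ℂ (fun t => MvPolynomial.eval (fun i => f' i t) G) t := by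
    intro P z hz
    simp only [MvPolynomial.eval_eq']
    apply Finset.analyticAt_fun_sum
    intro α _
    apply AnalyticAt.fun_mul analyticAt_const
    apply Finset.analyticAt_fun_prod
    intro s _
    exact (hf'an s z hz).fun_pow _
  have hGmer : ∀ G : MvPolynomial (Fin (M + 1)) ℂ,
      MeromorphicOn (fun t => MvPolynomial.eval (fun i => f' i t) G) Om :=
    fun G z hz => (hGan G z hz).meromorphicAt
  have hvcl : ∀ G : MvPolynomial (Fin (M + 1)) ℂ, val z G = Pool.Agent.Y221.AP.cl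
      (fun t => MvPolynomial.eval (fun i => f' i t) G) (hGmer G) := by
    intro G
    rw [hzdef, val_cl hmer G]
  have hvz : ∀ G, val z G = 0 ↔ ∀ t ∈ Om, MvPolynomial.eval (fun i => f' i t) G = 0 := by
    intro G
    rw [hvcl, Pool.Agent.Y221.AP.cl_eq_zero]
    constructor
    · intro h t ht
      exact Pool.Agent.Y221.AP.eq_of_cod (g := fun _ => 0) h ht (hcont G t ht)
        continuousAt_const
    · intro h
      filter_upwards [Pool.Agent.Y221.AP.cod_Om] with t ht
      exact h t ht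
  have hevf : ∀ (G : MvPolynomial (Fin (M + 1)) ℂ) (t : ℂ),
      MvPolynomial.eval (fun i => f' i t) G = MvPolynomial.eval (f t⁻¹) G := by
    intro G t
    have h1 : (fun i => f' i t) = f t⁻¹ := by
      funext i
      rw [hf']
    rw [h1]
  refine ⟨z, fun G => ?_, fun hess => ?_, ?_⟩
  · rw [hvz]
    constructor
    · intro h t ht
      have h1 := h t⁻¹ (hPBinv (Pool.Agent.W603.BP.mem_disc.1 ht))
      rw [hevf, inv_inv] at h1
      exact h1
    · intro h t ht
      rw [hevf]
      exact h _ (Pool.Agent.W603.BP.mem_disc.2 (hinvPB ht))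
  · by_contra hcon
    push Not at hcon
    apply hess
    refine Pool.Agent.W603.BP.extends_of f hfan (fun w hw => hf.ne w (Pool.Agent.W603.BP.mem_disc.2 hw))
      fun j k hj hk => ?_
    have hzk : z k ≠ 0 := by
      intro h0
      apply hk
      rw [hzdef] at h0
      have h1 := Pool.Agent.Y221.AP.cl_eq_zero.1 h0
      filter_upwards [PB_mem one_pos] with w hw
      have h2 := Pool.Agent.Y221.AP.eq_of_cod (g := fun _ => 0) h1 (hPBinv hw)
        (hf'an k _ (hPBinv hw)).continuousAt continuousAt_const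
      rw [hf', inv_inv] at h2
      exact h2
    have hjk : MInf (z j / z k) := hcon j k hzk
    refine ⟨fun w => Fn (z j / z k) w⁻¹, hjk, ?_⟩
    have h1 : Pool.Agent.Y221.AP.cl (f' j) (hmer j) =
        Pool.Agent.Y221.AP.cl (fun t => Fn (z j / z k) t * f' k t)
        ((Pool.Agent.Y221.AP.Fn_mero _).mul (hmer k)) := by
      have h2 : Pool.Agent.Y221.AP.cl (f' j) (hmer j) = z j := by rw [hzdef]
      have h3 : Pool.Agent.Y221.AP.cl (f' k) (hmer k) = z k := by rw [hzdef]
      have h4 : Pool.Agent.Y221.AP.cl (fun t => Fn (z j / z k) t * f' k t)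
          ((Pool.Agent.Y221.AP.Fn_mero _).mul (hmer k)) =
          Pool.Agent.Y221.AP.cl (Fn (z j / z k)) (Pool.Agent.Y221.AP.Fn_mero _) *
            Pool.Agent.Y221.AP.cl (f' k) (hmer k) := rfl
      rw [h4, h2, h3, Pool.Agent.Y221.AP.cl_Fn, div_mul_cancel₀ _ hzk]
    rw [Pool.Agent.Y221.AP.cl_eq] at h1
    filter_upwards [hjk.reg, PB_mem one_pos] with w hw1 hw2
    have hwO := hPBinv hw2
    have h2 := Pool.Agent.Y221.AP.eq_of_cod (f := f' j) (g := fun t => Fn (z j / z k) t * f' k t)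
      h1 hwO (hf'an j _ hwO).continuousAt
      (hw1.continuousAt.mul (hf'an k _ hwO).continuousAt)
    rw [hf', hf', inv_inv] at h2
    exact h2
  · intro v s hs hv hM
    have hreg : ∀ G : MvPolynomial (Fin (M + 1)) ℂ, v.Reg (val z G) := by
      intro G
      rw [hv, hvcl]
      exact Pool.Agent.Y221.AP.reg_of_punct hs (Pool.Agent.Y221.AP.Fn_cl' (hGmer G) hs)
        (hGan G s hs)
    have hord : ∀ G : MvPolynomial (Fin (M + 1)) ℂ,
        MvPolynomial.eval (fun i => f' i s) G ≠ 0 → v.ord (val z G) = 0 := by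
      intro G hG
      have h0 : val z G ≠ 0 := fun h => hG ((hvz G).1 h s hs)
      have h1 := (v.reg_iff h0).1 (hreg G)
      have h2 : Fn (val z G) s ≠ 0 := by
        rw [hvcl, (Pool.Agent.Y221.AP.Fn_cl (hGmer G) hs (hGan G s hs)).self_of_nhds]
        exact hG
      have h3 : v.Reg (val z G)⁻¹ := by
        rw [hv]
        exact ((hv _).1 (hreg G)).inv h2 hs
      have h4 := (v.reg_iff (inv_ne_zero h0)).1 h3
      rw [v.ord_inv] at h4
      omega
    have hs1 : s⁻¹ ∈ ball (0 : ℂ) 1 \ {0} := Pool.Agent.W603.BP.mem_disc.2 (hinvPB hs)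
    obtain ⟨i, hi⟩ := hf.off s⁻¹ hs1
    obtain ⟨j, hj⟩ := Function.ne_iff.1 (hf.ne s⁻¹ hs1)
    rw [← hevf] at hi
    have hX : ∀ l, val z (MvPolynomial.X l : MvPolynomial (Fin (M + 1)) ℂ) = z l := fun l => by
      unfold Pool.Agent.W602.GT.val
      rw [MvPolynomial.aeval_X]
    have hp : pord v z = 0 := by
      apply le_antisymm
      · have h1 := hord (MvPolynomial.X j) (by
          rw [MvPolynomial.eval_X, hf']
          exact hj)
        rw [hX] at h1
        have h2 : z j ≠ 0 := by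
          intro h0
          have h3 := (hvz (MvPolynomial.X j)).1 (by rw [hX]; exact h0) s hs
          rw [MvPolynomial.eval_X, hf'] at h3
          exact hj h3
        have h3 := pord_le v h2
        omega
      · have h2 : ∃ l, z l ≠ 0 := by
          refine ⟨j, fun h0 => ?_⟩
          have h3 := (hvz (MvPolynomial.X j)).1 (by rw [hX]; exact h0) s hs
          rw [MvPolynomial.eval_X, hf'] at h3
          exact hj h3
        obtain ⟨l, hl, hlo⟩ := exists_pord v h2
        rw [← hlo]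
        have h4 := hreg (MvPolynomial.X l)
        rw [hX] at h4
        exact (v.reg_iff hl).1 h4
    have h5 := hord (Q i) hi
    have h6 : val z (Q i) ≠ 0 := fun h => hi ((hvz (Q i)).1 h s hs)
    rcases hM i with h7 | h7
    · exact h6 h7
    · rw [hp, mul_zero] at h7
      have h8 : v.ord (MvPolynomial.aeval z (Q i)) = 0 := h5
      omega

/-- **The closure of the image of a punctured disc in a quasi-projective variety.** -/
theorem disc_sub' (hQ : ∀ i, IsForm (Q i)) {f : ℂ → Fin (M + 1) → ℂ} (hf : PDisc x Q f)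
    (hess : ¬ Extends f) :
    ∃ (E : Type) (_ : Field E) (_ : Algebra ℂ E) (z : Fin (M + 1) → E) (t : ℕ), OnVar ℂ x z ∧
      coords ℂ z = ⊤ ∧ (∃ i, MvPolynomial.aeval z (Q i) ≠ 0) ∧
      Algebra.trdeg ℂ E = t ∧ 1 ≤ t ∧
      (∀ G : MvPolynomial (Fin (M + 1)) ℂ, IsForm G →
        (val z G = 0 ↔ ∀ t ∈ ball (0 : ℂ) 1 \ {0}, MvPolynomial.eval (f t) G = 0)) ∧
      (t = 1 → ∀ _ : IsFF ℂ E, ¬ LogGeneralType ℂ E 1 fun P => Meets Q z P) := by
  obtain ⟨ξ, hξ, hjk', hmeet⟩ := exists_pt1 hf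
  obtain ⟨j, k, hk, hjk⟩ := hjk' hess
  obtain ⟨E, i1, i2, φ, v, hv1, hv2, hv3, hv4⟩ := exists_sub (k := ℂ) hk
  obtain ⟨t, ht⟩ := exists_trdeg_of_gen hv3
  have hiff : ∀ G : MvPolynomial (Fin (M + 1)) ℂ, IsForm G →
        (val v G = 0 ↔ ∀ t ∈ ball (0 : ℂ) 1 \ {0}, MvPolynomial.eval (f t) G = 0) :=
    fun G hG => (hv4 G hG).trans (hξ G)
  obtain ⟨s0, hs0⟩ : ∃ s0 : ℂ, s0 ∈ ball (0 : ℂ) 1 \ {0} := by
    refine ⟨(2 : ℂ)⁻¹, ?_, ?_⟩
    · rw [mem_ball_zero_iff, norm_inv]
      norm_num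
    · simp
  obtain ⟨i, hi⟩ := hf.off s0 hs0
  have hQv : MvPolynomial.aeval v (Q i) ≠ 0 := by
    intro h0
    exact hi ((hiff (Q i) (hQ i)).1 h0 s0 hs0)
  refine ⟨E, i1, i2, v, t, ⟨⟨k, hv2⟩, fun G hG hGx => (hiff G hG).2 (hf.mem G hG hGx)⟩,
    hv3, ⟨i, hQv⟩, ht, ?_, hiff, ?_⟩
  · rw [Nat.one_le_iff_ne_zero]
    intro h0
    rw [h0, Nat.cast_zero, trdeg_eq_zero_iff] at ht
    have hint : Algebra.IsIntegral ℂ E := Algebra.isAlgebraic_iff_isIntegral.1 ht
    obtain ⟨c, hc⟩ := (IsAlgClosed.algebraMap_bijective_of_isIntegral (k := ℂ)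
      (K := E)).2 (v j)
    apply hjk
    have h2 : ξ j / ξ k = algebraMap ℂ MK c := by
      rw [← hv1 j, ← hc, AlgHom.commutes]
    rw [h2]
    exact Pool.Agent.Y221.AP.MI.algebraMap_mem c
  · intro ht1 hff hgt
    let _ : Algebra E MK := φ.toRingHom.toAlgebra
    have htow : IsScalarTower ℂ E MK :=
      IsScalarTower.of_algebraMap_eq' φ.comp_algebraMap.symm
    have h1 := lgpc (E := E) (meets_fin ⟨k, hv2⟩ ⟨i, hQv⟩) hgt (fun w s hs hw P e hP hm => by
      have h2 := (meets_over hQ ⟨k, hv2⟩ hP).2 hm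
      have h3 : (fun i => algebraMap E MK (v i)) = fun i => (ξ k)⁻¹ * ξ i := by
        funext i
        change φ (v i) = _
        rw [hv1]
        ring
      rw [h3, meets_scale hQ ⟨k, hk⟩ (inv_ne_zero hk)] at h2
      exact hmeet w s hs hw h2) (v j)
    have h2 : algebraMap E MK (v j) = φ (v j) := rfl
    rw [h2, hv1] at h1
    exact hjk h1

end Pool.Agent.H910.Lp
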