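import Pool.Agent.H910.Lp.Bb
import Pool.Agent.H910.Lp.Pdf
import Pool.Agent.H910.Lp.Off
import Pool.Graph.R_seed8.TH152.BB.App

/-!
Pointed maps from curves to affine varieties.
-/

set_option autoImplicit false
set_option linter.unusedSectionVars false
set_option linter.unusedVariables false
set_option linter.overlappingInstances false

open scoped LinearAlgebra.Projectivization

namespace Pool.Agent.H910.Lp

open FF MvPolynomial Pool.Agent.W603.LV
open Pool.Agent.W602.GT (val IsForm coords val_smul)
open Pool.Agent.W602.RG (HasValue)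
open Pool.Agent.W603.PV (pht pord exists_pord pord_le ge_pord)
open Pool.Agent.Y216 (OnVar)
open Pool.Agent.H916 (Meets)
open Pool.Agent.Q271.RC (Nonconst)

section general

variable {k : Type} [Field k] [IsAlgClosed k] [CharZero k] {M d : ℕ}

theorem ge_hgt {L : Type} [Field L] [Algebra k L] [IsFF k L] (P : Place k L) (g : L) :
    Ge P (-hgt k g) g := by
  classical
  right
  obtain ⟨T, hT⟩ := exists_supp (k := k) (Finset.univ : Finset Unit) fun _ => g
  have h1 := hgt_finset g T fun P hP => hT () (Finset.mem_univ _) P hP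
  by_cases hP : P.ord g = 0
  · rw [hP]
    have := hgt_nonneg (k := k) g
    omega
  · have h2 := Finset.single_le_sum (f := fun P : Place k L => max (-P.ord g) 0)
      (fun _ _ => le_max_right _ _) (hT () (Finset.mem_univ _) P hP)
    rw [h1]
    have := le_max_left (-P.ord g) 0
    omega

theorem ae_eval {n : ℕ} (f : Fin n → k) (H : MvPolynomial (Fin n) k) :
    aeval f H = eval f H := DFunLike.congr_fun (coe_aeval_eq_eval f) H

theorem ge_aeval {L : Type} [Field L] [Algebra k L] {P : Place k L} {t : L} (h1 : Ge P 0 t)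
    (R : Polynomial k) : Ge P 0 (Polynomial.aeval t R) := by
  induction R using Polynomial.induction_on' with
  | add p q' hp hq' =>
    rw [map_add]
    exact hp.add hq'
  | monomial n c =>
    rw [Polynomial.aeval_monomial]
    have h4 : ∀ n : ℕ, Ge P 0 (t ^ n) := by
      intro n
      induction n with
      | zero =>
        rw [pow_zero]
        exact Or.inr (by rw [P.ord_one])
      | succ n ih =>
        rw [pow_succ]
        have := ih.mul h1
        rwa [add_zero] at this
    have := (Ge.const (P := P) c).mul (h4 n)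
    rwa [add_zero] at this

/-- the word with one letter `i` and the other letters equal to `j0` -/
def upd (j0 i : Fin (M + 1)) : Fin (d + 1) → Fin (M + 1) := Fin.cons i fun _ => j0

/-- the values of the coordinate functions of the affine variety `Q ≠ 0` -/
noncomputable def uf (Q : MvPolynomial (Fin (M + 1)) k) {E : Type} [Field E] [Algebra k E]
    (f : Fin (M + 1) → E) (w : Fin (d + 1) → Fin (M + 1)) : E :=
  (∏ t, f (w t)) / aeval f Q

theorem prod_upd {E : Type} [Field E] (f : Fin (M + 1) → E) (j0 i : Fin (M + 1)) :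
    ∏ t, f ((upd j0 i : Fin (d + 1) → Fin (M + 1)) t) = f i * f j0 ^ d := by
  unfold upd
  rw [Fin.prod_univ_succ, Fin.cons_zero]
  simp only [Fin.cons_succ, Finset.prod_const, Finset.card_univ, Fintype.card_fin]

theorem upd_self (j0 : Fin (M + 1)) : (upd j0 j0 : Fin (d + 1) → Fin (M + 1)) = fun _ => j0 := by
  funext t
  refine Fin.cases ?_ (fun _ => ?_) t
  · exact Fin.cons_zero _ _
  · exact Fin.cons_succ _ _ _

variable {Q : MvPolynomial (Fin (M + 1)) k}

/-- **Polynomial curves in affine varieties.** -/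
theorem exists_poly_curve (hQ : Q.IsHomogeneous (d + 1)) {L : Type} [Field L] [Algebra k L]
    [IsFF k L] {S : Finset (Place k L)} {c : Place k L} (hcS : c ∉ S) {a : Fin (M + 1) → k}
    {j0 : Fin (M + 1)} (hj0 : a j0 ≠ 0) (hQa : eval a Q ≠ 0) (z : ℕ → Fin (M + 1) → L)
    (hinj : Function.Injective z) (hz0 : ∀ m, z m j0 = 1) (hzQ : ∀ m, aeval (z m) Q ≠ 0)
    (hzS : ∀ m P, Meets (fun _ : Unit => Q) (z m) P → P ∈ S) (hzc : ∀ m, HasValue c a (z m))
    (B : ℕ) (hB : ∀ m, pht k (z m) ≤ B) :
    ∃ g : Fin (M + 1) → Polynomial k,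
      (∀ (H : MvPolynomial (Fin (M + 1)) k), IsForm H → (∀ m, aeval (z m) H = 0) →
        aeval g H = 0) ∧
      (∀ (H : MvPolynomial (Fin (M + 1)) k), IsForm H → eval a H ≠ 0 → aeval g H ≠ 0) ∧
      (∀ P : Place k (RatFunc k), Meets (fun _ : Unit => Q)
        (fun i => algebraMap (Polynomial k) (RatFunc k) (g i)) P → P.ord RatFunc.X < 0) ∧
      ∃ i j, algebraMap (Polynomial k) (RatFunc k) (g j) ≠ 0 ∧
        Transcendental k (algebraMap (Polynomial k) (RatFunc k) (g i) /
          algebraMap (Polynomial k) (RatFunc k) (g j)) := by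
  classical
  have hQ0 : Q ≠ 0 := fun h => hQa (by rw [h, map_zero])
  obtain ⟨b, hb⟩ : ∃ b : Fin (M + 1) → k, b = fun j => a j / a j0 := ⟨_, rfl⟩
  have hbQ : eval b Q ≠ 0 := by
    intro h5
    apply hQa
    have h6 : a = fun j => a j0 * b j := by
      funext j
      rw [hb]
      field_simp
    rw [h6]
    have h7 := val_smul hQ (a j0) b
    unfold Pool.Agent.W602.GT.val at h7
    rw [ae_eval, ae_eval] at h7
    rw [h7, h5, mul_zero]
  -- the values at the point `c`
  have hvalues : ∀ m j, Ge c 1 (z m j - algebraMap k L (b j)) := by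
    intro m j
    have hp := Pool.Agent.W273.RG.FNW.pord_zero (hzc m) hj0 (hz0 m)
    have hxj0 : algebraMap k L (a j0) ≠ 0 := (map_ne_zero _).2 hj0
    have e : algebraMap k L (a j0) * z m j - algebraMap k L (a j) * z m j0 =
        algebraMap k L (a j0) * (z m j - algebraMap k L (b j)) := by
      rw [hz0, hb]
      simp only [map_div₀]
      field_simp
    rcases hzc m j0 j with h3 | h3
    · left
      rw [e] at h3
      exact (mul_eq_zero.1 h3).resolve_left hxj0
    · by_cases h4 : z m j - algebraMap k L (b j) = 0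
      · left; exact h4
      · right
        rw [e, c.ord_mul hxj0 h4, c.ord_const hj0, zero_add, hp] at h3
        omega
  have hreg : ∀ m j, Ge c 0 (z m j) := by
    intro m j
    have h3 : z m j = (z m j - algebraMap k L (b j)) + algebraMap k L (b j) := by ring
    rw [h3]
    exact ((hvalues m j).mono (by norm_num)).add (Ge.const _)
  have hred : ∀ m (H : MvPolynomial (Fin (M + 1)) k),
      Ge c 1 (aeval (z m) H - algebraMap k L (eval b H)) := fun m H =>
    red_mvaeval c (hreg m) (hvalues m) H
  have hqc : ∀ m, c.ord (aeval (z m) Q) = 0 := by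
    intro m
    have h1 := hred m Q
    have h2 : Ge c 0 (aeval (z m) Q) := by
      have h3 : aeval (z m) Q = (aeval (z m) Q - algebraMap k L (eval b Q)) +
        algebraMap k L (eval b Q) := by ring
      rw [h3]
      exact (h1.mono (by norm_num)).add (Ge.const _)
    by_contra hcon
    have h3 : Ge c 1 (aeval (z m) Q) := by
      right
      have := h2.resolve_left (hzQ m)
      omega
    have h4 := h3.sub h1
    rw [sub_sub_cancel] at h4
    rcases h4 with h4 | h4
    · rw [map_eq_zero] at h4
      exact hbQ h4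
    · rw [c.ord_const hbQ] at h4
      omega
  -- the functions
  have hmw : ∀ {E : Type} [Field E] [Algebra k E] (f : Fin (M + 1) → E)
      (w : Fin (d + 1) → Fin (M + 1)), ∏ t, f (w t) =
        aeval f (∏ t, X (w t) : MvPolynomial (Fin (M + 1)) k) := by
    intro E _ _ f w
    rw [map_prod]
    simp only [aeval_X]
  have hmwdeg : ∀ w : Fin (d + 1) → Fin (M + 1),
      (∏ t, X (w t) : MvPolynomial (Fin (M + 1)) k).IsHomogeneous (d + 1) := by
    intro w
    have h1 := IsHomogeneous.prod Finset.univ (fun t => (X (w t) : MvPolynomial (Fin (M + 1)) k))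
      (fun _ => 1) fun t _ => isHomogeneous_X k (w t)
    simpa using h1
  have hw1 : ∀ m (w : Fin (d + 1) → Fin (M + 1)), Ge c 1 (uf Q (z m) w - algebraMap k L (uf Q b w)) := by
    intro m w
    have hqb : algebraMap k L (eval b Q) ≠ 0 := (map_ne_zero _).2 hbQ
    have h1 := hred m ((∏ t, X (w t)) * C (eval b Q) - C (∏ t, b (w t)) * Q)
    have h2 : eval b ((∏ t, X (w t)) * C (eval b Q) - C (∏ t, b (w t)) * Q) = 0 := by
      rw [map_sub, map_mul, map_mul, eval_C, eval_C, map_prod]
      simp only [eval_X]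
      ring
    rw [h2, map_zero, sub_zero, map_sub, map_mul, map_mul, aeval_C, aeval_C, ← hmw] at h1
    have h3 : uf Q (z m) w - algebraMap k L (uf Q b w) =
        ((∏ t, z m (w t)) * algebraMap k L (eval b Q) -
          algebraMap k L (∏ t, b (w t)) * aeval (z m) Q) *
          (aeval (z m) Q * algebraMap k L (eval b Q))⁻¹ := by
      unfold uf
      rw [ae_eval, map_div₀]
      have := hzQ m
      field_simp
    rw [h3]
    have h4 : Ge c 0 (aeval (z m) Q * algebraMap k L (eval b Q))⁻¹ := by
      right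
      rw [c.ord_inv, c.ord_mul (hzQ m) hqb, hqc, c.ord_const hbQ]
      norm_num
    have := h1.mul h4
    rwa [add_zero] at this
  have hwS : ∀ m (w : Fin (d + 1) → Fin (M + 1)) P, P ∉ S → Ge P 0 (uf Q (z m) w) := by
    intro m w P hP
    have h1 : ¬ Meets (fun _ : Unit => Q) (z m) P := fun h => hP (hzS m P h)
    unfold Meets at h1
    push Not at h1
    obtain ⟨-, -, h2⟩ := h1
    rw [hQ.totalDegree hQ0] at h2
    have h3 : ∀ s : Finset (Fin (d + 1)), Ge P (s.card * pord P (z m)) (∏ t ∈ s, z m (w t)) := by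
      intro s
      induction s using Finset.induction_on with
      | empty =>
        rw [Finset.prod_empty, Finset.card_empty, Nat.cast_zero, zero_mul]
        exact Or.inr (by rw [P.ord_one])
      | insert t s hts ih =>
        rw [Finset.prod_insert hts, Finset.card_insert_of_notMem hts]
        have := (ge_pord P (z m) (w t)).mul ih
        refine this.mono (le_of_eq ?_)
        push_cast
        ring
    have h4 := h3 Finset.univ
    rw [Finset.card_univ, Fintype.card_fin] at h4
    unfold uf
    rw [div_eq_mul_inv]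
    have h5 : Ge P (-P.ord (aeval (z m) Q)) (aeval (z m) Q)⁻¹ := Or.inr (by rw [P.ord_inv])
    refine (h4.mul h5).mono ?_
    linarith
  have hsum : ∀ m, ∑ j, hgt k (z m j) ≤ (M + 1) * B := by
    intro m
    calc ∑ j, hgt k (z m j) ≤ ∑ _j : Fin (M + 1), (B : ℤ) := Finset.sum_le_sum fun j _ => by
          by_cases h0 : z m j = 0
          · rw [h0, hgt_zero]
            exact Int.natCast_nonneg _
          · have h6 := Pool.Agent.W603.CX.hgt_le_pht (k := k) (z m) (j := j) (l := j0) h0 (by
              rw [hz0]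
              exact one_ne_zero)
            rw [hz0, div_one] at h6
            exact h6.trans (hB m)
      _ = (M + 1) * B := by simp
  obtain ⟨B', hB'⟩ : ∃ B' : ℕ, B' = 2 * (d + 1) * ((M + 1) * B) := ⟨_, rfl⟩
  have hhgt : ∀ m (w : Fin (d + 1) → Fin (M + 1)), hgt k (uf Q (z m) w) ≤ B' := by
    intro m w
    have h1 : ∀ H : MvPolynomial (Fin (M + 1)) k, H.IsHomogeneous (d + 1) →
        hgt k (aeval (z m) H) ≤ (d + 1) * ((M + 1) * B) := by
      intro H hH
      refine (hgt_mvpoly (z m) H).trans ?_
      have h2 : (H.totalDegree : ℤ) ≤ d + 1 := by exact_mod_cast hH.totalDegree_le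
      calc (H.totalDegree : ℤ) * ∑ j, hgt k (z m j) ≤ (d + 1) * ∑ j, hgt k (z m j) :=
            mul_le_mul_of_nonneg_right h2 (Finset.sum_nonneg fun _ _ => hgt_nonneg _)
        _ ≤ _ := mul_le_mul_of_nonneg_left (hsum m) (by positivity)
    unfold uf
    by_cases h0 : ∏ t, z m (w t) = 0
    · rw [h0, zero_div, hgt_zero]
      exact Int.natCast_nonneg _
    · rw [div_eq_mul_inv]
      refine (hgt_mul h0 (inv_ne_zero (hzQ m))).trans ?_
      rw [hgt_inv]
      have h2 := h1 _ (hmwdeg w)
      rw [← hmw] at h2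
      have h3 := h1 Q hQ
      rw [hB']
      push_cast
      linarith
  -- the space of functions
  obtain ⟨D, hD⟩ : ∃ D : Place k L →₀ ℤ, (∀ P ∈ S, D P = B') ∧ D c = -1 ∧
      ∀ P, P ∉ S → P ≠ c → D P = 0 := by
    refine ⟨Finsupp.onFinset (insert c S) (fun P => if P ∈ S then (B' : ℤ) else
      if P = c then -1 else 0) ?_, ?_, ?_, ?_⟩
    · intro P hP
      by_contra hcon
      rw [Finset.mem_insert, not_or] at hcon
      simp only [if_neg hcon.2, if_neg hcon.1] at hP
      exact hP rfl
    · intro P hP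
      rw [Finsupp.onFinset_apply, if_pos hP]
    · rw [Finsupp.onFinset_apply, if_neg hcS, if_pos rfl]
    · intro P hP hPc
      rw [Finsupp.onFinset_apply, if_neg hP, if_neg hPc]
  let W := Fin (d + 1) → Fin (M + 1)
  let e : Fin (Fintype.card W) ≃ W := (Fintype.equivFin W).symm
  have hmem : ∀ m n, uf Q (z m) (e n) - algebraMap k L (uf Q b (e n)) ∈ FF.LL D := by
    intro m n
    by_cases h0 : uf Q (z m) (e n) - algebraMap k L (uf Q b (e n)) = 0
    · exact Or.inl h0
    · right
      intro P
      by_cases hPS : P ∈ S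
      · rw [hD.1 P hPS]
        have h1 := (ge_hgt P (uf Q (z m) (e n) - algebraMap k L (uf Q b (e n)))).resolve_left h0
        have h2 := Pool.Agent.TH152.BB.hgt_sub_const (uf Q (z m) (e n)) (uf Q b (e n))
        have h3 := hhgt m (e n)
        linarith
      · by_cases hPc : P = c
        · rw [hPc, hD.2.1]
          have := (hw1 m (e n)).resolve_left h0
          omega
        · rw [hD.2.2 P hPS hPc]
          have h1 : Ge P 0 (algebraMap k L (uf Q b (e n))) := Ge.const _
          have := ((hwS m (e n) P hPS).sub h1).resolve_left h0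
          omega
  obtain ⟨P, hP0, ⟨n0, hn0⟩, hPF⟩ := poly_curve c (FF.LL D) (fun v hv => by
      rcases hv with hv | hv
      · exact Or.inl hv
      · right
        have := hv c
        rw [hD.2.1] at this
        omega) (fun m n => uf Q (z m) (e n) - algebraMap k L (uf Q b (e n))) (by
      intro m m' hmm
      apply hinj
      have h1 : ∀ w : W, uf Q (z m) w = uf Q (z m') w := by
        intro w
        have h2 := congrFun hmm (e.symm w)
        simp only [Equiv.apply_symm_apply] at h2
        exact sub_left_injective h2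
      have h3 : ∀ m i, z m i = uf Q (z m) (upd j0 i : W) / uf Q (z m) (fun _ => j0 : W) := by
        intro m i
        unfold uf
        rw [prod_upd, Finset.prod_const, Finset.card_univ, Fintype.card_fin, hz0]
        simp only [one_pow, mul_one]
        have := hzQ m
        field_simp
      funext i
      rw [h3 m, h3 m', h1, h1]) (fun m n => hmem m n)
  -- the coordinates of the polynomial curve
  obtain ⟨U, hU⟩ : ∃ U : W → Polynomial k, U = fun w => P (e.symm w) +
    Polynomial.C (uf Q b w) := ⟨_, rfl⟩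
  have hUF : ∀ F : MvPolynomial W k, (∀ m, aeval (uf Q (z m)) F = 0) → aeval U F = 0 := by
    intro F hF
    have h1 := hPF (aeval (fun w => X (e.symm w) + C (uf Q b w)) F) (fun m => by
      have h2 := comp_aeval_apply (f := fun w : W => (X (e.symm w) + C (uf Q b w) :
        MvPolynomial (Fin (Fintype.card W)) k)) (aeval fun n => uf Q (z m) (e n) -
          algebraMap k L (uf Q b (e n))) F
      rw [h2, ← hF m]
      congr 1
      congr 1
      funext w
      rw [map_add, aeval_X, aeval_C, Equiv.apply_symm_apply, sub_add_cancel])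
    have h2 := comp_aeval_apply (f := fun w : W => (X (e.symm w) + C (uf Q b w) :
      MvPolynomial (Fin (Fintype.card W)) k)) (aeval P) F
    rw [h2] at h1
    rw [← h1, hU]
    congr 1
    congr 1
    funext w
    rw [map_add, aeval_X, aeval_C]
    rfl
  obtain ⟨g, hg⟩ : ∃ g : Fin (M + 1) → Polynomial k, ∀ i, g i = U (upd j0 i) := ⟨_, fun _ => rfl⟩
  have hgj0 : g j0 = U fun _ => j0 := by rw [hg, upd_self]
  have hscale : ∀ (m : ℕ) (i : Fin (M + 1)), uf Q (z m) (upd j0 i : W) =
      (aeval (z m) Q)⁻¹ * z m i := by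
    intro m i
    unfold uf
    rw [prod_upd, hz0, one_pow, mul_one, div_eq_mul_inv, mul_comm]
  have hform : ∀ H : MvPolynomial (Fin (M + 1)) k, IsForm H → (∀ m, aeval (z m) H = 0) →
      aeval g H = 0 := by
    rintro H ⟨δ, hH⟩ hzH
    have h1 := hUF (aeval (fun i => X (upd j0 i : W)) H) (fun m => by
      rw [comp_aeval_apply]
      have h2 : (fun i => aeval (uf Q (z m)) (X (upd j0 i : W) : MvPolynomial W k)) =
          fun i => (aeval (z m) Q)⁻¹ * z m i := by
        funext i
        rw [aeval_X, hscale]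
      rw [h2]
      have h3 := val_smul hH (aeval (z m) Q)⁻¹ (z m)
      unfold Pool.Agent.W602.GT.val at h3
      rw [h3, hzH, mul_zero])
    rw [comp_aeval_apply] at h1
    rw [← h1]
    congr 1
    congr 1
    funext i
    rw [aeval_X, hg]
  have hQg : aeval g Q = U (fun _ => j0) ^ d := by
    have h1 := hUF (aeval (fun i => X (upd j0 i : W)) Q - X (fun _ => j0) ^ d) (fun m => by
      rw [map_sub, map_pow, aeval_X, comp_aeval_apply]
      have h2 : (fun i => aeval (uf Q (z m)) (X (upd j0 i : W) : MvPolynomial W k)) =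
          fun i => (aeval (z m) Q)⁻¹ * z m i := by
        funext i
        rw [aeval_X, hscale]
      rw [h2]
      have h3 := val_smul hQ (aeval (z m) Q)⁻¹ (z m)
      unfold Pool.Agent.W602.GT.val at h3
      rw [h3]
      unfold uf
      rw [Finset.prod_const, hz0, one_pow, pow_succ, mul_assoc, inv_mul_cancel₀ (hzQ m), mul_one,
        one_div, sub_self])
    rw [map_sub, map_pow, aeval_X, comp_aeval_apply, sub_eq_zero] at h1
    rw [← h1]
    congr 1
    congr 1
    funext i
    rw [aeval_X, hg]
  have hword : ∀ w : W, U w * U (fun _ => j0) ^ d = ∏ t, g (w t) := by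
    intro w
    have h1 := hUF (X w * X (fun _ => j0) ^ d - ∏ t, X (upd j0 (w t) : W)) (fun m => by
      rw [map_sub, map_mul, map_pow, map_prod, aeval_X, aeval_X]
      simp only [aeval_X, hscale]
      rw [Finset.prod_mul_distrib, Finset.prod_const, Finset.card_univ, Fintype.card_fin]
      unfold uf
      rw [Finset.prod_const, hz0, one_pow, one_div, pow_succ, div_eq_mul_inv]
      ring)
    rw [map_sub, map_mul, map_pow, map_prod, aeval_X, aeval_X, sub_eq_zero] at h1
    rw [h1]
    refine Finset.prod_congr rfl fun t _ => ?_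
    rw [aeval_X, hg]
  have hU0 : ∀ w, (U w).eval 0 = uf Q b w := by
    intro w
    rw [hU]
    simp only [Polynomial.eval_add, Polynomial.eval_C]
    rw [← Polynomial.coeff_zero_eq_eval_zero, hP0, zero_add]
  have hbj0 : b j0 = 1 := by
    rw [hb]
    exact div_self hj0
  have hg0 : ∀ i, (g i).eval 0 = (eval b Q)⁻¹ * b i := by
    intro i
    rw [hg, hU0]
    unfold uf
    rw [prod_upd, hbj0, one_pow, mul_one, ae_eval, div_eq_mul_inv, mul_comm]
  have hUJ : U (fun _ => j0) ≠ 0 := by
    intro h0
    have h1 := hg0 j0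
    rw [hgj0, h0, Polynomial.eval_zero, hbj0, mul_one] at h1
    exact inv_ne_zero hbQ h1.symm
  have hpt : ∀ H : MvPolynomial (Fin (M + 1)) k, IsForm H → eval a H ≠ 0 → aeval g H ≠ 0 := by
    rintro H ⟨δ, hH⟩ hHa h0
    apply hHa
    have h1 : eval (fun i => (g i).eval 0) H = 0 := by
      have h2 := comp_aeval_apply (f := g) (Polynomial.aeval (0 : k) : Polynomial k →ₐ[k] k) H
      rw [h0, map_zero] at h2
      simp only [Polynomial.coe_aeval_eq_eval] at h2
      exact h2.symm
    have h2 : a = fun i => (a j0 * eval b Q) * (g i).eval 0 := by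
      funext i
      rw [hg0, hb]
      simp only
      rw [hb] at hbQ
      field_simp
    rw [h2]
    have h3 := val_smul hH (a j0 * eval b Q) fun i => (g i).eval 0
    unfold Pool.Agent.W602.GT.val at h3
    rw [ae_eval, ae_eval, h1, mul_zero] at h3
    exact h3
  have hinjR : Function.Injective (algebraMap (Polynomial k) (RatFunc k)) :=
    RatFunc.algebraMap_injective k
  obtain ⟨v, hv⟩ : ∃ v : Fin (M + 1) → RatFunc k, ∀ i, v i =
    algebraMap (Polynomial k) (RatFunc k) (g i) := ⟨_, fun _ => rfl⟩
  have hvae : ∀ H : MvPolynomial (Fin (M + 1)) k, aeval v H =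
      algebraMap (Polynomial k) (RatFunc k) (aeval g H) := by
    intro H
    have h1 : v = fun i => algebraMap (Polynomial k) (RatFunc k) (g i) := funext hv
    rw [h1]
    exact aeval_algebraMap_apply _ _ _
  have hvj0 : v j0 ≠ 0 := by
    rw [hv, hgj0]
    exact (map_ne_zero_iff _ hinjR).2 hUJ
  refine ⟨g, hform, hpt, fun P' hM => ?_, ?_⟩
  · by_contra hcon
    rw [not_lt] at hcon
    have hM' : Meets (fun _ : Unit => Q) v P' := by
      have h1 : v = fun i => algebraMap (Polynomial k) (RatFunc k) (g i) := funext hv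
      rw [h1]
      exact hM
    have hreg' : ∀ R : Polynomial k, Ge P' 0 (algebraMap (Polynomial k) (RatFunc k) R) := by
      intro R
      have h1 := ge_aeval (P := P') (t := (RatFunc.X : RatFunc k)) (Or.inr hcon) R
      rw [RatFunc.aeval_X_left_eq_algebraMap] at h1
      exact h1
    obtain ⟨i, hi, hio⟩ := exists_pord P' ⟨j0, hvj0⟩
    have hgi : g i ≠ 0 := fun h0 => hi (by rw [hv, h0, map_zero])
    have h1 := hword fun _ => i
    rw [Finset.prod_const, Finset.card_univ, Fintype.card_fin] at h1
    have hUI : U (fun _ => i) ≠ 0 := by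
      intro h0
      rw [h0, zero_mul] at h1
      exact pow_ne_zero _ hgi h1.symm
    have h2 := congrArg (algebraMap (Polynomial k) (RatFunc k)) h1
    rw [map_mul, map_pow, map_pow, ← hv i] at h2
    have e1 : algebraMap (Polynomial k) (RatFunc k) (U fun _ => i) ≠ 0 :=
      (map_ne_zero_iff _ hinjR).2 hUI
    have e2 : algebraMap (Polynomial k) (RatFunc k) (U fun _ => j0) ≠ 0 :=
      (map_ne_zero_iff _ hinjR).2 hUJ
    have h3 := congrArg P'.ord h2
    rw [P'.ord_mul e1 (pow_ne_zero _ e2), P'.ord_pow, P'.ord_pow, hio] at h3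
    have h4 := (hreg' (U fun _ => i)).resolve_left e1
    have h5 : aeval v Q = algebraMap (Polynomial k) (RatFunc k) (U fun _ => j0) ^ d := by
      rw [hvae, hQg, map_pow]
    rcases hM' () with h6 | h6
    · rw [h5] at h6
      exact pow_ne_zero _ e2 h6
    · rw [h5, P'.ord_pow, hQ.totalDegree hQ0] at h6
      push_cast at h3 h6
      linarith
  · by_contra hcon
    push Not at hcon
    have hc : ∀ i, ∃ c : k, v i / v j0 = algebraMap k (RatFunc k) c := by
      intro i
      have halg : IsAlgebraic k (v i / v j0) := by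
        have h1 := hcon i j0 (by rw [← hv]; exact hvj0)
        unfold Transcendental at h1
        rw [not_not, ← hv, ← hv] at h1
        exact h1
      have h2 := IsAlgClosed.degree_eq_one_of_irreducible k (minpoly.irreducible
        halg.isIntegral)
      obtain ⟨c, hc⟩ := minpoly.mem_range_of_degree_eq_one k _ h2
      exact ⟨c, hc.symm⟩
    choose s hs using hc
    have hgs : ∀ i, g i = Polynomial.C (s i) * g j0 := by
      intro i
      apply hinjR
      rw [map_mul, ← hv, ← hv, RatFunc.algebraMap_C, ← RatFunc.algebraMap_eq_C, ← hs i,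
        div_mul_cancel₀ _ hvj0]
    have h1 : aeval g Q = Polynomial.C (eval s Q) * g j0 ^ (d + 1) := by
      have h2 : (fun i => algebraMap (Polynomial k) (RatFunc k) (g i)) = fun i =>
          algebraMap (Polynomial k) (RatFunc k) (g j0) * algebraMap k (RatFunc k) (s i) := by
        funext i
        rw [hgs i, map_mul, RatFunc.algebraMap_C, ← RatFunc.algebraMap_eq_C, mul_comm,
          hgs j0, map_mul, RatFunc.algebraMap_C, ← RatFunc.algebraMap_eq_C]
      apply hinjR
      rw [← hvae, funext hv, h2]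
      have h3 := val_smul hQ (algebraMap (Polynomial k) (RatFunc k) (g j0))
        fun i => algebraMap k (RatFunc k) (s i)
      unfold Pool.Agent.W602.GT.val at h3
      rw [h3, map_mul, map_pow, RatFunc.algebraMap_C, ← RatFunc.algebraMap_eq_C, mul_comm]
      congr 1
      rw [← ae_eval]
      exact aeval_algebraMap_apply _ _ _
    rw [hQg, hgj0, pow_succ] at h1
    have h2 : Polynomial.C (eval s Q) * U (fun _ => j0) = 1 := by
      apply mul_left_cancel₀ (pow_ne_zero d hUJ)
      rw [mul_one]
      conv_rhs => rw [h1]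
      ring
    have h3 : (U fun _ => j0).natDegree = 0 := by
      have h4 : IsUnit (U fun _ => j0) := IsUnit.of_mul_eq_one _ (by rw [mul_comm]; exact h2)
      exact Polynomial.natDegree_eq_zero_of_isUnit h4
    have h4 : ∀ w, (U w).natDegree = 0 := by
      intro w
      have h5 := hword w
      have h6 : ∏ t, g (w t) = Polynomial.C (∏ t, s (w t)) * U (fun _ => j0) ^ (d + 1) := by
        rw [map_prod, ← hgj0]
        have h7 : ∀ t, g (w t) = Polynomial.C (s (w t)) * g j0 := fun t => hgs _
        rw [Finset.prod_congr rfl fun t _ => h7 t, Finset.prod_mul_distrib, Finset.prod_const,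
          Finset.card_univ, Fintype.card_fin]
      rw [h6, pow_succ, ← mul_assoc] at h5
      have h7 : U w = Polynomial.C (∏ t, s (w t)) * U fun _ => j0 := by
        apply mul_right_cancel₀ (pow_ne_zero d hUJ)
        rw [h5]
        ring
      rw [h7]
      have h8 := Polynomial.natDegree_mul_le (p := Polynomial.C (∏ t, s (w t)))
        (q := U fun _ => j0)
      rw [Polynomial.natDegree_C, h3] at h8
      omega
    apply hn0
    have h5 := h4 (e n0)
    have h6 := Polynomial.eq_C_of_natDegree_eq_zero h5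
    have h7 : U (e n0) = P n0 + Polynomial.C (uf Q b (e n0)) := by
      rw [hU]
      simp only [Equiv.symm_apply_apply]
    have h8 := hU0 (e n0)
    rw [h6, Polynomial.eval_C] at h8
    rw [h8, h7] at h6
    have h9 : P n0 + Polynomial.C (uf Q b (e n0)) = 0 + Polynomial.C (uf Q b (e n0)) := by
      rw [zero_add]
      exact h6
    exact add_right_cancel h9

end general

section complex

theorem pht_const {L : Type} [Field L] [Algebra ℂ L] [IsFF ℂ L] {M : ℕ} {f : Fin (M + 1) → L}
    (hf : ∃ j, f j ≠ 0) (hn : ¬ Nonconst f) : pht ℂ f ≤ 0 := by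
  have hc : ∀ i j, f j ≠ 0 → ∃ c : ℂ, f i / f j = algebraMap ℂ L c := by
    intro i j hj
    by_contra hcon
    apply hn
    refine ⟨i, j, hj, fun halg => hcon ?_⟩
    have h2 := IsAlgClosed.degree_eq_one_of_irreducible ℂ (minpoly.irreducible
      halg.isIntegral)
    obtain ⟨c, hc⟩ := minpoly.mem_range_of_degree_eq_one ℂ _ h2
    exact ⟨c, hc.symm⟩
  obtain ⟨j, hj⟩ := hf
  choose c hc using fun i => hc i j hj
  have h3 : f = fun i => f j * algebraMap ℂ L (c i) := by
    funext i
    rw [← hc i]
    field_simp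
  have h4 : pht ℂ (fun i => f j * algebraMap ℂ L (c i)) =
      pht ℂ fun i => algebraMap ℂ L (c i) := by
    refine Pool.Agent.W603.PV.pht_scale ⟨j, fun h0 => hj ?_⟩ hj
    rw [h3]
    change f j * algebraMap ℂ L (c j) = 0
    rw [h0, mul_zero]
  rw [h3, h4]
  have h5 : ∀ P : Place ℂ L, pord P (fun i => algebraMap ℂ L (c i)) = 0 := by
    intro P
    have hcj : algebraMap ℂ L (c j) ≠ 0 := by
      rw [← hc j, div_self hj]
      exact one_ne_zero
    obtain ⟨l, hl, hlo⟩ := exists_pord P (f := fun i => algebraMap ℂ L (c i)) ⟨j, hcj⟩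
    rw [← hlo]
    exact P.ord_const ((map_ne_zero _).1 hl)
  unfold pht
  rw [finsum_congr h5]
  simp

/-- **Pointed maps to affine varieties.** -/
theorem pointed_of_strong {M d : ℕ} {K : Type} [Field K] [Algebra ℂ K] {x : Fin (M + 1) → K}
    {Q : MvPolynomial (Fin (M + 1)) ℂ} (hQ : Q.IsHomogeneous (d + 1))
    {G : MvPolynomial (Fin (M + 1)) ℂ} (hG : IsForm G) {A : ℕ}
    (hA : StrongBound x (fun _ : Unit => Q) G A) : PointedFiniteOff x (fun _ : Unit => Q) G := by
  classical
  intro L _ _ _ S c hcS a _ hQa hGa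
  obtain ⟨u, hQa⟩ := hQa
  have hQa : eval a Q ≠ 0 := hQa
  by_contra hfin
  have hinf : (PointedOff x (fun _ : Unit => Q) S c a).Infinite := hfin
  have hQ0 : Q ≠ 0 := fun h => hQa (by rw [h, map_zero])
  have hane : a ≠ 0 := by
    rintro rfl
    apply hQa
    have h1 := val_smul hQ (0 : ℂ) (0 : Fin (M + 1) → ℂ)
    unfold Pool.Agent.W602.GT.val at h1
    rw [ae_eval, ae_eval, zero_pow (Nat.succ_ne_zero d), zero_mul] at h1
    rw [← h1]
    congr 1
    congr 1
    funext j
    simp
  obtain ⟨j0, hj0⟩ := Function.ne_iff.1 hane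
  have hj0 : a j0 ≠ 0 := hj0
  set M' : Set (Fin (M + 1) → L) := {f | f j0 = 1 ∧ (∀ H : MvPolynomial (Fin (M + 1)) ℂ,
    IsForm H → val x H = 0 → val f H = 0) ∧ aeval f Q ≠ 0 ∧
    (∀ P, Meets (fun _ : Unit => Q) f P → P ∈ S) ∧ HasValue c a f} with hM
  have hMinf : M'.Infinite := by
    intro hMfin
    obtain ⟨φ0, -⟩ := hinf.nonempty
    let g : (Fin (M + 1) → L) → ℙ L (Fin (M + 1) → L) := fun f =>
      if h : f ≠ 0 then Projectivization.mk L f h else φ0
    refine hinf ((hMfin.image g).subset ?_)
    rintro φ ⟨f, hf, hmap, ⟨_, hoff⟩, hmeet, hval, rfl⟩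
    have hfne : ∃ j, f j ≠ 0 := Function.ne_iff.1 hf
    have hfj0 := Pool.Agent.W273.RG.FNW.hv_ne hfne hval hj0
    have hc0 : (f j0)⁻¹ ≠ 0 := inv_ne_zero hfj0
    have hf' : (fun j => (f j0)⁻¹ * f j) ≠ 0 := by
      intro h0
      have := congrFun h0 j0
      simp only [Pi.zero_apply] at this
      exact (mul_ne_zero hc0 hfj0) this
    refine ⟨fun j => (f j0)⁻¹ * f j, ⟨inv_mul_cancel₀ hfj0, ?_, ?_, ?_,
      Pool.Agent.W273.RG.FNW.hv_scale hfne hval hc0⟩, ?_⟩
    · intro H hH hyH
      have h3 := hmap H hH hyH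
      obtain ⟨e, he⟩ := hH
      rw [val_smul he, h3, mul_zero]
    · have h3 := val_smul hQ (f j0)⁻¹ f
      unfold Pool.Agent.W602.GT.val at h3
      rw [h3]
      exact mul_ne_zero (pow_ne_zero _ hc0) hoff
    · intro P hP
      rw [meets_scale (fun _ => ⟨d + 1, hQ⟩) hfne hc0] at hP
      exact hmeet P hP
    · change (if h : (fun j => (f j0)⁻¹ * f j) ≠ 0 then
        Projectivization.mk L (fun j => (f j0)⁻¹ * f j) h else φ0) = _
      rw [dif_pos hf', Projectivization.mk_eq_mk_iff']
      exact ⟨(f j0)⁻¹, by funext j; rfl⟩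
  -- the form `G`
  have hfG : ∀ f ∈ M', val f G ≠ 0 := by
    rintro f ⟨hf0, -, -, -, hval⟩ h0
    obtain ⟨b, hb⟩ : ∃ b : Fin (M + 1) → ℂ, b = fun j => a j / a j0 := ⟨_, rfl⟩
    have hvalues : ∀ j, Ge c 1 (f j - algebraMap ℂ L (b j)) := by
      intro j
      have hp := Pool.Agent.W273.RG.FNW.pord_zero hval hj0 hf0
      have hxj0 : algebraMap ℂ L (a j0) ≠ 0 := (map_ne_zero _).2 hj0
      have e : algebraMap ℂ L (a j0) * f j - algebraMap ℂ L (a j) * f j0 =
          algebraMap ℂ L (a j0) * (f j - algebraMap ℂ L (b j)) := by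
        rw [hf0, hb]
        simp only [map_div₀]
        field_simp
      rcases hval j0 j with h3 | h3
      · left
        rw [e] at h3
        exact (mul_eq_zero.1 h3).resolve_left hxj0
      · by_cases h4 : f j - algebraMap ℂ L (b j) = 0
        · left; exact h4
        · right
          rw [e, c.ord_mul hxj0 h4, c.ord_const hj0, zero_add, hp] at h3
          omega
    have hreg : ∀ j, Ge c 0 (f j) := by
      intro j
      have h3 : f j = (f j - algebraMap ℂ L (b j)) + algebraMap ℂ L (b j) := by ring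
      rw [h3]
      exact ((hvalues j).mono (by norm_num)).add (Ge.const _)
    have h3 := red_mvaeval c hreg hvalues G
    rw [show aeval f G = 0 from h0, zero_sub] at h3
    have h4 := h3.neg
    rw [neg_neg] at h4
    have h5 : eval b G = 0 := by
      by_contra h5
      rcases h4 with h4 | h4
      · rw [map_eq_zero] at h4
        exact h5 h4
      · rw [c.ord_const h5] at h4
        omega
    apply hGa
    obtain ⟨e, he⟩ := hG
    have h6 : a = fun j => a j0 * b j := by
      funext j
      rw [hb]
      field_simp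
    rw [h6]
    have h7 := val_smul he (a j0) b
    unfold Pool.Agent.W602.GT.val at h7
    rw [ae_eval, ae_eval] at h7
    rw [h7, h5, mul_zero]
  obtain ⟨B, hBdef⟩ : ∃ B : ℕ, B = (A * (canDeg ℂ L + S.card)).toNat := ⟨_, rfl⟩
  have hbound : ∀ f ∈ M', pht ℂ f ≤ B := by
    intro f hf
    have hfG' := hfG f hf
    obtain ⟨hf0, hmap, hoff, hmeet, hval⟩ := hf
    have hne : ∃ j, f j ≠ 0 := ⟨j0, by rw [hf0]; exact one_ne_zero⟩
    by_cases hn : Nonconst f
    · have h1 := hA L f ⟨hne, hmap⟩ hn hfG' ⟨(), hoff⟩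
      have h2 : ({P : Place ℂ L | Meets (fun _ : Unit => Q) f P}.ncard : ℤ) ≤ S.card := by
        have h3 : {P : Place ℂ L | Meets (fun _ : Unit => Q) f P} ⊆ (S : Set (Place ℂ L)) :=
          fun P hP => hmeet P hP
        have h4 := Set.ncard_le_ncard h3 S.finite_toSet
        rw [Set.ncard_coe_finset] at h4
        exact_mod_cast h4
      have h3 : (A : ℤ) * (canDeg ℂ L + {P : Place ℂ L | Meets (fun _ : Unit => Q) f P}.ncard) ≤
          A * (canDeg ℂ L + S.card) := mul_le_mul_of_nonneg_left (by linarith)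
            (Int.natCast_nonneg _)
      rw [hBdef]
      exact (h1.trans h3).trans (Int.self_le_toNat _)
    · exact (pht_const hne hn).trans (Int.natCast_nonneg _)
  let z : ℕ ↪ M' := hMinf.natEmbedding M'
  obtain ⟨g, hg1, hg2, hg3, hg4⟩ := exists_poly_curve hQ hcS hj0 hQa
    (fun m => (z m : Fin (M + 1) → L)) (fun a b hab => z.injective (Subtype.ext hab))
    (fun m => (z m).2.1) (fun m => (z m).2.2.2.1) (fun m => (z m).2.2.2.2.1)
    (fun m => (z m).2.2.2.2.2) B fun m => hbound _ (z m).2
  obtain ⟨v, hv⟩ : ∃ v : Fin (M + 1) → RatFunc ℂ, v = fun i =>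
    algebraMap (Polynomial ℂ) (RatFunc ℂ) (g i) := ⟨_, rfl⟩
  have hvae : ∀ H : MvPolynomial (Fin (M + 1)) ℂ, aeval v H =
      algebraMap (Polynomial ℂ) (RatFunc ℂ) (aeval g H) := by
    intro H
    rw [hv]
    exact aeval_algebraMap_apply _ _ _
  have hinjR : Function.Injective (algebraMap (Polynomial ℂ) (RatFunc ℂ)) :=
    RatFunc.algebraMap_injective ℂ
  have hn : Nonconst v := by
    obtain ⟨i, j, h1, h2⟩ := hg4
    exact ⟨i, j, by rw [hv]; exact h1, by rw [hv]; exact h2⟩
  have hne := Pool.Agent.H910.Cf.ne_of_nonconst hn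
  have hff : IsFF ℂ (RatFunc ℂ) := Pool.Agent.Y216.isFF_ratFunc
  have h1 := hA (RatFunc ℂ) v ⟨hne, fun H hH hHx => by
      unfold Pool.Agent.W602.GT.val
      rw [hvae, hg1 H hH fun m => (z m).2.2.1 H hH hHx, map_zero]⟩ hn (by
      unfold Pool.Agent.W602.GT.val
      rw [hvae]
      exact (map_ne_zero_iff _ hinjR).2 (hg2 G hG hGa)) ⟨(), by
      rw [hvae]
      exact (map_ne_zero_iff _ hinjR).2 (hg2 Q ⟨_, hQ⟩ hQa)⟩
  have h2 := Pool.Agent.Q96.LS.pht_pos v hn
  obtain ⟨P1, hP1, hP1'⟩ := Pool.Agent.W619.PQ.pole_unique (k := ℂ)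
    (x := (RatFunc.X : RatFunc ℂ)) RatFunc.adjoin_X
  have h3 : {P : Place ℂ (RatFunc ℂ) | Meets (fun _ : Unit => Q) v P} ⊆ {P1} := by
    intro P hP
    rw [hv] at hP
    exact hP1' P (hg3 P hP)
  have h4 := Set.ncard_le_ncard h3 (Set.finite_singleton _)
  rw [Set.ncard_singleton] at h4
  rw [Pool.Agent.Y216.canDeg_ratFunc] at h1
  have h5 : ({P : Place ℂ (RatFunc ℂ) | Meets (fun _ : Unit => Q) v P}.ncard : ℤ) ≤ 1 := by
    exact_mod_cast h4
  have h6 := mul_nonpos_of_nonneg_of_nonpos (Int.natCast_nonneg A)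
    (show (-2 : ℤ) + {P : Place ℂ (RatFunc ℂ) | Meets (fun _ : Unit => Q) v P}.ncard ≤ 0 by
      omega)
  linarith

end complex

end Pool.Agent.H910.Lp
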